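import Pool.Agent.R206.Bous.Data

/-! The critical case: rate `(T-t)^{-1}` at two points. -/

namespace Pool.Agent.R206.Bous

open MeasureTheory Set Filter Topology

/-- data for blow-up at `x₁`, `x₂` -/
noncomputable def gg (x₁ x₂ : ℝ) (k : ℂ) : ℂ :=
  aa (1 / 2) k * (Complex.exp (-(Complex.I * k * x₁)) + Complex.exp (-(Complex.I * k * x₂)))

lemma exp_bd {k : ℂ} (hk : k ∈ strip) (x : ℝ) : ‖Complex.exp (-(Complex.I * k * x))‖ ≤ Real.exp |x| := by
  rw [Complex.norm_exp]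
  apply Real.exp_le_exp.2
  have e : (-(Complex.I * k * x)).re = k.im * x := by simp
  rw [e]
  have h1 : |k.im| < 1 := hk
  have h2 := le_abs_self (k.im * x)
  rw [abs_mul] at h2
  nlinarith [abs_nonneg x]

lemma exp_sym (k : ℂ) (x : ℝ) : Complex.exp (-(Complex.I * (-(starRingEnd ℂ k)) * x)) =
    starRingEnd ℂ (Complex.exp (-(Complex.I * k * x))) := by
  rw [← Complex.exp_conj]
  congr 1
  simp

variable {x₁ x₂ : ℝ}

lemma gg_hol : DifferentiableOn ℂ (gg x₁ x₂) strip := by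
  unfold gg
  exact (aa_hol _).mul (by fun_prop)

lemma gg_bd {k : ℂ} (hk : k ∈ strip) : ‖gg x₁ x₂ k‖ ≤ (3 * (Real.exp |x₁| + Real.exp |x₂|)) * XX k := by
  unfold gg
  rw [norm_mul, norm_aa]
  have hX := one_le_XX k
  have h1 : ‖(4 + k ^ 2 : ℂ)‖ ^ (1 / 2 : ℝ) ≤ 3 * XX k := by
    rw [← Real.sqrt_eq_rpow, Real.sqrt_le_left (by positivity)]
    exact norm_base_le hk
  have h2 := (norm_add_le (Complex.exp (-(Complex.I * k * x₁))) (Complex.exp (-(Complex.I * k * x₂)))).trans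
    (add_le_add (exp_bd hk x₁) (exp_bd hk x₂))
  refine (mul_le_mul h1 h2 (norm_nonneg _) (by positivity)).trans (le_of_eq (by ring))

lemma gg_sym {k : ℂ} (hk : k ∈ strip) : gg x₁ x₂ (-(starRingEnd ℂ k)) = starRingEnd ℂ (gg x₁ x₂ k) := by
  unfold gg
  rw [map_mul, map_add, aa_sym _ hk, exp_sym, exp_sym]

/-- real part of the main term at a blow-up point -/
lemma main_re {ε ρ k x : ℝ} (hx : x = x₁ ∨ x = x₂) :
    (F0 ε (gg x₁ x₂) k ρ * Complex.exp (Complex.I * k * x)).re =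
      ε * Real.sqrt (4 + k ^ 2) * (1 + Real.cos (k * (x₁ - x₂))) * Real.exp (-(k ^ 2 * ρ)) := by
  unfold F0 gg
  rw [aa_real, ← Real.sqrt_eq_rpow]
  have e1 : Complex.exp (-((k : ℂ) ^ 2) * ρ) = ((Real.exp (-(k ^ 2 * ρ)) : ℝ) : ℂ) := by
    push_cast; congr 1; ring
  rw [e1]
  have e2 : (ε * (((Real.sqrt (4 + k ^ 2) : ℝ) : ℂ) * (Complex.exp (-(Complex.I * k * x₁)) + Complex.exp (-(Complex.I * k * x₂)))) *
      ((Real.exp (-(k ^ 2 * ρ)) : ℝ) : ℂ) * Complex.exp (Complex.I * k * x)) =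
      ((ε * Real.sqrt (4 + k ^ 2) * Real.exp (-(k ^ 2 * ρ)) : ℝ) : ℂ) *
        (Complex.exp (((k * (x - x₁) : ℝ) : ℂ) * Complex.I) + Complex.exp (((k * (x - x₂) : ℝ) : ℂ) * Complex.I)) := by
    have a1 : Complex.exp (((k * (x - x₁) : ℝ) : ℂ) * Complex.I) =
        Complex.exp (-(Complex.I * k * x₁)) * Complex.exp (Complex.I * k * x) := by
      rw [← Complex.exp_add]; congr 1; push_cast; ring
    have a2 : Complex.exp (((k * (x - x₂) : ℝ) : ℂ) * Complex.I) =
        Complex.exp (-(Complex.I * k * x₂)) * Complex.exp (Complex.I * k * x) := by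
      rw [← Complex.exp_add]; congr 1; push_cast; ring
    rw [a1, a2]; push_cast; ring
  rw [e2, Complex.re_ofReal_mul, Complex.add_re, Complex.exp_ofReal_mul_I_re, Complex.exp_ofReal_mul_I_re]
  rcases hx with rfl | rfl
  · rw [sub_self, mul_zero, Real.cos_zero]; ring
  · rw [sub_self, mul_zero, Real.cos_zero]
    have : Real.cos (k * (x - x₁)) = Real.cos (k * (x₁ - x)) := by
      rw [← Real.cos_neg]; congr 1; ring
    rw [this]; ring

/-- the elementary integral -/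
lemma elem_int {D K : ℝ} (hD : 0 < D) (hK : 8 / D ≤ K) :
    K ^ 2 / 4 ≤ ∫ k in Ioc 0 K, k * (1 + Real.cos (k * D)) := by
  have hK0 : 0 < K := lt_of_lt_of_le (by positivity) hK
  have hder : ∀ k ∈ uIcc 0 K, HasDerivAt (fun k => k ^ 2 / 2 + k * Real.sin (k * D) / D + Real.cos (k * D) / D ^ 2)
      (k * (1 + Real.cos (k * D))) k := by
    intro k _
    have h1 : HasDerivAt (fun k : ℝ => k * D) D k := by simpa using (hasDerivAt_id k).mul_const D
    have h2 := h1.sin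
    have h3 := h1.cos
    have h4 := (((hasDerivAt_pow 2 k).div_const 2).add (((hasDerivAt_id k).mul h2).div_const D)).add (h3.div_const (D ^ 2))
    refine h4.congr_deriv ?_
    simp only [id]
    field_simp
    ring
  have hint := intervalIntegral.integral_eq_sub_of_hasDerivAt hder (by
    apply Continuous.intervalIntegrable; fun_prop)
  rw [intervalIntegral.integral_of_le hK0.le] at hint
  rw [hint]
  simp only [zero_mul, Real.sin_zero, Real.cos_zero, mul_zero]
  have s1 := Real.neg_one_le_sin (K * D)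
  have c1 := Real.neg_one_le_cos (K * D)
  have h1 : K * Real.sin (K * D) / D ≥ -(K / D) := by
    rw [ge_iff_le, ← neg_div, div_le_div_iff_of_pos_right hD]; nlinarith
  have h2 : Real.cos (K * D) / D ^ 2 ≥ -(1 / D ^ 2) := by
    rw [ge_iff_le, ← neg_div, div_le_div_iff_of_pos_right (by positivity)]; exact c1
  have h3 : K / D ≤ K ^ 2 / 8 := by
    rw [div_le_div_iff₀ hD (by norm_num)]
    have : 8 ≤ K * D := by rw [div_le_iff₀ hD] at hK; exact hK
    nlinarith
  have h4 : 1 / D ^ 2 ≤ K ^ 2 / 64 := by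
    rw [div_le_div_iff₀ (by positivity) (by norm_num)]
    have : 8 ≤ K * D := by rw [div_le_iff₀ hD] at hK; exact hK
    nlinarith
  have h5 : (0 : ℝ) ^ 2 / 2 + 0 / D + 1 / D ^ 2 = 1 / D ^ 2 := by simp
  rw [h5]
  have h6 := sq_nonneg K
  linarith

/-- lower bound for the main term -/
lemma main_lower {ε ρ x : ℝ} (hε : 0 < ε) (hρ : 0 < ρ) (hx : x = x₁ ∨ x = x₂) (hne : x₁ ≠ x₂)
    (hρs : ρ ≤ (x₁ - x₂) ^ 2 / 64)
    (hint : Integrable (fun k : ℝ => F0 ε (gg x₁ x₂) k ρ * Complex.exp (Complex.I * k * x))) :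
    ε * Real.exp (-1) / 4 * (1 / ρ) ≤ (∫ k : ℝ, F0 ε (gg x₁ x₂) k ρ * Complex.exp (Complex.I * k * x)).re := by
  have hre := (integral_re hint)
  have hre' : (∫ k : ℝ, F0 ε (gg x₁ x₂) k ρ * Complex.exp (Complex.I * k * x)).re =
      ∫ k : ℝ, (F0 ε (gg x₁ x₂) k ρ * Complex.exp (Complex.I * k * x)).re := hre.symm
  have hint2 : Integrable (fun k : ℝ => (F0 ε (gg x₁ x₂) k ρ * Complex.exp (Complex.I * k * x)).re) := hint.re
  rw [hre']
  simp only [main_re hx] at hint2 ⊢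
  set D := |x₁ - x₂| with hD
  have hD0 : 0 < D := abs_pos.2 (sub_ne_zero.2 hne)
  have hcos : ∀ k : ℝ, Real.cos (k * (x₁ - x₂)) = Real.cos (k * D) := by
    intro k
    rw [hD]
    rcases abs_choice (x₁ - x₂) with h | h
    · rw [h]
    · rw [h, ← Real.cos_neg]; congr 1; ring
  simp only [hcos] at hint2 ⊢
  set K := 1 / Real.sqrt ρ with hK
  have hs : 0 < Real.sqrt ρ := Real.sqrt_pos.2 hρ
  have hK0 : 0 < K := by positivity
  have hK2 : K ^ 2 = 1 / ρ := by rw [hK, div_pow, one_pow, Real.sq_sqrt hρ.le]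
  have hKD : 8 / D ≤ K := by
    rw [hK, div_le_div_iff₀ hD0 hs]
    have : Real.sqrt ρ ≤ D / 8 := by
      rw [Real.sqrt_le_left (by positivity), div_pow, hD, sq_abs]
      norm_num; linarith
    linarith
  have hnn : ∀ k : ℝ, 0 ≤ ε * Real.sqrt (4 + k ^ 2) * (1 + Real.cos (k * D)) * Real.exp (-(k ^ 2 * ρ)) := by
    intro k
    have := Real.neg_one_le_cos (k * D)
    have h1 : 0 ≤ 1 + Real.cos (k * D) := by linarith
    positivity
  have hstep : ∫ k in Ioc 0 K, ε * Real.exp (-1) * (k * (1 + Real.cos (k * D))) ≤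
      ∫ k in Ioc 0 K, ε * Real.sqrt (4 + k ^ 2) * (1 + Real.cos (k * D)) * Real.exp (-(k ^ 2 * ρ)) := by
    refine setIntegral_mono_on ?_ hint2.integrableOn measurableSet_Ioc fun k hk => ?_
    · exact (by fun_prop : Continuous fun k : ℝ => ε * Real.exp (-1) * (k * (1 + Real.cos (k * D)))).integrableOn_Ioc
    · have h1 : 0 ≤ 1 + Real.cos (k * D) := by linarith [Real.neg_one_le_cos (k * D)]
      have h2 : k ≤ Real.sqrt (4 + k ^ 2) := by
        apply Real.le_sqrt_of_sq_le; linarith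
      have h3 : Real.exp (-1) ≤ Real.exp (-(k ^ 2 * ρ)) := by
        apply Real.exp_le_exp.2
        have : k ^ 2 ≤ K ^ 2 := pow_le_pow_left₀ hk.1.le hk.2 2
        rw [hK2] at this
        have h4 : k ^ 2 * ρ ≤ 1 / ρ * ρ := mul_le_mul_of_nonneg_right this hρ.le
        rw [one_div, inv_mul_cancel₀ hρ.ne'] at h4
        linarith
      have hk0 := hk.1.le
      calc ε * Real.exp (-1) * (k * (1 + Real.cos (k * D)))
          = ε * k * (1 + Real.cos (k * D)) * Real.exp (-1) := by ring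
        _ ≤ ε * Real.sqrt (4 + k ^ 2) * (1 + Real.cos (k * D)) * Real.exp (-(k ^ 2 * ρ)) := by gcongr
  rw [integral_const_mul] at hstep
  have h5 := elem_int hD0 hKD
  rw [hK2] at h5
  have h6 := mul_le_mul_of_nonneg_left h5 (by positivity : 0 ≤ ε * Real.exp (-1))
  have h7 := setIntegral_le_integral hint2 (s := Ioc 0 K) (Eventually.of_forall hnn)
  calc ε * Real.exp (-1) / 4 * (1 / ρ) = ε * Real.exp (-1) * (1 / ρ / 4) := by ring
    _ ≤ _ := h6.trans (hstep.trans h7)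

section final

variable {T : ℝ}

lemma m_integral {s : ℝ} (hs : 0 < s) : Integrable (fun k : ℝ => (1 + |k|) * Real.exp (-(s * (1 + |k|)))) ∧
    ∫ k : ℝ, (1 + |k|) * Real.exp (-(s * (1 + |k|))) ≤ 8 / s ^ 2 := by
  have hpt : ∀ k : ℝ, (1 + |k|) * Real.exp (-(s * (1 + |k|))) ≤ (1 / (s / 2)) * Real.exp (-(s / 2 * |k|)) := by
    intro k
    have hk := abs_nonneg k
    rw [half_exp, ← mul_assoc]
    refine mul_le_mul (X_sup (by positivity) (by positivity)) (Real.exp_le_exp.2 ?_) (Real.exp_pos _).le (by positivity)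
    nlinarith
  have hint : Integrable (fun k : ℝ => (1 + |k|) * Real.exp (-(s * (1 + |k|)))) := by
    refine Integrable.mono' ((exp_abs_int (c := s / 2) (by positivity)).const_mul (1 / (s / 2))) ?_
      (Eventually.of_forall fun k => ?_)
    · exact (by fun_prop : Continuous fun k : ℝ => (1 + |k|) * Real.exp (-(s * (1 + |k|)))).aestronglyMeasurable
    · rw [Real.norm_eq_abs, abs_of_nonneg (by positivity)]
      exact hpt k
  refine ⟨hint, ?_⟩
  have h1 := integral_mono hint ((exp_abs_int (c := s / 2) (by positivity)).const_mul (1 / (s / 2))) hpt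
  rw [integral_const_mul, exp_abs_val (by positivity)] at h1
  refine h1.trans (le_of_eq ?_)
  field_simp
  ring

/-- bound of the linear correction -/
lemma lin_corr {W : WData (T + 1)} {B : ℝ} (hB : KB W B) {M : ℝ} (hM : 0 ≤ M) {N : ℂ → ℝ → ℂ}
    (hN : Cls (T + 1) (fun X _ => M * W.m X) N) {k : ℂ} (hk : k ∈ strip) {ρ : ℝ} (hρ : ρ ∈ Ioo 0 (T + 1)) :
    ‖GG (T + 1) N k ρ‖ ≤ B * Real.exp 1 * M * 8 * (W.m (XX k) / XX k ^ 2) * ew ρ (XX k) := by
  have hX := one_le_XX k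
  have hc : 0 < XX k ^ 2 / 4 := by positivity
  have hB0 := hB.pos
  have hm := (W.m_pos _ hX).le
  have he := (ew_pos ρ (XX k)).le
  have h := GG_bound hB.pos hB.ker N hk hρ
    (q := fun r => (B * Real.exp 1 * M * W.m (XX k) * ew ρ (XX k)) * Real.exp (-(XX k ^ 2 / 4) * |ρ - r|))
    ((exp_time_int hc).const_mul _) (fun r hr => by
      have h1 := hN.bd k hk r hr
      have h2 := exponent_ineq hX hρ.1 hr.1
      have hr0 := hr.1.le
      have hmin : min 1 (XX k ^ 2 * r) ≤ 1 := min_le_left _ _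
      calc B * (min 1 (XX k ^ 2 * r) * Real.exp (-(XX k ^ 2 / 2) * |ρ - r|)) * ‖N k r‖
          ≤ B * (1 * Real.exp (-(XX k ^ 2 / 2) * |ρ - r|)) * (M * W.m (XX k) * ew r (XX k)) := by gcongr
        _ = (B * M * W.m (XX k)) * (Real.exp (-(XX k ^ 2 / 2) * |ρ - r|) * ew r (XX k)) := by ring
        _ ≤ (B * M * W.m (XX k)) * (Real.exp 1 * (Real.exp (-(XX k ^ 2 / 4) * |ρ - r|) * ew ρ (XX k))) :=
            mul_le_mul_of_nonneg_left h2 (by positivity)
        _ = _ := by ring)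
  rw [integral_const_mul] at h
  refine h.trans ((mul_le_mul_of_nonneg_left (exp_time_le hc) (by positivity)).trans (le_of_eq ?_))
  field_simp
  ring

theorem critical (hT : 0 < T) (hne : x₁ ≠ x₂) : ∃ u : ℝ → ℝ → ℝ, IsSchwartzSolution T u ∧
    ∃ c₁ c₂ τ : ℝ, 0 < c₁ ∧ 0 < c₂ ∧ 0 < τ ∧ τ < T ∧ ∀ t, τ ≤ t → t < T → ∀ x, (x = x₁ ∨ x = x₂) →
      c₁ / (T - t) ≤ u x t ∧ u x t ≤ c₂ / (T - t) := by
  have hT1 : 0 < T + 1 := by linarith
  set W := W1 (T + 1) hT1 with hW
  have hWm : W.m = fun X => X := rfl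
  obtain ⟨B, C₀, ε₀, hε₀, hex⟩ := exists_dsol W (g := gg x₁ x₂) (Cg := 3 * (Real.exp |x₁| + Real.exp |x₂|))
    (by positivity) gg_hol (fun k hk => gg_bd hk) (fun k hk => gg_sym hk)
  set C₂ := C₀ * (1 + B * Real.exp 1 * W.A) with hC₂
  set Q := |B * Real.exp 1 * W.A * (9 * C₂ ^ 2)| with hQ
  set q₀ := Real.exp (-1) / 8 with hq₀
  have hq₀0 : 0 < q₀ := by positivity
  obtain ⟨ε, hε, hεε₀, hεQ⟩ : ∃ ε : ℝ, 0 < ε ∧ ε ≤ ε₀ ∧ ε * (Q * 8) ≤ q₀ := by
    refine ⟨min ε₀ (q₀ / (Q * 8 + 1)), lt_min hε₀ (by positivity), min_le_left _ _, ?_⟩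
    have h1 : min ε₀ (q₀ / (Q * 8 + 1)) ≤ q₀ / (Q * 8 + 1) := min_le_right _ _
    have h2 : 0 ≤ Q * 8 := by positivity
    calc min ε₀ (q₀ / (Q * 8 + 1)) * (Q * 8) ≤ q₀ / (Q * 8 + 1) * (Q * 8) := by gcongr
      _ ≤ q₀ := by
        rw [div_mul_eq_mul_div, div_le_iff₀ (by positivity)]
        nlinarith
  obtain ⟨v, v', hd⟩ := hex ε hε hεε₀
  have hS := hd.fsol
  rw [← hC₂] at hS
  have hB0 := hd.kb.pos
  have hA0 := W.A_pos
  have hC₀0 := hd.C₀_nonneg
  have hC₂0 : 0 ≤ C₂ := by positivity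
  have hvc := hS.cls
  have hcv := hS.cv_cls
  have hGcv := Cls.green hd.kb (by positivity) hcv
  set C₃ := B * Real.exp 1 * C₀ * 8 with hC₃
  have hC₃0 : 0 ≤ C₃ := by positivity
  -- the error term
  have herr : ∀ k : ℝ, ∀ ρ ∈ Ioo 0 (T + 1), ‖v k ρ - F0 ε (gg x₁ x₂) k ρ‖ ≤
      ε * C₃ * Real.exp (-(Real.sqrt ρ * |k|)) + ε ^ 2 * Q * ((1 + |k|) * Real.exp (-(Real.sqrt ρ * (1 + |k|)))) := by
    intro k ρ hρ
    have hk := real_mem_strip k
    rw [hd.fix k hk ρ hρ]
    have e1 : F0 ε (gg x₁ x₂) k ρ + GG (T + 1) (F0 ε (gg x₁ x₂)) k ρ + GG (T + 1) (cv v v) k ρ - F0 ε (gg x₁ x₂) k ρ =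
      GG (T + 1) (F0 ε (gg x₁ x₂)) k ρ + GG (T + 1) (cv v v) k ρ := by ring
    rw [e1]
    refine (norm_add_le _ _).trans (add_le_add ?_ ?_)
    · refine (lin_corr hd.kb (by positivity) hd.f0 hk hρ).trans ?_
      rw [hWm, XX_real]
      have h1 : (1 + |k|) / (1 + |k|) ^ 2 ≤ 1 := by
        rw [div_le_one (by positivity)]; nlinarith [abs_nonneg k]
      have h2 : ew ρ (1 + |k|) ≤ Real.exp (-(Real.sqrt ρ * |k|)) := by
        unfold ew
        apply Real.exp_le_exp.2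
        nlinarith [Real.sqrt_nonneg ρ]
      have h3 := (ew_pos ρ (1 + |k|)).le
      calc B * Real.exp 1 * (ε * C₀) * 8 * ((1 + |k|) / (1 + |k|) ^ 2) * ew ρ (1 + |k|)
          ≤ B * Real.exp 1 * (ε * C₀) * 8 * 1 * Real.exp (-(Real.sqrt ρ * |k|)) := by gcongr
        _ = _ := by rw [hC₃]; ring
    · refine (hGcv.bd k hk ρ hρ).trans ?_
      rw [hWm, XX_real]
      unfold ew
      have h1 : B * Real.exp 1 * W.A * (3 * (ε * C₂) * (3 * (ε * C₂))) = ε ^ 2 * (B * Real.exp 1 * W.A * (9 * C₂ ^ 2)) := by ring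
      rw [h1, mul_assoc]
      refine mul_le_mul_of_nonneg_right (mul_le_mul_of_nonneg_left (le_abs_self _) (by positivity)) (by positivity)
  set c₂ := 3 * (ε * C₂) * 8 + 1 with hc₂
  set σ := min (min ((x₁ - x₂) ^ 2 / 64) (T / 2)) ((q₀ / 2 / (2 * C₃ + 1)) ^ 2) with hσ
  have hσ0 : 0 < σ := by
    have : 0 < (x₁ - x₂) ^ 2 := by
      have := sub_ne_zero.2 hne
      positivity
    exact lt_min (lt_min (by positivity) (by positivity)) (by positivity)
  refine ⟨usol T v, hS.schwartz hT, ε * q₀ / 2, c₂, T - σ, by positivity, by positivity, ?_, by linarith, ?_⟩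
  · have : σ ≤ T / 2 := (min_le_left _ _).trans (min_le_right _ _)
    linarith
  intro t ht1 ht2 x hx
  have hσT : σ ≤ T / 2 := (min_le_left _ _).trans (min_le_right _ _)
  have htm : t ∈ Ioo (-1) T := ⟨by linarith, ht2⟩
  have hρ := time_mem htm
  set ρ := T - t with hρdef
  have hρσ : ρ ≤ σ := by rw [hρdef]; linarith
  have hρ0 : 0 < ρ := hρ.1
  have hs0 : 0 < Real.sqrt ρ := Real.sqrt_pos.2 hρ0
  have hs2 : Real.sqrt ρ ^ 2 = ρ := Real.sq_sqrt hρ0.le
  -- integrability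
  have hexpc : Continuous (fun k : ℝ => Complex.exp (Complex.I * k * x)) := by fun_prop
  have hvint : Integrable (fun k : ℝ => v k ρ * Complex.exp (Complex.I * k * x)) :=
    hS.good_v.integrable_exp (p := (x, t)) htm
  have hmi := m_integral hs0
  have hFint : Integrable (fun k : ℝ => F0 ε (gg x₁ x₂) k ρ * Complex.exp (Complex.I * k * x)) := by
    refine Integrable.mono' (hmi.1.const_mul (ε * C₀)) ?_ (Eventually.of_forall fun k => ?_)
    · exact (((hd.f0.hol ρ hρ).continuousOn.comp_continuous (by fun_prop) (fun k : ℝ => real_mem_strip k)).mul hexpc).aestronglyMeasurable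
    · rw [norm_mul, norm_exp_I, mul_one]
      refine (hd.f0.bd k (real_mem_strip k) ρ hρ).trans (le_of_eq ?_)
      rw [hWm, XX_real]; unfold ew; ring
  have heint : Integrable (fun k : ℝ => (v k ρ - F0 ε (gg x₁ x₂) k ρ) * Complex.exp (Complex.I * k * x)) := by
    refine (hvint.sub hFint).congr (Eventually.of_forall fun k => ?_)
    simp only [Pi.sub_apply]; ring
  have hu : usol T v x t = (∫ k : ℝ, F0 ε (gg x₁ x₂) k ρ * Complex.exp (Complex.I * k * x)).re +
      (∫ k : ℝ, (v k ρ - F0 ε (gg x₁ x₂) k ρ) * Complex.exp (Complex.I * k * x)).re := by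
    rw [← Complex.add_re, ← integral_add hFint heint]
    unfold usol fa U
    congr 1
    congr 1; funext k
    simp only [pow_zero, one_mul]
    ring
  have hebd : ‖∫ k : ℝ, (v k ρ - F0 ε (gg x₁ x₂) k ρ) * Complex.exp (Complex.I * k * x)‖ ≤
      ε * C₃ * (2 / Real.sqrt ρ) + ε ^ 2 * Q * (8 / ρ) := by
    have i1 := (exp_abs_int hs0).const_mul (ε * C₃)
    have i2 := hmi.1.const_mul (ε ^ 2 * Q)
    have h1 := norm_integral_le_of_norm_le (i1.add i2)
      (f := fun k : ℝ => (v k ρ - F0 ε (gg x₁ x₂) k ρ) * Complex.exp (Complex.I * k * x)) (Eventually.of_forall fun k => by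
        rw [norm_mul, norm_exp_I, mul_one]; exact herr k ρ hρ)
    simp only [Pi.add_apply] at h1
    rw [integral_add i1 i2, integral_const_mul, integral_const_mul, exp_abs_val hs0] at h1
    refine h1.trans (add_le_add le_rfl (mul_le_mul_of_nonneg_left ?_ (by positivity)))
    have hh := hmi.2
    rwa [hs2] at hh
  constructor
  · have hmain := main_lower hε hρ0 hx hne (hρσ.trans ((min_le_left _ _).trans (min_le_left _ _))) hFint
    have h2 := (abs_le.1 ((Complex.abs_re_le_norm _).trans hebd)).1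
    rw [hu]
    have h3 : ε ^ 2 * Q * (8 / ρ) ≤ ε * q₀ * (1 / ρ) := by
      have : ε ^ 2 * Q * (8 / ρ) = ε * (ε * (Q * 8)) * (1 / ρ) := by ring
      rw [this]; gcongr
    have h4 : ε * C₃ * (2 / Real.sqrt ρ) ≤ ε * (q₀ / 2) * (1 / ρ) := by
      have h5 : Real.sqrt ρ ≤ q₀ / 2 / (2 * C₃ + 1) := by
        rw [Real.sqrt_le_left (by positivity)]
        exact hρσ.trans (min_le_right _ _)
      have h6 : 2 * C₃ * Real.sqrt ρ ≤ q₀ / 2 := by
        rw [le_div_iff₀ (by positivity)] at h5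
        nlinarith
      have h7 : ε * C₃ * (2 / Real.sqrt ρ) = ε * (2 * C₃ * Real.sqrt ρ) * (1 / ρ) := by
        nth_rewrite 3 [← hs2]
        field_simp
      rw [h7]; gcongr
    have h8 : ε * Real.exp (-1) / 4 * (1 / ρ) = 2 * (ε * q₀ * (1 / ρ)) := by rw [hq₀]; ring
    have h9 : ε * q₀ / 2 / ρ = ε * (q₀ / 2) * (1 / ρ) := by ring
    rw [h9]
    have h10 : ε * q₀ * (1 / ρ) = 2 * (ε * (q₀ / 2) * (1 / ρ)) := by ring
    rw [h8] at hmain
    linarith
  · have h1 : usol T v x t ≤ ‖∫ k : ℝ, v k ρ * Complex.exp (Complex.I * k * x)‖ := by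
      unfold usol fa U
      simp only [pow_zero, one_mul]
      exact Complex.re_le_norm _
    have h2 := norm_integral_le_of_norm_le (hmi.1.const_mul (3 * (ε * C₂)))
      (f := fun k : ℝ => v k ρ * Complex.exp (Complex.I * k * x)) (Eventually.of_forall fun k => by
        rw [norm_mul, norm_exp_I, mul_one]
        refine (hvc.bd k (real_mem_strip k) ρ hρ).trans (le_of_eq ?_)
        rw [hWm, XX_real]; unfold ew; ring)
    rw [integral_const_mul] at h2
    have h3 : 3 * (ε * C₂) * (8 / Real.sqrt ρ ^ 2) ≤ c₂ / ρ := by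
      rw [hs2, hc₂]
      rw [show 3 * (ε * C₂) * (8 / ρ) = (3 * (ε * C₂) * 8) / ρ by ring]
      gcongr
      linarith
    exact h1.trans (h2.trans ((mul_le_mul_of_nonneg_left hmi.2 (by positivity)).trans h3))

end final

end Pool.Agent.R206.Bous
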