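import Pool.Agent.R206.Bous.Sch

/-! Data, existence of frequency space solutions. -/

namespace Pool.Agent.R206.Bous

open MeasureTheory Set Filter Topology

section data

variable {R : ℝ}

/-- the profile `ε g(k) exp(-k^2 ρ)` -/
noncomputable def F0 (ε : ℝ) (g : ℂ → ℂ) (k : ℂ) (ρ : ℝ) : ℂ := ε * g k * Complex.exp (-(k ^ 2) * ρ)

lemma gauss_bd {k : ℂ} (hk : k ∈ strip) {ρ : ℝ} (hρ : ρ ∈ Ioo 0 R) :
    ‖Complex.exp (-(k ^ 2) * ρ)‖ ≤ Real.exp (R + Real.sqrt R + 1) * ew ρ (XX k) := by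
  rw [Complex.norm_exp]
  unfold ew
  rw [← Real.exp_add]
  apply Real.exp_le_exp.2
  have hs := Real.sqrt_nonneg ρ
  have hs2 : Real.sqrt ρ ^ 2 = ρ := Real.sq_sqrt hρ.1.le
  have hsR : Real.sqrt ρ ≤ Real.sqrt R := Real.sqrt_le_sqrt hρ.2.le
  have e : (-(k ^ 2) * (ρ : ℂ)).re = -(k.re ^ 2 - k.im ^ 2) * ρ := by
    rw [Complex.re_mul_ofReal, Complex.neg_re, pow_two, Complex.mul_re]; ring
  rw [e]
  have him : k.im ^ 2 ≤ 1 := by
    have h : |k.im| < 1 := hk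
    have := abs_lt.1 h
    nlinarith [this.1, this.2]
  have hX : XX k = 1 + |k.re| := rfl
  rw [hX, ← sq_abs k.re]
  set x := |k.re|
  have h1 : k.im ^ 2 * ρ ≤ R := by
    have := mul_le_mul_of_nonneg_right him hρ.1.le
    linarith [hρ.2]
  have h2 : x ^ 2 * ρ = (x * Real.sqrt ρ) ^ 2 := by rw [mul_pow, hs2]
  nlinarith [sq_nonneg (x * Real.sqrt ρ - 1 / 2)]

lemma F0_cls (W : WData R) {g : ℂ → ℂ} {Cg ε : ℝ} (hε : 0 ≤ ε) (hg : DifferentiableOn ℂ g strip)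
    (hgb : ∀ k ∈ strip, ‖g k‖ ≤ Cg * W.m (XX k))
    (hgs : ∀ k ∈ strip, g (-(starRingEnd ℂ k)) = starRingEnd ℂ (g k)) :
    Cls R (fun X _ => (ε * (Cg * Real.exp (R + Real.sqrt R + 1))) * W.m X) (F0 ε g) where
  cont k hk := by unfold F0; fun_prop
  hol ρ hρ := by
    unfold F0
    exact ((differentiableOn_const _).mul hg).mul (by fun_prop)
  bd k hk ρ hρ := by
    unfold F0
    rw [norm_mul, norm_mul, Complex.norm_real, Real.norm_eq_abs, abs_of_nonneg hε]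
    have h1 := hgb k hk
    have h2 := gauss_bd hk hρ
    have h3 : 0 ≤ Cg * W.m (XX k) := (norm_nonneg _).trans h1
    calc ε * ‖g k‖ * ‖Complex.exp (-(k ^ 2) * ρ)‖
        ≤ ε * (Cg * W.m (XX k)) * (Real.exp (R + Real.sqrt R + 1) * ew ρ (XX k)) := by gcongr
      _ = _ := by ring
  sym k hk ρ hρ := by
    unfold F0
    rw [map_mul, map_mul, hgs k hk, Complex.conj_ofReal, ← Complex.exp_conj, map_mul, map_neg, map_pow,
      Complex.conj_ofReal]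
    congr 3
    ring

lemma cls_m_le_κ {W : WData R} {M : ℝ} (hM : 0 ≤ M) {v : ℂ → ℝ → ℂ} (h : Cls R (fun X _ => M * W.m X) v) :
    Cls R (fun X r => M * W.κ X r) v :=
  h.mono fun X ρ hX hρ => mul_le_mul_of_nonneg_left (W.m_le_κ X ρ hX hρ) hM

end data

/-- structure of the solutions produced from data -/
structure DSol {T : ℝ} (W : WData (T + 1)) (B C₀ : ℝ) (g : ℂ → ℂ) (ε : ℝ) (v v' : ℂ → ℝ → ℂ) : Prop where
  kb : KB W B
  C₀_nonneg : 0 ≤ C₀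
  ε_pos : 0 < ε
  f0 : Cls (T + 1) (fun X _ => (ε * C₀) * W.m X) (F0 ε g)
  fsol : FSol W (3 * (ε * (C₀ * (1 + B * Real.exp 1 * W.A)))) v v'
  fix : ∀ k ∈ strip, ∀ ρ ∈ Ioo 0 (T + 1), v k ρ = F0 ε g k ρ + GG (T + 1) (F0 ε g) k ρ + GG (T + 1) (cv v v) k ρ

theorem exists_dsol {T : ℝ} (W : WData (T + 1)) {g : ℂ → ℂ} {Cg : ℝ} (hCg : 0 ≤ Cg)
    (hg : DifferentiableOn ℂ g strip) (hgb : ∀ k ∈ strip, ‖g k‖ ≤ Cg * W.m (XX k))
    (hgs : ∀ k ∈ strip, g (-(starRingEnd ℂ k)) = starRingEnd ℂ (g k)) :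
    ∃ B C₀ ε₀ : ℝ, 0 < ε₀ ∧ ∀ ε, 0 < ε → ε ≤ ε₀ → ∃ v v', DSol W B C₀ g ε v v' := by
  obtain ⟨B, hB⟩ := exists_KB W
  set C₀ := Cg * Real.exp (T + 1 + Real.sqrt (T + 1) + 1) with hC₀
  have hC₀0 : 0 ≤ C₀ := by positivity
  have hB0 := hB.pos
  have hA0 := W.A_pos
  set Bc := B * Real.exp 1 * W.A with hBc
  have hBc0 : 0 < Bc := by positivity
  refine ⟨B, C₀, 1 / (8 * Bc * (C₀ * (1 + Bc)) + 1), by positivity, fun ε hε hεle => ?_⟩
  have hf0 := F0_cls W hε.le hg hgb hgs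
  rw [← hC₀] at hf0
  have hM0 : 0 ≤ ε * C₀ := by positivity
  have hGf0 := Cls.green hB hM0 (cls_m_le_κ hM0 hf0)
  have hF : Cls (T + 1) (fun X _ => (ε * (C₀ * (1 + Bc))) * W.m X) (fun k ρ => F0 ε g k ρ + GG (T + 1) (F0 ε g) k ρ) := by
    refine (hf0.add hGf0).mono fun X ρ hX _ => le_of_eq ?_
    rw [← hBc]; ring
  have hsmall : 8 * (B * Real.exp 1 * W.A) * (ε * (C₀ * (1 + Bc))) ≤ 1 := by
    rw [← hBc]
    have h1 : ε * (8 * Bc * (C₀ * (1 + Bc)) + 1) ≤ 1 := by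
      rw [le_div_iff₀ (by positivity)] at hεle
      exact hεle
    nlinarith
  have hMM : 0 ≤ ε * (C₀ * (1 + Bc)) := by positivity
  set F : ℂ → ℝ → ℂ := fun k ρ => F0 ε g k ρ + GG (T + 1) (F0 ε g) k ρ with hFdef
  set v := picL (T + 1) F with hv
  have hvc := picL_cls hB hMM hsmall hF
  rw [← hv] at hvc
  have hfix : ∀ k ∈ strip, ∀ ρ ∈ Ioo 0 (T + 1), v k ρ = F0 ε g k ρ + GG (T + 1) (F0 ε g) k ρ + GG (T + 1) (cv v v) k ρ :=
    fun k hk ρ hρ => picL_fix hB hMM hsmall hF hk hρ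
  have hcv := Cls.conv W (by positivity) (by positivity) hvc hvc
  have hAcv := W.adm_mul (3 * (ε * (C₀ * (1 + Bc))) * (3 * (ε * (C₀ * (1 + Bc))))) (by positivity)
  have hAf0 := W.adm_mul (ε * C₀) hM0
  have hf0κ := cls_m_le_κ hM0 hf0
  have hF0d : ∀ (k : ℂ) (ρ : ℝ), HasDerivAt (F0 ε g k) (-(k ^ 2) * F0 ε g k ρ) ρ := by
    intro k ρ
    have e1 : HasDerivAt (fun x : ℝ => -(k ^ 2) * (x : ℂ)) (-(k ^ 2) * 1) ρ :=
      (hasDerivAt_id ρ).ofReal_comp.const_mul _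
    exact (e1.cexp.const_mul (ε * g k)).congr_deriv (by unfold F0; ring)
  refine ⟨v, fun k ρ => -(k ^ 2) * F0 ε g k ρ + GG' (T + 1) (F0 ε g) k ρ + GG' (T + 1) (cv v v) k ρ,
    hB, hC₀0, hε, hf0, ⟨by positivity, hvc, ?_, ?_⟩, hfix⟩
  · intro k hk ρ hρ
    have h1 := ((hF0d k ρ).add (hasDerivAt_GG hf0κ hAf0 hk hρ)).add (hasDerivAt_GG hcv hAcv hk hρ)
    refine h1.congr_of_eventuallyEq ?_
    filter_upwards [isOpen_Ioo.mem_nhds hρ] with s hs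
    exact hfix k hk s hs
  · intro k hk ρ hρ
    have h1 := (((hF0d k ρ).const_mul (-(k ^ 2))).add (hasDerivAt_GG' hf0κ hAf0 hk hρ)).add
      (hasDerivAt_GG' hcv hAcv hk hρ)
    refine h1.congr_deriv ?_
    rw [hfix k hk ρ hρ]
    unfold zz
    ring

/-! ### The profile `(4 + k^2)^s` -/

noncomputable def aa (s : ℝ) (k : ℂ) : ℂ := (4 + k ^ 2) ^ (s : ℂ)

lemma base_re {k : ℂ} (hk : k ∈ strip) : 3 + k.re ^ 2 ≤ (4 + k ^ 2 : ℂ).re := by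
  have him : k.im ^ 2 ≤ 1 := by
    have h : |k.im| < 1 := hk
    have := abs_lt.1 h
    nlinarith [this.1, this.2]
  have : (4 + k ^ 2 : ℂ).re = 4 + k.re ^ 2 - k.im ^ 2 := by
    simp [pow_two]; ring
  rw [this]; linarith

lemma base_slit {k : ℂ} (hk : k ∈ strip) : (4 + k ^ 2 : ℂ) ∈ Complex.slitPlane := by
  left
  have := base_re hk
  nlinarith [sq_nonneg k.re]

lemma aa_hol (s : ℝ) : DifferentiableOn ℂ (aa s) strip := by
  unfold aa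
  exact DifferentiableOn.cpow (by fun_prop) (differentiableOn_const _) (fun k hk => base_slit hk)

lemma aa_sym (s : ℝ) {k : ℂ} (hk : k ∈ strip) : aa s (-(starRingEnd ℂ k)) = starRingEnd ℂ (aa s k) := by
  unfold aa
  have h := Complex.conj_cpow (4 + k ^ 2) (s : ℂ) (Complex.slitPlane_arg_ne_pi (base_slit hk))
  rw [Complex.conj_ofReal] at h
  rw [← h]
  congr 1
  rw [map_add, map_pow, map_ofNat, neg_sq]

lemma norm_base_le {k : ℂ} (hk : k ∈ strip) : ‖(4 + k ^ 2 : ℂ)‖ ≤ (3 * XX k) ^ 2 := by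
  have h1 := norm_sq_le_strip hk
  have h2 : ‖(4 + k ^ 2 : ℂ)‖ ≤ 4 + ‖k‖ ^ 2 := by
    refine (norm_add_le _ _).trans ?_
    rw [norm_pow]; simp
  have hX : XX k = 1 + |k.re| := rfl
  rw [hX]
  have h3 : k.re ^ 2 = |k.re| ^ 2 := (sq_abs _).symm
  rw [h3] at h1
  nlinarith [abs_nonneg k.re]

lemma norm_base_ge {k : ℂ} (hk : k ∈ strip) : (XX k) ^ 2 / 2 ≤ ‖(4 + k ^ 2 : ℂ)‖ := by
  have h1 := base_re hk
  have h2 := (Complex.re_le_norm (4 + k ^ 2 : ℂ))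
  have hX : XX k = 1 + |k.re| := rfl
  rw [hX]
  have h3 : k.re ^ 2 = |k.re| ^ 2 := (sq_abs _).symm
  rw [h3] at h1
  nlinarith [sq_nonneg (|k.re| - 1), abs_nonneg k.re]

lemma norm_aa (s : ℝ) (k : ℂ) : ‖aa s k‖ = ‖(4 + k ^ 2 : ℂ)‖ ^ s := by
  unfold aa
  rw [Complex.norm_cpow_real]

lemma aa_real (s k : ℝ) : aa s (k : ℂ) = (((4 + k ^ 2) ^ s : ℝ) : ℂ) := by
  unfold aa
  rw [Complex.ofReal_cpow (by positivity)]
  congr 1
  push_cast; rfl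

end Pool.Agent.R206.Bous
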