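import Pool.Agent.R206.Bous.Kern

/-! Function classes, convolution, the Green operator. -/

namespace Pool.Agent.R206.Bous

open MeasureTheory Set Filter Topology Complex

/-- weight of a class: `exp (-(√ρ X))` -/
noncomputable def ew (ρ X : ℝ) : ℝ := Real.exp (-(Real.sqrt ρ * X))

lemma ew_pos (ρ X : ℝ) : 0 < ew ρ X := Real.exp_pos _

lemma ew_anti {ρ₀ ρ X : ℝ} (h : ρ₀ ≤ ρ) (hX : 0 ≤ X) : ew ρ X ≤ ew ρ₀ X := by
  unfold ew
  apply Real.exp_le_exp.2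
  have := mul_le_mul_of_nonneg_right (Real.sqrt_le_sqrt h) hX
  linarith

/-- frequency functions holomorphic in the strip, continuous in `ρ`, with bound `b` -/
structure Cls (R : ℝ) (b : ℝ → ℝ → ℝ) (v : ℂ → ℝ → ℂ) : Prop where
  cont : ∀ k ∈ strip, ContinuousOn (v k) (Ioo 0 R)
  hol : ∀ ρ ∈ Ioo 0 R, DifferentiableOn ℂ (fun k => v k ρ) strip
  bd : ∀ k ∈ strip, ∀ ρ ∈ Ioo 0 R, ‖v k ρ‖ ≤ b (XX k) ρ * ew ρ (XX k)
  sym : ∀ k ∈ strip, ∀ ρ ∈ Ioo 0 R, v (-(starRingEnd ℂ k)) ρ = starRingEnd ℂ (v k ρ)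

variable {R : ℝ}

lemma Cls.add {b₁ b₂ : ℝ → ℝ → ℝ} {v w : ℂ → ℝ → ℂ} (hv : Cls R b₁ v) (hw : Cls R b₂ w) :
    Cls R (fun X ρ => b₁ X ρ + b₂ X ρ) (fun k ρ => v k ρ + w k ρ) where
  cont k hk := (hv.cont k hk).add (hw.cont k hk)
  hol ρ hρ := (hv.hol ρ hρ).add (hw.hol ρ hρ)
  bd k hk ρ hρ := by
    rw [add_mul]
    exact (norm_add_le _ _).trans (add_le_add (hv.bd k hk ρ hρ) (hw.bd k hk ρ hρ))
  sym k hk ρ hρ := by simp only [map_add, hv.sym k hk ρ hρ, hw.sym k hk ρ hρ]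

lemma Cls.sub {b₁ b₂ : ℝ → ℝ → ℝ} {v w : ℂ → ℝ → ℂ} (hv : Cls R b₁ v) (hw : Cls R b₂ w) :
    Cls R (fun X ρ => b₁ X ρ + b₂ X ρ) (fun k ρ => v k ρ - w k ρ) where
  cont k hk := (hv.cont k hk).sub (hw.cont k hk)
  hol ρ hρ := (hv.hol ρ hρ).sub (hw.hol ρ hρ)
  bd k hk ρ hρ := by
    rw [add_mul]
    exact (norm_sub_le _ _).trans (add_le_add (hv.bd k hk ρ hρ) (hw.bd k hk ρ hρ))
  sym k hk ρ hρ := by simp only [map_sub, hv.sym k hk ρ hρ, hw.sym k hk ρ hρ]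

lemma Cls.mono {b₁ b₂ : ℝ → ℝ → ℝ} {v : ℂ → ℝ → ℂ} (hv : Cls R b₁ v)
    (h : ∀ X ρ, 1 ≤ X → ρ ∈ Ioo 0 R → b₁ X ρ ≤ b₂ X ρ) : Cls R b₂ v where
  cont := hv.cont
  hol := hv.hol
  bd k hk ρ hρ := (hv.bd k hk ρ hρ).trans
    (mul_le_mul_of_nonneg_right (h _ _ (one_le_XX k) hρ) (ew_pos _ _).le)
  sym := hv.sym

/-- admissible growth in `r` -/
def Adm (R : ℝ) (b : ℝ → ℝ → ℝ) : Prop :=
  ∀ K : ℝ, ∃ g : ℝ → ℝ, IntegrableOn g (Ioo 0 R) ∧ ∀ X r, 1 ≤ X → X ≤ K → r ∈ Ioo 0 R →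
    r * b X r ≤ g r

lemma norm_root_le {w z : ℂ} (h : w ^ 2 = z) : w.re ≤ 1 + ‖z‖ := by
  have h1 : ‖w‖ ^ 2 = ‖z‖ := by rw [← h, norm_pow]
  have h2 := Complex.re_le_norm w
  nlinarith [sq_nonneg (‖w‖ - 1), norm_nonneg w]

lemma exists_root' (z : ℂ) : ∃ w : ℂ, w ^ 2 = z ∧ 0 ≤ w.re := by
  obtain ⟨w, hw⟩ := exists_root z
  rcases le_total 0 w.re with h | h
  · exact ⟨w, hw, h⟩
  · exact ⟨-w, by rw [← hw]; ring, by simpa using h⟩

lemma norm_CC_le' (z : ℂ) {Z s : ℝ} (hz : ‖z‖ ≤ Z) (hs : 0 ≤ s) :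
    ‖CC z s‖ ≤ Real.exp ((1 + Z) * s) := by
  obtain ⟨w, hw, hre⟩ := exists_root' z
  have h1 := norm_root_le hw
  rw [← hw]
  refine (norm_CC_le hre hs).trans (Real.exp_le_exp.2 ?_)
  exact mul_le_mul_of_nonneg_right (by linarith) hs

lemma norm_SS_le' (z : ℂ) {Z s : ℝ} (hz : ‖z‖ ≤ Z) (hs : 0 ≤ s) :
    ‖SS z s‖ ≤ s * Real.exp ((1 + Z) * s) := by
  obtain ⟨w, hw, hre⟩ := exists_root' z
  have h1 := norm_root_le hw
  rw [← hw]
  refine (norm_SS_le hre hs).trans (mul_le_mul_of_nonneg_left (Real.exp_le_exp.2 ?_) hs)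
  exact mul_le_mul_of_nonneg_right (by linarith) hs

lemma norm_DD_le' (z : ℂ) {Z s : ℝ} (hz : ‖z‖ ≤ Z) (hs : 0 ≤ s) :
    ‖DD z s‖ ≤ Real.exp ((1 + Z) * s) + Z * (2 * Real.exp Z) * (s * Real.exp ((1 + Z) * s)) := by
  unfold DD
  refine (norm_sub_le _ _).trans (add_le_add (norm_CC_le' z hz hs) ?_)
  rw [norm_mul, norm_mul]
  have hE : ‖EE z‖ ≤ 2 * Real.exp Z := (norm_EE_le _).trans (by gcongr)
  have hSb := norm_SS_le' z hz hs
  have hZ : 0 ≤ Z := (norm_nonneg _).trans hz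
  gcongr

lemma CC_conj (z : ℂ) (s : ℝ) : CC (starRingEnd ℂ z) s = starRingEnd ℂ (CC z s) := by
  unfold CC; rw [← cf_conj]; simp

lemma SS_conj (z : ℂ) (s : ℝ) : SS (starRingEnd ℂ z) s = starRingEnd ℂ (SS z s) := by
  unfold SS; rw [map_mul, ← sf_conj]; simp

lemma DD_conj (z : ℂ) (s : ℝ) : DD (starRingEnd ℂ z) s = starRingEnd ℂ (DD z s) := by
  unfold DD; rw [CC_conj, SS_conj, EE_conj]; simp

lemma zz_conj (k : ℂ) : zz (-(starRingEnd ℂ k)) = starRingEnd ℂ (zz k) := by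
  unfold zz
  rw [map_sub, map_pow, map_pow]
  ring

lemma CC_hol (s : ℝ) : Differentiable ℂ (fun z => CC z s) := by
  unfold CC; exact cf_differentiable.comp (by fun_prop)

lemma SS_hol (s : ℝ) : Differentiable ℂ (fun z => SS z s) := by
  unfold SS; exact (sf_differentiable.comp (by fun_prop)).const_mul _

lemma DD_hol (s : ℝ) : Differentiable ℂ (fun z => DD z s) := by
  unfold DD; exact (CC_hol s).sub ((differentiable_id.mul EE_differentiable).mul (SS_hol s))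

lemma zz_hol : Differentiable ℂ zz := by unfold zz; fun_prop

lemma CC_cont (z : ℂ) : Continuous (CC z) :=
  continuous_iff_continuousAt.2 fun s => (hasDerivAt_CC z s).continuousAt
lemma SS_cont (z : ℂ) : Continuous (SS z) :=
  continuous_iff_continuousAt.2 fun s => (hasDerivAt_SS z s).continuousAt
lemma DD_cont (z : ℂ) : Continuous (DD z) :=
  continuous_iff_continuousAt.2 fun s => (hasDerivAt_DD z s).continuousAt

/-- integrals -/
noncomputable def I1 (N : ℂ → ℝ → ℂ) (k : ℂ) (ρ : ℝ) : ℂ := ∫ r in Ioo 0 ρ, SS (zz k) r * N k r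
noncomputable def I2 (R : ℝ) (N : ℂ → ℝ → ℂ) (k : ℂ) (ρ : ℝ) : ℂ :=
  ∫ r in Ioo ρ R, DD (zz k) r * N k r

/-- the Green operator -/
noncomputable def GG (R : ℝ) (N : ℂ → ℝ → ℂ) (k : ℂ) (ρ : ℝ) : ℂ :=
  k ^ 2 * (DD (zz k) ρ * I1 N k ρ + SS (zz k) ρ * I2 R N k ρ)

noncomputable def GG' (R : ℝ) (N : ℂ → ℝ → ℂ) (k : ℂ) (ρ : ℝ) : ℂ :=
  k ^ 2 * ((zz k * SS (zz k) ρ - zz k * EE (zz k) * CC (zz k) ρ) * I1 N k ρ +
    CC (zz k) ρ * I2 R N k ρ)

lemma hasDerivAt_setInt_left {f : ℝ → ℂ} {ρ R : ℝ} (hρ : ρ ∈ Ioo 0 R)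
    (hf : IntegrableOn f (Ioo 0 ρ)) (hc : ContinuousOn f (Ioo 0 R)) :
    HasDerivAt (fun s => ∫ r in Ioo 0 s, f r) (f ρ) ρ := by
  have h1 : IntervalIntegrable f volume 0 ρ := by
    rw [intervalIntegrable_iff_integrableOn_Ioo_of_le hρ.1.le]; exact hf
  have h2 := intervalIntegral.integral_hasDerivAt_right h1
    (hc.stronglyMeasurableAtFilter isOpen_Ioo ρ hρ) (hc.continuousAt (isOpen_Ioo.mem_nhds hρ))
  refine h2.congr_of_eventuallyEq ?_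
  filter_upwards [isOpen_Ioo.mem_nhds hρ] with s hs
  rw [intervalIntegral.integral_of_le hs.1.le, integral_Ioc_eq_integral_Ioo]

lemma hasDerivAt_setInt_right {f : ℝ → ℂ} {ρ R : ℝ} (hρ : ρ ∈ Ioo 0 R)
    (hf : IntegrableOn f (Ioo ρ R)) (hc : ContinuousOn f (Ioo 0 R)) :
    HasDerivAt (fun s => ∫ r in Ioo s R, f r) (-f ρ) ρ := by
  have h1 : IntervalIntegrable f volume ρ R := by
    rw [intervalIntegrable_iff_integrableOn_Ioo_of_le hρ.2.le]; exact hf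
  have h2 := intervalIntegral.integral_hasDerivAt_left h1
    (hc.stronglyMeasurableAtFilter isOpen_Ioo ρ hρ) (hc.continuousAt (isOpen_Ioo.mem_nhds hρ))
  refine h2.congr_of_eventuallyEq ?_
  filter_upwards [isOpen_Ioo.mem_nhds hρ] with s hs
  rw [intervalIntegral.integral_of_le hs.2.le, integral_Ioc_eq_integral_Ioo]

section green

variable {b : ℝ → ℝ → ℝ} {N : ℂ → ℝ → ℂ}

lemma Cls.bd' (hN : Cls R b N) {k : ℂ} (hk : k ∈ strip) {r : ℝ} (hr : r ∈ Ioo 0 R) :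
    r * ‖N k r‖ ≤ r * b (XX k) r := by
  have h1 := hN.bd k hk r hr
  have h2 : ew r (XX k) ≤ 1 := by
    unfold ew
    rw [Real.exp_le_one_iff]
    have := one_le_XX k
    have := mul_nonneg (Real.sqrt_nonneg r) (by linarith : (0 : ℝ) ≤ XX k)
    linarith
  have h3 : 0 ≤ b (XX k) r := by
    by_contra hneg
    push Not at hneg
    have : b (XX k) r * ew r (XX k) < 0 := mul_neg_of_neg_of_pos hneg (ew_pos _ _)
    linarith [norm_nonneg (N k r)]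
  have h4 : b (XX k) r * ew r (XX k) ≤ b (XX k) r := mul_le_of_le_one_right h3 h2
  exact mul_le_mul_of_nonneg_left (h1.trans h4) hr.1.le

/-- pointwise dominating bounds -/
lemma dom1 (hN : Cls R b N) {K Z : ℝ} {g : ℝ → ℝ}
    (hg : ∀ X r, 1 ≤ X → X ≤ K → r ∈ Ioo 0 R → r * b X r ≤ g r)
    {k : ℂ} (hk : k ∈ strip) (hK : XX k ≤ K) (hZ : ‖zz k‖ ≤ Z) {r : ℝ} (hr : r ∈ Ioo 0 R) :
    ‖SS (zz k) r * N k r‖ ≤ Real.exp ((1 + Z) * R) * g r := by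
  have hZ0 : 0 ≤ Z := (norm_nonneg _).trans hZ
  rw [norm_mul]
  have h1 : ‖SS (zz k) r‖ ≤ r * Real.exp ((1 + Z) * R) := by
    refine (norm_SS_le' _ hZ hr.1.le).trans (mul_le_mul_of_nonneg_left (Real.exp_le_exp.2 ?_) hr.1.le)
    exact mul_le_mul_of_nonneg_left hr.2.le (by linarith)
  have h2 := (hN.bd' hk hr).trans (hg _ r (one_le_XX k) hK hr)
  have h3 := mul_le_mul_of_nonneg_right h1 (norm_nonneg (N k r))
  have h4 := mul_le_mul_of_nonneg_left h2 (Real.exp_pos ((1 + Z) * R)).le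
  nlinarith

lemma dom2 (hN : Cls R b N) {K Z : ℝ} {g : ℝ → ℝ}
    (hg : ∀ X r, 1 ≤ X → X ≤ K → r ∈ Ioo 0 R → r * b X r ≤ g r)
    {k : ℂ} (hk : k ∈ strip) (hK : XX k ≤ K) (hZ : ‖zz k‖ ≤ Z) {ρ r : ℝ} (hρ : 0 < ρ) (hρr : ρ < r)
    (hr : r ∈ Ioo 0 R) :
    ‖DD (zz k) r * N k r‖ ≤ (Real.exp ((1 + Z) * R) + Z * (2 * Real.exp Z) * (R * Real.exp ((1 + Z) * R))) / ρ * g r := by
  have hZ0 : 0 ≤ Z := (norm_nonneg _).trans hZ
  rw [norm_mul]
  have h1 : ‖DD (zz k) r‖ ≤ Real.exp ((1 + Z) * R) + Z * (2 * Real.exp Z) * (R * Real.exp ((1 + Z) * R)) := by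
    refine (norm_DD_le' _ hZ hr.1.le).trans ?_
    have e1 := hr.2.le
    have e2 := hr.1.le
    have e3 : 0 ≤ R := e2.trans e1
    gcongr
  have h2 := (hN.bd' hk hr).trans (hg _ r (one_le_XX k) hK hr)
  have h5 : ‖N k r‖ ≤ g r / ρ := by
    rw [le_div_iff₀ hρ]
    nlinarith [norm_nonneg (N k r)]
  have hR0 : 0 ≤ R := hr.1.le.trans hr.2.le
  have h3 := mul_le_mul h1 h5 (norm_nonneg (N k r)) (by positivity)
  refine h3.trans (le_of_eq (by ring))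

lemma int1 (hN : Cls R b N) (hA : Adm R b) {k : ℂ} (hk : k ∈ strip) :
    IntegrableOn (fun r => SS (zz k) r * N k r) (Ioo 0 R) := by
  obtain ⟨g, hgi, hg⟩ := hA (XX k)
  refine Integrable.mono' (hgi.const_mul (Real.exp ((1 + ‖zz k‖) * R))) ?_ ?_
  · exact (((SS_cont _).continuousOn).mul (hN.cont k hk)).aestronglyMeasurable measurableSet_Ioo
  · exact (ae_restrict_iff' measurableSet_Ioo).2 (Eventually.of_forall fun r hr =>
      dom1 hN hg hk le_rfl le_rfl hr)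

lemma int2 (hN : Cls R b N) (hA : Adm R b) {k : ℂ} (hk : k ∈ strip) {ρ : ℝ} (hρ : 0 < ρ) :
    IntegrableOn (fun r => DD (zz k) r * N k r) (Ioo ρ R) := by
  obtain ⟨g, hgi, hg⟩ := hA (XX k)
  have hsub : Ioo ρ R ⊆ Ioo 0 R := Ioo_subset_Ioo_left hρ.le
  refine Integrable.mono' ((hgi.mono_set hsub).const_mul
    ((Real.exp ((1 + ‖zz k‖) * R) + ‖zz k‖ * (2 * Real.exp ‖zz k‖) * (R * Real.exp ((1 + ‖zz k‖) * R))) / ρ)) ?_ ?_
  · exact ((((DD_cont _).continuousOn).mul (hN.cont k hk)).mono hsub).aestronglyMeasurable measurableSet_Ioo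
  · exact (ae_restrict_iff' measurableSet_Ioo).2 (Eventually.of_forall fun r hr =>
      dom2 hN hg hk le_rfl le_rfl hρ hr.1 (hsub hr))

lemma hasDerivAt_GG (hN : Cls R b N) (hA : Adm R b) {k : ℂ} (hk : k ∈ strip) {ρ : ℝ}
    (hρ : ρ ∈ Ioo 0 R) : HasDerivAt (GG R N k) (GG' R N k ρ) ρ := by
  have h1 := hasDerivAt_setInt_left hρ
    ((int1 hN hA hk).mono_set (Ioo_subset_Ioo_right hρ.2.le))
    (((SS_cont (zz k)).continuousOn).mul (hN.cont k hk))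
  have h2 := hasDerivAt_setInt_right hρ (int2 hN hA hk hρ.1)
    (((DD_cont (zz k)).continuousOn).mul (hN.cont k hk))
  have h3 := (((hasDerivAt_DD (zz k) ρ).mul h1).add ((hasDerivAt_SS (zz k) ρ).mul h2)).const_mul (k ^ 2)
  refine h3.congr_deriv ?_
  unfold GG' I1 I2
  ring

lemma hasDerivAt_GG' (hN : Cls R b N) (hA : Adm R b) {k : ℂ} (hk : k ∈ strip) {ρ : ℝ}
    (hρ : ρ ∈ Ioo 0 R) : HasDerivAt (GG' R N k) (zz k * GG R N k ρ - k ^ 2 * N k ρ) ρ := by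
  have h1 := hasDerivAt_setInt_left hρ
    ((int1 hN hA hk).mono_set (Ioo_subset_Ioo_right hρ.2.le))
    (((SS_cont (zz k)).continuousOn).mul (hN.cont k hk))
  have h2 := hasDerivAt_setInt_right hρ (int2 hN hA hk hρ.1)
    (((DD_cont (zz k)).continuousOn).mul (hN.cont k hk))
  have h3 := (((hasDerivAt_DD' (zz k) ρ).mul h1).add ((hasDerivAt_CC (zz k) ρ).mul h2)).const_mul (k ^ 2)
  refine h3.congr_deriv ?_
  have hw := wronskian (zz k) ρ
  unfold GG I1 I2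
  linear_combination (-(k ^ 2) * N k ρ) * hw

lemma GG_cont (hN : Cls R b N) (hA : Adm R b) {k : ℂ} (hk : k ∈ strip) :
    ContinuousOn (GG R N k) (Ioo 0 R) := fun _ hρ =>
  (hasDerivAt_GG hN hA hk hρ).continuousAt.continuousWithinAt

lemma GG_hol (hN : Cls R b N) (hA : Adm R b) {ρ : ℝ} (hρ : ρ ∈ Ioo 0 R) :
    DifferentiableOn ℂ (fun k => GG R N k ρ) strip := by
  intro k₀ hk₀
  set U : Set ℂ := strip ∩ Metric.ball 0 (‖k₀‖ + 1) with hU
  have hUo : IsOpen U := strip_open.inter Metric.isOpen_ball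
  have hkU : k₀ ∈ U := ⟨hk₀, by simp⟩
  set Kn : ℝ := ‖k₀‖ + 1 with hKn
  set K : ℝ := 1 + Kn with hK
  set Z : ℝ := Kn ^ 4 + Kn ^ 2 with hZ
  have hUK : ∀ k ∈ U, XX k ≤ K ∧ ‖zz k‖ ≤ Z := by
    intro k hk
    have h1 : ‖k‖ ≤ Kn := by
      have := Metric.mem_ball.1 hk.2; rw [dist_zero_right] at this; exact this.le
    constructor
    · unfold XX; have := Complex.abs_re_le_norm k; linarith
    · unfold zz
      refine (norm_sub_le _ _).trans ?_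
      rw [norm_pow, norm_pow, hZ]
      exact add_le_add (pow_le_pow_left₀ (norm_nonneg _) h1 4) (pow_le_pow_left₀ (norm_nonneg _) h1 2)
  obtain ⟨g, hgi, hg⟩ := hA K
  have hsub1 : Ioo 0 ρ ⊆ Ioo 0 R := Ioo_subset_Ioo_right hρ.2.le
  have hsub2 : Ioo ρ R ⊆ Ioo 0 R := Ioo_subset_Ioo_left hρ.1.le
  have e1 : DifferentiableOn ℂ (fun k => I1 N k ρ) U := by
    refine holInt (μ := volume.restrict (Ioo 0 ρ)) hUo
      ((hgi.mono_set hsub1).const_mul (Real.exp ((1 + Z) * R))) ?_ ?_ ?_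
    · intro k hk
      exact ((((SS_cont _).continuousOn).mul (hN.cont k hk.1)).mono hsub1).aestronglyMeasurable measurableSet_Ioo
    · exact (ae_restrict_iff' measurableSet_Ioo).2 (Eventually.of_forall fun r hr k hk =>
        dom1 hN hg hk.1 (hUK k hk).1 (hUK k hk).2 (hsub1 hr))
    · exact (ae_restrict_iff' measurableSet_Ioo).2 (Eventually.of_forall fun r hr =>
        (((SS_hol r).comp zz_hol).differentiableOn).mul ((hN.hol r (hsub1 hr)).mono inter_subset_left))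
  have e2 : DifferentiableOn ℂ (fun k => I2 R N k ρ) U := by
    refine holInt (μ := volume.restrict (Ioo ρ R)) hUo
      ((hgi.mono_set hsub2).const_mul ((Real.exp ((1 + Z) * R) + Z * (2 * Real.exp Z) * (R * Real.exp ((1 + Z) * R))) / ρ)) ?_ ?_ ?_
    · intro k hk
      exact ((((DD_cont _).continuousOn).mul (hN.cont k hk.1)).mono hsub2).aestronglyMeasurable measurableSet_Ioo
    · exact (ae_restrict_iff' measurableSet_Ioo).2 (Eventually.of_forall fun r hr k hk =>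
        dom2 hN hg hk.1 (hUK k hk).1 (hUK k hk).2 hρ.1 hr.1 (hsub2 hr))
    · exact (ae_restrict_iff' measurableSet_Ioo).2 (Eventually.of_forall fun r hr =>
        (((DD_hol r).comp zz_hol).differentiableOn).mul ((hN.hol r (hsub2 hr)).mono inter_subset_left))
  have e3 : DifferentiableOn ℂ (fun k => GG R N k ρ) U := by
    unfold GG
    refine DifferentiableOn.mul (by fun_prop) (DifferentiableOn.add ?_ ?_)
    · exact (((DD_hol ρ).comp zz_hol).differentiableOn).mul e1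
    · exact (((SS_hol ρ).comp zz_hol).differentiableOn).mul e2
  exact (e3.differentiableAt (hUo.mem_nhds hkU)).differentiableWithinAt

lemma GG_sym (hN : Cls R b N) {k : ℂ} (hk : k ∈ strip) {ρ : ℝ} (hρ : ρ ∈ Ioo 0 R) :
    GG R N (-(starRingEnd ℂ k)) ρ = starRingEnd ℂ (GG R N k ρ) := by
  unfold GG I1 I2
  rw [zz_conj, map_mul, map_add, map_mul, map_mul, ← integral_conj, ← integral_conj, DD_conj, SS_conj,
    map_pow]
  have e0 : (-(starRingEnd ℂ k)) ^ 2 = (starRingEnd ℂ k) ^ 2 := by ring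
  rw [e0]
  have a1 : ∫ r in Ioo 0 ρ, SS (starRingEnd ℂ (zz k)) r * N (-(starRingEnd ℂ k)) r =
      ∫ r in Ioo 0 ρ, starRingEnd ℂ (SS (zz k) r * N k r) := by
    refine setIntegral_congr_fun measurableSet_Ioo fun r hr => ?_
    have hr' : r ∈ Ioo 0 R := ⟨hr.1, hr.2.trans hρ.2⟩
    simp only [map_mul, SS_conj, hN.sym k hk r hr']
  have a2 : ∫ r in Ioo ρ R, DD (starRingEnd ℂ (zz k)) r * N (-(starRingEnd ℂ k)) r =
      ∫ r in Ioo ρ R, starRingEnd ℂ (DD (zz k) r * N k r) := by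
    refine setIntegral_congr_fun measurableSet_Ioo fun r hr => ?_
    have hr' : r ∈ Ioo 0 R := ⟨hρ.1.trans hr.1, hr.2⟩
    simp only [map_mul, DD_conj, hN.sym k hk r hr']
  rw [a1, a2]

lemma GG_sub {b₂ : ℝ → ℝ → ℝ} {N₂ : ℂ → ℝ → ℂ} (hN : Cls R b N) (hA : Adm R b)
    (hN₂ : Cls R b₂ N₂) (hA₂ : Adm R b₂) {k : ℂ} (hk : k ∈ strip) {ρ : ℝ} (hρ : ρ ∈ Ioo 0 R) :
    GG R (fun k ρ => N k ρ - N₂ k ρ) k ρ = GG R N k ρ - GG R N₂ k ρ := by
  have h1 : I1 (fun k ρ => N k ρ - N₂ k ρ) k ρ = I1 N k ρ - I1 N₂ k ρ := by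
    unfold I1
    rw [← integral_sub ((int1 hN hA hk).mono_set (Ioo_subset_Ioo_right hρ.2.le))
      ((int1 hN₂ hA₂ hk).mono_set (Ioo_subset_Ioo_right hρ.2.le))]
    congr 1; funext r; ring
  have h2 : I2 R (fun k ρ => N k ρ - N₂ k ρ) k ρ = I2 R N k ρ - I2 R N₂ k ρ := by
    unfold I2
    rw [← integral_sub (int2 hN hA hk hρ.1) (int2 hN₂ hA₂ hk hρ.1)]
    congr 1; funext r; ring
  unfold GG
  rw [h1, h2]; ring

lemma GG_add {b₂ : ℝ → ℝ → ℝ} {N₂ : ℂ → ℝ → ℂ} (hN : Cls R b N) (hA : Adm R b)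
    (hN₂ : Cls R b₂ N₂) (hA₂ : Adm R b₂) {k : ℂ} (hk : k ∈ strip) {ρ : ℝ} (hρ : ρ ∈ Ioo 0 R) :
    GG R (fun k ρ => N k ρ + N₂ k ρ) k ρ = GG R N k ρ + GG R N₂ k ρ := by
  have h1 : I1 (fun k ρ => N k ρ + N₂ k ρ) k ρ = I1 N k ρ + I1 N₂ k ρ := by
    unfold I1
    rw [← integral_add ((int1 hN hA hk).mono_set (Ioo_subset_Ioo_right hρ.2.le))
      ((int1 hN₂ hA₂ hk).mono_set (Ioo_subset_Ioo_right hρ.2.le))]
    congr 1; funext r; ring
  have h2 : I2 R (fun k ρ => N k ρ + N₂ k ρ) k ρ = I2 R N k ρ + I2 R N₂ k ρ := by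
    unfold I2
    rw [← integral_add (int2 hN hA hk hρ.1) (int2 hN₂ hA₂ hk hρ.1)]
    congr 1; funext r; ring
  unfold GG
  rw [h1, h2]; ring

/-- the basic bound of the Green operator -/
lemma GG_bound {B : ℝ} (hB : 0 < B) (hker : ∀ k ∈ strip, ∀ a b : ℝ, 0 < a → a ≤ b →
    b ≤ R → ‖k ^ 2 * SS (zz k) a * DD (zz k) b‖ ≤
      B * (min 1 (XX k ^ 2 * a) * Real.exp (-(XX k ^ 2 / 2) * (b - a))))
    (N : ℂ → ℝ → ℂ) {k : ℂ} (hk : k ∈ strip) {ρ : ℝ} (hρ : ρ ∈ Ioo 0 R) {q : ℝ → ℝ}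
    (hq : IntegrableOn q (Ioo 0 R))
    (h : ∀ r ∈ Ioo 0 R, B * (min 1 (XX k ^ 2 * r) * Real.exp (-(XX k ^ 2 / 2) * |ρ - r|)) * ‖N k r‖ ≤ q r) :
    ‖GG R N k ρ‖ ≤ ∫ r in Ioo 0 R, q r := by
  have hsub1 : Ioo 0 ρ ⊆ Ioo 0 R := Ioo_subset_Ioo_right hρ.2.le
  have hsub2 : Ioo ρ R ⊆ Ioo 0 R := Ioo_subset_Ioo_left hρ.1.le
  have hX0 : 0 ≤ XX k ^ 2 := sq_nonneg _
  have hq0 : ∀ r ∈ Ioo 0 R, 0 ≤ q r := fun r hr => le_trans (by
    have := hr.1.le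
    positivity) (h r hr)
  have e : GG R N k ρ = (∫ r in Ioo 0 ρ, k ^ 2 * DD (zz k) ρ * (SS (zz k) r * N k r)) +
      ∫ r in Ioo ρ R, k ^ 2 * SS (zz k) ρ * (DD (zz k) r * N k r) := by
    rw [integral_const_mul, integral_const_mul]
    unfold GG I1 I2; ring
  have h1 : ‖∫ r in Ioo 0 ρ, k ^ 2 * DD (zz k) ρ * (SS (zz k) r * N k r)‖ ≤ ∫ r in Ioo 0 ρ, q r := by
    refine norm_integral_le_of_norm_le (hq.mono_set hsub1) ?_
    refine (ae_restrict_iff' measurableSet_Ioo).2 (Eventually.of_forall fun r hr => ?_)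
    refine le_trans ?_ (h r (hsub1 hr))
    rw [show k ^ 2 * DD (zz k) ρ * (SS (zz k) r * N k r) = (k ^ 2 * SS (zz k) r * DD (zz k) ρ) * N k r by ring,
      norm_mul]
    refine mul_le_mul_of_nonneg_right ?_ (norm_nonneg _)
    rw [abs_of_pos (by linarith [hr.2] : 0 < ρ - r)]
    exact hker k hk r ρ hr.1 hr.2.le hρ.2.le
  have h2 : ‖∫ r in Ioo ρ R, k ^ 2 * SS (zz k) ρ * (DD (zz k) r * N k r)‖ ≤ ∫ r in Ioo ρ R, q r := by
    refine norm_integral_le_of_norm_le (hq.mono_set hsub2) ?_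
    refine (ae_restrict_iff' measurableSet_Ioo).2 (Eventually.of_forall fun r hr => ?_)
    refine le_trans ?_ (h r (hsub2 hr))
    rw [show k ^ 2 * SS (zz k) ρ * (DD (zz k) r * N k r) = (k ^ 2 * SS (zz k) ρ * DD (zz k) r) * N k r by ring,
      norm_mul]
    refine mul_le_mul_of_nonneg_right ?_ (norm_nonneg _)
    rw [abs_of_neg (by linarith [hr.1] : ρ - r < 0), neg_sub]
    refine (hker k hk ρ r hρ.1 hr.1.le hr.2.le).trans ?_
    have : XX k ^ 2 * ρ ≤ XX k ^ 2 * r := mul_le_mul_of_nonneg_left hr.1.le hX0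
    gcongr
  rw [e]
  refine (norm_add_le _ _).trans ((add_le_add h1 h2).trans ?_)
  have hdisj : Disjoint (Ioo 0 ρ) (Ioo ρ R) := by
    rw [Set.disjoint_left]; intro r hr hr2; exact absurd hr.2 (not_lt.2 hr2.1.le)
  rw [← setIntegral_union hdisj measurableSet_Ioo (hq.mono_set hsub1) (hq.mono_set hsub2)]
  refine setIntegral_mono_set hq ?_ ?_
  · exact (ae_restrict_iff' measurableSet_Ioo).2 (Eventually.of_forall fun r hr => hq0 r hr)
  · exact (union_subset hsub1 hsub2).eventuallyLE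

end green

/-- the exponent inequality -/
lemma exponent_ineq {X ρ r : ℝ} (hX : 1 ≤ X) (hρ : 0 < ρ) (hr : 0 < r) :
    Real.exp (-(X ^ 2 / 2) * |ρ - r|) * ew r X ≤
      Real.exp 1 * (Real.exp (-(X ^ 2 / 4) * |ρ - r|) * ew ρ X) := by
  unfold ew
  rw [← Real.exp_add, ← Real.exp_add, ← Real.exp_add]
  apply Real.exp_le_exp.2
  rcases le_total ρ r with h | h
  · have := mul_le_mul_of_nonneg_right (Real.sqrt_le_sqrt h) (by linarith : 0 ≤ X)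
    have := mul_nonneg (sq_nonneg X) (abs_nonneg (ρ - r))
    nlinarith
  · have h1 : Real.sqrt ρ ≤ Real.sqrt r + Real.sqrt (ρ - r) := by
      have : Real.sqrt ρ = Real.sqrt (r + (ρ - r)) := by congr 1; ring
      rw [this]
      rw [Real.sqrt_le_left (by positivity)]
      have e1 := Real.sq_sqrt hr.le
      have e2 := Real.sq_sqrt (sub_nonneg.2 h)
      nlinarith [mul_nonneg (Real.sqrt_nonneg r) (Real.sqrt_nonneg (ρ - r))]
    set q := Real.sqrt (ρ - r) with hq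
    have hq2 : q ^ 2 = ρ - r := Real.sq_sqrt (sub_nonneg.2 h)
    rw [abs_of_nonneg (sub_nonneg.2 h), ← hq2]
    nlinarith [sq_nonneg (X * q / 2 - 1), mul_le_mul_of_nonneg_right h1 (by linarith : 0 ≤ X)]

end Pool.Agent.R206.Bous
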