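import Mathlib

/-! Holomorphic dependence on the frequency: basic tools. -/

namespace Pool.Agent.R206.Bous

open MeasureTheory Set Filter Topology Complex

/-- the strip `|Im k| < 1` -/
def strip : Set ℂ := {k | |k.im| < 1}

lemma strip_open : IsOpen strip :=
  isOpen_lt (continuous_abs.comp Complex.continuous_im) continuous_const

lemma strip_neg_conj {k : ℂ} (hk : k ∈ strip) : -(starRingEnd ℂ k) ∈ strip := by
  simpa [strip] using hk

lemma strip_sub_real {k : ℂ} (hk : k ∈ strip) (l : ℝ) : k - (l : ℂ) ∈ strip := by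
  simpa [strip] using hk

lemma strip_add_real {k : ℂ} (hk : k ∈ strip) (l : ℝ) : k + (l : ℂ) ∈ strip := by
  simpa [strip] using hk

lemma real_mem_strip (l : ℝ) : (l : ℂ) ∈ strip := by simp [strip]

/-- `X = 1 + |Re k|` -/
def XX (k : ℂ) : ℝ := 1 + |k.re|

lemma one_le_XX (k : ℂ) : 1 ≤ XX k := by unfold XX; linarith [abs_nonneg k.re]

lemma XX_neg_conj (k : ℂ) : XX (-(starRingEnd ℂ k)) = XX k := by simp [XX]

/-- Holomorphy of integrals depending on a complex variable. -/
theorem holInt {α : Type*} [MeasurableSpace α] {μ : Measure α} {U : Set ℂ} (hU : IsOpen U)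
    {f : ℂ → α → ℂ} {g : α → ℝ} (hg : Integrable g μ)
    (hm : ∀ z ∈ U, AEStronglyMeasurable (f z) μ)
    (hb : ∀ᵐ a ∂μ, ∀ z ∈ U, ‖f z a‖ ≤ g a)
    (hd : ∀ᵐ a ∂μ, DifferentiableOn ℂ (fun z => f z a) U) :
    DifferentiableOn ℂ (fun z => ∫ a, f z a ∂μ) U := by
  intro z hz
  obtain ⟨ε, hε, hball⟩ := Metric.isOpen_iff.1 hU z hz
  have hε2 : 0 < ε / 2 := by positivity
  have hsub : ∀ w ∈ Metric.ball z (ε / 2), Metric.closedBall w (ε / 2 / 2) ⊆ U := by
    intro w hw y hy
    apply hball
    have h1 := Metric.mem_ball.1 hw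
    have h2 := Metric.mem_closedBall.1 hy
    have h3 := dist_triangle y w z
    exact Metric.mem_ball.2 (by linarith)
  have hzU : ∀ w ∈ Metric.ball z (ε / 2), w ∈ U := fun w hw =>
    hsub w hw (Metric.mem_closedBall_self (by positivity))
  have key := hasDerivAt_integral_of_dominated_loc_of_deriv_le (𝕜 := ℂ) (μ := μ)
    (F := f) (F' := fun w a => deriv (fun z => f z a) w) (x₀ := z)
    (s := Metric.ball z (ε / 2)) (bound := fun a => g a / (ε / 2 / 2))
    (Metric.ball_mem_nhds z hε2)
    (by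
      filter_upwards [hU.mem_nhds hz] with w hw using hm w hw)
    (by
      refine Integrable.mono' hg (hm z hz) ?_
      filter_upwards [hb] with a ha using ha z hz)
    (by
      have hseq : Tendsto (fun n : ℕ => z + ((ε / 4 / ((n : ℝ) + 1) : ℝ) : ℂ)) atTop (𝓝[≠] z) := by
        rw [tendsto_nhdsWithin_iff]
        constructor
        · have h1 : Tendsto (fun n : ℕ => (ε / 4 / ((n : ℝ) + 1) : ℝ)) atTop (𝓝 0) := by
            have := (tendsto_one_div_add_atTop_nhds_zero_nat (𝕜 := ℝ)).const_mul (ε / 4)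
            simpa [div_eq_mul_inv] using this
          have h2 : Tendsto (fun n : ℕ => ((ε / 4 / ((n : ℝ) + 1) : ℝ) : ℂ)) atTop (𝓝 ((0 : ℝ) : ℂ)) :=
            (Complex.continuous_ofReal.tendsto 0).comp h1
          have h3 := h2.const_add z
          simpa using h3
        · refine Eventually.of_forall fun n => ?_
          simp only [mem_compl_iff, mem_singleton_iff, add_eq_left, ofReal_eq_zero]
          have : (0 : ℝ) < ε / 4 / ((n : ℝ) + 1) := by positivity
          exact this.ne'
      have hmemU : ∀ n : ℕ, z + ((ε / 4 / ((n : ℝ) + 1) : ℝ) : ℂ) ∈ U := by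
        intro n
        apply hball
        rw [Metric.mem_ball, dist_eq_norm, add_sub_cancel_left, Complex.norm_real, Real.norm_eq_abs]
        have h1 : (0 : ℝ) < ε / 4 / ((n : ℝ) + 1) := by positivity
        rw [abs_of_pos h1]
        have h2 : ε / 4 / ((n : ℝ) + 1) ≤ ε / 4 := div_le_self (by positivity) (by linarith [Nat.cast_nonneg (α := ℝ) n])
        linarith
      refine aestronglyMeasurable_of_tendsto_ae atTop
        (f := fun (n : ℕ) a => slope (fun z => f z a) z (z + ((ε / 4 / ((n : ℝ) + 1) : ℝ) : ℂ))) ?_ ?_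
      · intro n
        have h5 := ((hm _ (hmemU n)).sub (hm z hz)).const_smul
          ((z + ((ε / 4 / ((n : ℝ) + 1) : ℝ) : ℂ) - z)⁻¹ : ℂ)
        refine h5.congr (Eventually.of_forall fun a => ?_)
        simp [slope_def_module]
      · filter_upwards [hd] with a ha
        have h1 : HasDerivAt (fun z => f z a) (deriv (fun z => f z a) z) z :=
          (ha.differentiableAt (hU.mem_nhds hz)).hasDerivAt
        exact (hasDerivAt_iff_tendsto_slope.1 h1).comp hseq)
    (by
      filter_upwards [hb, hd] with a ha hda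
      intro w hw
      refine Complex.norm_deriv_le_of_forall_mem_sphere_norm_le (by positivity) ?_ ?_
      · refine (hda.mono (hsub w hw)).diffContOnCl_ball ?_
        exact subset_rfl
      · intro y hy
        exact ha y (hsub w hw (Metric.sphere_subset_closedBall hy)))
    (hg.div_const _)
    (by
      filter_upwards [hd] with a hda
      intro w hw
      exact (hda.differentiableAt (hU.mem_nhds (hzU w hw))).hasDerivAt)
  exact key.2.differentiableAt.differentiableWithinAt

/-! ### The entire functions `cf (w^2) = cosh w`, `w * sf (w^2) = sinh w` -/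

noncomputable def cf (ζ : ℂ) : ℂ := ∑' n : ℕ, ζ ^ n / ((2 * n).factorial : ℂ)
noncomputable def sf (ζ : ℂ) : ℂ := ∑' n : ℕ, ζ ^ n / ((2 * n + 1).factorial : ℂ)

lemma fact_le1 (n : ℕ) : (n.factorial : ℝ) ≤ ((2 * n).factorial : ℝ) := by
  exact_mod_cast Nat.factorial_le (by omega)
lemma fact_le2 (n : ℕ) : (n.factorial : ℝ) ≤ ((2 * n + 1).factorial : ℝ) := by
  exact_mod_cast Nat.factorial_le (by omega)

lemma cf_differentiable : Differentiable ℂ cf := by
  intro z
  have h := differentiableOn_tsum_of_summable_norm (F := fun (n : ℕ) (ζ : ℂ) => ζ ^ n / ((2 * n).factorial : ℂ))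
    (u := fun n : ℕ => (‖z‖ + 1) ^ n / (n.factorial : ℝ)) (U := Metric.ball 0 (‖z‖ + 1))
    (Real.summable_pow_div_factorial _)
    (fun n => ((differentiable_pow n).div_const _).differentiableOn) Metric.isOpen_ball
    (by
      intro n w hw
      rw [norm_div, norm_pow, Complex.norm_natCast]
      have hw' : ‖w‖ ≤ ‖z‖ + 1 := by
        have := Metric.mem_ball.1 hw; rw [dist_zero_right] at this; exact this.le
      have h0 : (0 : ℝ) < (n.factorial : ℝ) := by exact_mod_cast n.factorial_pos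
      exact div_le_div₀ (by positivity) (pow_le_pow_left₀ (norm_nonneg _) hw' n) h0 (fact_le1 n))
  exact h.differentiableAt (Metric.isOpen_ball.mem_nhds (by simp))

lemma sf_differentiable : Differentiable ℂ sf := by
  intro z
  have h := differentiableOn_tsum_of_summable_norm (F := fun (n : ℕ) (ζ : ℂ) => ζ ^ n / ((2 * n + 1).factorial : ℂ))
    (u := fun n : ℕ => (‖z‖ + 1) ^ n / (n.factorial : ℝ)) (U := Metric.ball 0 (‖z‖ + 1))
    (Real.summable_pow_div_factorial _)
    (fun n => ((differentiable_pow n).div_const _).differentiableOn) Metric.isOpen_ball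
    (by
      intro n w hw
      rw [norm_div, norm_pow, Complex.norm_natCast]
      have hw' : ‖w‖ ≤ ‖z‖ + 1 := by
        have := Metric.mem_ball.1 hw; rw [dist_zero_right] at this; exact this.le
      have h0 : (0 : ℝ) < (n.factorial : ℝ) := by exact_mod_cast n.factorial_pos
      exact div_le_div₀ (by positivity) (pow_le_pow_left₀ (norm_nonneg _) hw' n) h0 (fact_le2 n))
  exact h.differentiableAt (Metric.isOpen_ball.mem_nhds (by simp))

lemma cf_sq (w : ℂ) : cf (w ^ 2) = Complex.cosh w := by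
  rw [← (Complex.hasSum_cosh w).tsum_eq]
  unfold cf
  congr 1; funext n; rw [pow_mul]

lemma sf_sq (w : ℂ) : w * sf (w ^ 2) = Complex.sinh w := by
  rw [← (Complex.hasSum_sinh w).tsum_eq]
  unfold sf
  rw [← tsum_mul_left]
  congr 1; funext n; rw [← pow_mul, pow_succ w (2 * n)]; ring

lemma sf_zero : sf 0 = 1 := by
  unfold sf
  rw [tsum_eq_single 0]
  · simp
  · intro n hn; simp [hn]

lemma cf_conj (z : ℂ) : cf (starRingEnd ℂ z) = starRingEnd ℂ (cf z) := by
  unfold cf
  rw [Complex.conj_tsum]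
  congr 1; funext n; simp

lemma sf_conj (z : ℂ) : sf (starRingEnd ℂ z) = starRingEnd ℂ (sf z) := by
  unfold sf
  rw [Complex.conj_tsum]
  congr 1; funext n; simp

/-- solution of `P'' = z P`, `P(0)=1`, `P'(0)=0` -/
noncomputable def CC (z : ℂ) (s : ℝ) : ℂ := cf (z * (s : ℂ) ^ 2)
/-- solution of `P'' = z P`, `P(0)=0`, `P'(0)=1` -/
noncomputable def SS (z : ℂ) (s : ℝ) : ℂ := (s : ℂ) * sf (z * (s : ℂ) ^ 2)
/-- the correction function -/
noncomputable def EE (z : ℂ) : ℂ :=
  ((2 / Real.sqrt Real.pi : ℝ) : ℂ) * ∫ τ in Ioc (0 : ℝ) 1, cexp (-z * (τ : ℂ) ^ 2)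
noncomputable def DD (z : ℂ) (s : ℝ) : ℂ := CC z s - z * EE z * SS z s

lemma CC_root {w : ℂ} (s : ℝ) : CC (w ^ 2) s = Complex.cosh (w * s) := by
  unfold CC; rw [← mul_pow, cf_sq]

lemma SS_root {w : ℂ} (s : ℝ) : w * SS (w ^ 2) s = Complex.sinh (w * s) := by
  unfold SS; rw [← mul_pow, ← sf_sq]; ring

lemma exists_root (z : ℂ) : ∃ w : ℂ, w ^ 2 = z := IsAlgClosed.exists_pow_nat_eq z (by norm_num)

lemma hasDerivAt_SS (z : ℂ) (s : ℝ) : HasDerivAt (SS z) (CC z s) s := by
  obtain ⟨w, rfl⟩ := exists_root z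
  by_cases hw : w = 0
  · subst hw
    have h1 : SS (0 ^ 2) = fun s : ℝ => (s : ℂ) := by
      funext s; unfold SS; simp [sf_zero]
    rw [h1, CC_root]
    simpa using (hasDerivAt_id s).ofReal_comp
  · have h1 : SS (w ^ 2) = fun s : ℝ => Complex.sinh (w * s) / w := by
      funext s; rw [← SS_root]; field_simp
    rw [h1, CC_root]
    have h2 : HasDerivAt (fun s : ℝ => w * (s : ℂ)) (w * 1) s :=
      (hasDerivAt_id s).ofReal_comp.const_mul w
    have h3 := (Complex.hasDerivAt_sinh (w * s)).comp s h2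
    have h4 := h3.div_const w
    exact h4.congr_deriv (by field_simp)

lemma hasDerivAt_CC (z : ℂ) (s : ℝ) : HasDerivAt (CC z) (z * SS z s) s := by
  obtain ⟨w, rfl⟩ := exists_root z
  have h1 : CC (w ^ 2) = fun s : ℝ => Complex.cosh (w * s) := by
    funext s; rw [CC_root]
  rw [h1]
  have h2 : HasDerivAt (fun s : ℝ => w * (s : ℂ)) (w * 1) s :=
    (hasDerivAt_id s).ofReal_comp.const_mul w
  have h3 := (Complex.hasDerivAt_cosh (w * s)).comp s h2
  exact h3.congr_deriv (by rw [← SS_root]; ring)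

lemma CC_SS (z : ℂ) (s : ℝ) : CC z s ^ 2 - z * SS z s ^ 2 = 1 := by
  obtain ⟨w, rfl⟩ := exists_root z
  have h := Complex.cosh_sq_sub_sinh_sq (w * s)
  rw [← SS_root, ← CC_root] at h
  rw [← h]; ring

lemma hasDerivAt_DD (z : ℂ) (s : ℝ) : HasDerivAt (DD z) (z * SS z s - z * EE z * CC z s) s :=
  (hasDerivAt_CC z s).sub ((hasDerivAt_SS z s).const_mul _)

/-- the second derivative -/
lemma hasDerivAt_DD' (z : ℂ) (s : ℝ) :
    HasDerivAt (fun s => z * SS z s - z * EE z * CC z s) (z * DD z s) s := by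
  have := ((hasDerivAt_SS z s).const_mul z).sub ((hasDerivAt_CC z s).const_mul (z * EE z))
  exact this.congr_deriv (by unfold DD; ring)

lemma wronskian (z : ℂ) (s : ℝ) :
    CC z s * DD z s - SS z s * (z * SS z s - z * EE z * CC z s) = 1 := by
  rw [← CC_SS z s]; unfold DD; ring

end Pool.Agent.R206.Bous
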