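import Pool.Agent.R206.Bous.Hol

/-! Kernel bounds. -/

namespace Pool.Agent.R206.Bous

open MeasureTheory Set Filter Topology Complex

lemma EE_differentiable : Differentiable ℂ EE := by
  intro z
  have hU : IsOpen (Metric.ball (0 : ℂ) (‖z‖ + 1)) := Metric.isOpen_ball
  have h := holInt (μ := volume.restrict (Ioc (0 : ℝ) 1)) hU
    (f := fun z (τ : ℝ) => cexp (-z * (τ : ℂ) ^ 2)) (g := fun _ => Real.exp (‖z‖ + 1))
    (by
      have : IntegrableOn (fun _ : ℝ => Real.exp (‖z‖ + 1)) (Ioc (0 : ℝ) 1) volume := by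
        simp
      exact this)
    (fun w _ => (by fun_prop : Continuous fun τ : ℝ => cexp (-w * (τ : ℂ) ^ 2)).aestronglyMeasurable)
    (by
      refine (ae_restrict_iff' measurableSet_Ioc).2 (Eventually.of_forall fun τ hτ w hw => ?_)
      rw [Complex.norm_exp]
      apply Real.exp_le_exp.2
      have hw' : ‖w‖ ≤ ‖z‖ + 1 := by
        have := Metric.mem_ball.1 hw; rw [dist_zero_right] at this; exact this.le
      refine (Complex.re_le_norm _).trans ?_
      rw [norm_mul, norm_neg, norm_pow, Complex.norm_real, Real.norm_eq_abs, abs_of_pos hτ.1]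
      have : τ ^ 2 ≤ 1 := pow_le_one₀ hτ.1.le hτ.2
      nlinarith [norm_nonneg w, norm_nonneg z])
    (Eventually.of_forall fun τ => by
      apply Differentiable.differentiableOn
      fun_prop)
  have h2 : DifferentiableAt ℂ (fun z => ∫ τ in Ioc (0 : ℝ) 1, cexp (-z * (τ : ℂ) ^ 2)) z :=
    h.differentiableAt (hU.mem_nhds (by simp))
  exact h2.const_mul _

lemma EE_conj (z : ℂ) : EE (starRingEnd ℂ z) = starRingEnd ℂ (EE z) := by
  unfold EE
  rw [map_mul, ← integral_conj, Complex.conj_ofReal]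
  congr 1
  congr 1; funext τ
  rw [← Complex.exp_conj]; simp

lemma c_le_two : (2 / Real.sqrt Real.pi : ℝ) ≤ 2 := by
  have h : 1 ≤ Real.sqrt Real.pi := by
    rw [Real.one_le_sqrt]; linarith [Real.pi_gt_three]
  exact div_le_self (by norm_num) h

lemma norm_EE_le (z : ℂ) : ‖EE z‖ ≤ 2 * Real.exp ‖z‖ := by
  unfold EE
  rw [norm_mul, Complex.norm_real, Real.norm_eq_abs, abs_of_pos (by positivity)]
  refine mul_le_mul c_le_two ?_ (norm_nonneg _) (by norm_num)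
  have := norm_setIntegral_le_of_norm_le_const (μ := volume) (s := Ioc (0 : ℝ) 1)
    (f := fun τ : ℝ => cexp (-z * (τ : ℂ) ^ 2)) (C := Real.exp ‖z‖) (by simp)
    (fun τ hτ => by
      rw [Complex.norm_exp]
      apply Real.exp_le_exp.2
      refine (Complex.re_le_norm _).trans ?_
      rw [norm_mul, norm_neg, norm_pow, Complex.norm_real, Real.norm_eq_abs, abs_of_pos hτ.1]
      have : τ ^ 2 ≤ 1 := pow_le_one₀ hτ.1.le hτ.2
      nlinarith [norm_nonneg z])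
  simpa using this

lemma norm_cosh_le (ζ : ℂ) : ‖Complex.cosh ζ‖ ≤ Real.exp |ζ.re| := by
  unfold Complex.cosh
  rw [norm_div, Complex.norm_two]
  have h1 : ‖cexp ζ + cexp (-ζ)‖ ≤ Real.exp |ζ.re| + Real.exp |ζ.re| := by
    refine (norm_add_le _ _).trans (add_le_add ?_ ?_)
    · rw [Complex.norm_exp]; exact Real.exp_le_exp.2 (le_abs_self _)
    · rw [Complex.norm_exp, Complex.neg_re]; exact Real.exp_le_exp.2 (neg_le_abs _)
  linarith

lemma norm_sinh_le (ζ : ℂ) : ‖Complex.sinh ζ‖ ≤ Real.exp |ζ.re| := by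
  unfold Complex.sinh
  rw [norm_div, Complex.norm_two]
  have h1 : ‖cexp ζ - cexp (-ζ)‖ ≤ Real.exp |ζ.re| + Real.exp |ζ.re| := by
    refine (norm_sub_le _ _).trans (add_le_add ?_ ?_)
    · rw [Complex.norm_exp]; exact Real.exp_le_exp.2 (le_abs_self _)
    · rw [Complex.norm_exp, Complex.neg_re]; exact Real.exp_le_exp.2 (neg_le_abs _)
  linarith

lemma re_mul_real (w : ℂ) (s : ℝ) : (w * (s : ℂ)).re = w.re * s := by simp

lemma SS_zero (z : ℂ) : SS z 0 = 0 := by simp [SS]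

lemma norm_CC_le {w : ℂ} (hw : 0 ≤ w.re) {s : ℝ} (hs : 0 ≤ s) :
    ‖CC (w ^ 2) s‖ ≤ Real.exp (w.re * s) := by
  rw [CC_root]
  refine (norm_cosh_le _).trans ?_
  rw [re_mul_real, abs_of_nonneg (by positivity)]

lemma norm_SS_le {w : ℂ} (hw : 0 ≤ w.re) {s : ℝ} (hs : 0 ≤ s) :
    ‖SS (w ^ 2) s‖ ≤ s * Real.exp (w.re * s) := by
  have h := norm_image_sub_le_of_norm_deriv_le_segment' (f := SS (w ^ 2)) (f' := CC (w ^ 2))
    (a := 0) (b := s) (C := Real.exp (w.re * s))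
    (fun x _ => (hasDerivAt_SS (w ^ 2) x).hasDerivWithinAt)
    (fun x hx => (norm_CC_le hw hx.1).trans
      (Real.exp_le_exp.2 (mul_le_mul_of_nonneg_left hx.2.le hw))) s ⟨hs, le_rfl⟩
  rw [SS_zero, sub_zero, sub_zero] at h
  linarith

lemma norm_SS_le2 {w : ℂ} (hw : 0 ≤ w.re) {s : ℝ} (hs : 0 ≤ s) :
    ‖w‖ * ‖SS (w ^ 2) s‖ ≤ Real.exp (w.re * s) := by
  rw [← norm_mul, SS_root]
  refine (norm_sinh_le _).trans ?_
  rw [re_mul_real, abs_of_nonneg (by positivity)]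

lemma norm_DD_le {w h : ℂ} (hw : 0 ≤ w.re) (hE : w * EE (w ^ 2) = 1 - h) {s : ℝ} (hs : 0 ≤ s) :
    ‖DD (w ^ 2) s‖ ≤ Real.exp (-(w.re * s)) + ‖h‖ * Real.exp (w.re * s) := by
  have h1 : DD (w ^ 2) s = cexp (-(w * s)) + h * Complex.sinh (w * s) := by
    have e1 : DD (w ^ 2) s = Complex.cosh (w * s) - (w * EE (w ^ 2)) * Complex.sinh (w * s) := by
      unfold DD; rw [CC_root, ← SS_root]; ring
    rw [e1, hE, ← Complex.cosh_sub_sinh]
    ring
  rw [h1]
  refine (norm_add_le _ _).trans (add_le_add ?_ ?_)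
  · rw [Complex.norm_exp, Complex.neg_re, re_mul_real]
  · rw [norm_mul]
    refine mul_le_mul_of_nonneg_left ((norm_sinh_le _).trans ?_) (norm_nonneg _)
    rw [re_mul_real, abs_of_nonneg (by positivity)]

lemma tail_bd {z : ℂ} (hz : 0 < z.re) :
    ‖∫ τ in Ioi (1 : ℝ), cexp (-z * (τ : ℂ) ^ 2)‖ ≤ Real.exp (-z.re) / z.re := by
  have h1 : ∫ τ in Ioi (1 : ℝ), Real.exp (-z.re * τ) = Real.exp (-z.re) / z.re := by
    rw [integral_exp_mul_Ioi (by linarith)]
    rw [mul_one, neg_div_neg_eq]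
  rw [← h1]
  refine norm_integral_le_of_norm_le (integrableOn_exp_mul_Ioi (by linarith) 1) ?_
  refine (ae_restrict_iff' measurableSet_Ioi).2 (Eventually.of_forall fun τ hτ => ?_)
  rw [Complex.norm_exp]
  apply Real.exp_le_exp.2
  have hτ' : (1 : ℝ) < τ := hτ
  have e : (-z * (τ : ℂ) ^ 2).re = -z.re * τ ^ 2 := by
    have : ((τ : ℂ) ^ 2) = ((τ ^ 2 : ℝ) : ℂ) := by push_cast; rfl
    rw [this, Complex.re_mul_ofReal, Complex.neg_re]
  rw [e]
  nlinarith [mul_pos hz (show (0 : ℝ) < τ - 1 by linarith), mul_pos (mul_pos hz (show (0 : ℝ) < τ - 1 by linarith)) (show (0 : ℝ) < τ by linarith)]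

lemma root_good {z : ℂ} (hz : 0 < z.re) : ∃ w h : ℂ, w ^ 2 = z ∧ 0 ≤ w.re ∧
    w * EE z = 1 - h ∧ ‖h‖ ≤ 2 * ‖w‖ * (Real.exp (-z.re) / z.re) := by
  have hz0 : z ≠ 0 := by rintro rfl; simp at hz
  set g : ℂ := ((Real.pi : ℂ) / z) ^ (1 / 2 : ℂ) with hg
  have hg2 : g ^ 2 = (Real.pi : ℂ) / z := by
    rw [hg, ← Complex.cpow_nat_mul]
    norm_num
  have hpi : (Real.pi : ℂ) ≠ 0 := by exact_mod_cast Real.pi_ne_zero
  have hg0 : g ≠ 0 := by
    intro h0
    rw [h0] at hg2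
    have : (Real.pi : ℂ) / z ≠ 0 := div_ne_zero hpi hz0
    exact this (by rw [← hg2]; ring)
  have hgre : 0 ≤ g.re := by
    have e : g = ((Real.pi : ℂ) / z) ^ (((1 / 2 : ℝ)) : ℂ) := by rw [hg]; norm_num
    rw [e, Complex.cpow_ofReal_re]
    refine mul_nonneg (by positivity) (Real.cos_nonneg_of_mem_Icc ?_)
    have h1 := Complex.neg_pi_lt_arg ((Real.pi : ℂ) / z)
    have h2 := Complex.arg_le_pi ((Real.pi : ℂ) / z)
    constructor <;> linarith
  set sp : ℂ := ((Real.sqrt Real.pi : ℝ) : ℂ) with hsp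
  have hsp2 : sp ^ 2 = (Real.pi : ℂ) := by
    rw [hsp]; norm_cast; exact Real.sq_sqrt Real.pi_pos.le
  have hsp0 : sp ≠ 0 := by
    intro h0; rw [h0] at hsp2; exact hpi (by rw [← hsp2]; ring)
  set J := ∫ τ in Ioi (1 : ℝ), cexp (-z * (τ : ℂ) ^ 2) with hJ
  have hsplit : (∫ τ in Ioc (0 : ℝ) 1, cexp (-z * (τ : ℂ) ^ 2)) + J = g / 2 := by
    rw [hJ, ← setIntegral_union Ioc_disjoint_Ioi_same measurableSet_Ioi
      (integrable_cexp_neg_mul_sq hz).integrableOn (integrable_cexp_neg_mul_sq hz).integrableOn,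
      Ioc_union_Ioi_eq_Ioi zero_le_one, integral_gaussian_complex_Ioi hz]
  refine ⟨sp / g, (sp / g) * ((2 / Real.sqrt Real.pi : ℝ) : ℂ) * J, ?_, ?_, ?_, ?_⟩
  · rw [div_pow, hsp2, hg2]; field_simp
  · rw [Complex.div_re]
    have : sp.im = 0 := Complex.ofReal_im _
    rw [this]
    have h3 : 0 ≤ sp.re := by rw [hsp, Complex.ofReal_re]; exact Real.sqrt_nonneg _
    simp only [zero_mul, zero_div, add_zero]
    exact div_nonneg (mul_nonneg h3 hgre) (Complex.normSq_nonneg _)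
  · have : (∫ τ in Ioc (0 : ℝ) 1, cexp (-z * (τ : ℂ) ^ 2)) = g / 2 - J := by rw [← hsplit]; ring
    unfold EE
    rw [this]
    have hc : ((2 / Real.sqrt Real.pi : ℝ) : ℂ) = 2 / sp := by rw [hsp]; push_cast; rfl
    rw [hc]
    field_simp
  · rw [norm_mul, norm_mul, Complex.norm_real, Real.norm_eq_abs, abs_of_pos (by positivity : (0 : ℝ) < 2 / Real.sqrt Real.pi)]
    have hJb := tail_bd hz
    rw [← hJ] at hJb
    have h4 : ‖sp / g‖ * (2 / Real.sqrt Real.pi) * ‖J‖ ≤ ‖sp / g‖ * 2 * ‖J‖ := by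
      gcongr; exact c_le_two
    refine h4.trans ?_
    rw [mul_comm (‖sp / g‖) 2]
    gcongr

/-- the symbol -/
noncomputable def zz (k : ℂ) : ℂ := k ^ 4 - k ^ 2

lemma zz_re (k : ℂ) : (zz k).re = k.re ^ 4 - 6 * k.re ^ 2 * k.im ^ 2 + k.im ^ 4 - k.re ^ 2 + k.im ^ 2 := by
  simp only [zz, pow_succ, pow_zero, one_mul, Complex.sub_re, Complex.mul_re, Complex.mul_im]
  ring

lemma norm_sq_eq (k : ℂ) : ‖k‖ ^ 2 = k.re ^ 2 + k.im ^ 2 := by
  rw [← Complex.normSq_eq_norm_sq, Complex.normSq_apply]; ring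

lemma norm_sq_le_strip {k : ℂ} (hk : k ∈ strip) : ‖k‖ ^ 2 ≤ k.re ^ 2 + 1 := by
  rw [norm_sq_eq]
  have : k.im ^ 2 ≤ 1 := by
    have h : |k.im| < 1 := hk
    have := abs_lt.1 h
    nlinarith [this.1, this.2]
  linarith

lemma norm_zz_le {k : ℂ} (hk : k ∈ strip) : ‖zz k‖ ≤ (k.re ^ 2 + 1) ^ 2 + (k.re ^ 2 + 1) := by
  unfold zz
  refine (norm_sub_le _ _).trans ?_
  rw [norm_pow, norm_pow]
  have h := norm_sq_le_strip hk
  have h4 : ‖k‖ ^ 4 = (‖k‖ ^ 2) ^ 2 := by ring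
  rw [h4]
  have h0 : 0 ≤ ‖k‖ ^ 2 := by positivity
  nlinarith

theorem kernel_bound (R : ℝ) (hR : 0 < R) : ∃ B : ℝ, 0 < B ∧ ∀ k ∈ strip, ∀ a b : ℝ, 0 < a → a ≤ b →
    b ≤ R → ‖k ^ 2 * SS (zz k) a * DD (zz k) b‖ ≤
      B * (min 1 (XX k ^ 2 * a) * Real.exp (-(XX k ^ 2 / 2) * (b - a))) := by
  set B1 : ℝ := 2 * (1 + 2 * Real.exp (2 * R ^ 2)) with hB1
  set B2 : ℝ := 37 * Real.exp (38 * R) * (Real.exp (38 * R) + 1406 * (2 * Real.exp 1406) *
      (R * Real.exp (38 * R))) * (1 + R) * Real.exp (49 * R / 2) with hB2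
  have hB1p : 0 < B1 := by positivity
  have hB2p : 0 < B2 := by positivity
  refine ⟨B1 + B2, by positivity, ?_⟩
  intro k hk a b ha hab hbR
  have hb : 0 < b := lt_of_lt_of_le ha hab
  have haR : a ≤ R := hab.trans hbR
  have hX1 := one_le_XX k
  have hXk : |k.re| = XX k - 1 := by unfold XX; ring
  have hre2 : k.re ^ 2 = (XX k - 1) ^ 2 := by rw [← hXk, sq_abs]
  have him : k.im ^ 2 ≤ 1 := by
    have h : |k.im| < 1 := hk
    have := abs_lt.1 h
    nlinarith [this.1, this.2]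
  have hmin0 : 0 ≤ min 1 (XX k ^ 2 * a) := by positivity
  set T : ℝ := min 1 (XX k ^ 2 * a) * Real.exp (-(XX k ^ 2 / 2) * (b - a)) with hT
  have hT0 : 0 ≤ T := by positivity
  have hk2 : ‖k ^ 2‖ ≤ k.re ^ 2 + 1 := by rw [norm_pow]; exact norm_sq_le_strip hk
  have hnz := norm_zz_le hk
  rcases le_or_gt 6 |k.re| with h6 | h6
  · -- large frequency
    suffices h : ‖k ^ 2 * SS (zz k) a * DD (zz k) b‖ ≤ B1 * T by nlinarith
    set x := |k.re| with hx
    have hx2 : k.re ^ 2 = x ^ 2 := by rw [hx, sq_abs]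
    have hXx : XX k = 1 + x := rfl
    have hzre : x ^ 4 - 7 * x ^ 2 ≤ (zz k).re := by
      rw [zz_re]
      have : k.re ^ 4 = (k.re ^ 2) ^ 2 := by ring
      rw [this, hx2]
      nlinarith [sq_nonneg (k.im ^ 2), sq_nonneg k.im, mul_nonneg (sq_nonneg x) (sub_nonneg.2 him)]
    have hx6 : 36 ≤ x ^ 2 := by nlinarith
    have hzpos : 0 < (zz k).re := by nlinarith [mul_nonneg (sq_nonneg x) (sub_nonneg.2 hx6)]
    obtain ⟨w, h, hw2, hwre, hwE, hh⟩ := root_good hzpos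
    have hnw2 : ‖w‖ ^ 2 = ‖zz k‖ := by rw [← hw2, norm_pow]
    have hz2 : ‖zz k‖ ≤ 2 * (zz k).re := by
      refine hnz.trans ?_
      rw [hx2]
      nlinarith [mul_nonneg (sq_nonneg x) (sub_nonneg.2 hx6)]
    have hz1000 : 2 ≤ (zz k).re := by
      nlinarith [mul_nonneg (sq_nonneg x) (sub_nonneg.2 hx6)]
    have hwle : ‖w‖ ≤ (zz k).re := by
      have : ‖w‖ ^ 2 ≤ (zz k).re ^ 2 := by rw [hnw2]; nlinarith
      exact (sq_le_sq₀ (norm_nonneg _) hzpos.le).1 this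
    have hh2 : ‖h‖ ≤ 2 * Real.exp (-(zz k).re) := by
      refine hh.trans ?_
      rw [show 2 * ‖w‖ * (Real.exp (-(zz k).re) / (zz k).re) =
        2 * Real.exp (-(zz k).re) * (‖w‖ / (zz k).re) by ring]
      refine mul_le_of_le_one_right (by positivity) ?_
      rw [div_le_one hzpos]; exact hwle
    have hwre2 : (zz k).re ≤ w.re ^ 2 := by
      rw [← hw2]; simp only [pow_two, Complex.mul_re]; nlinarith [sq_nonneg w.im]
    have hWX : XX k ^ 2 / 2 ≤ w.re := by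
      have h1 : (XX k ^ 2 / 2) ^ 2 ≤ w.re ^ 2 := by
        refine le_trans ?_ hwre2
        refine le_trans ?_ hzre
        rw [hXx]
        nlinarith [mul_nonneg (sub_nonneg.2 h6) (sub_nonneg.2 h6), mul_nonneg (mul_nonneg (sub_nonneg.2 h6) (sub_nonneg.2 h6)) (sub_nonneg.2 h6), mul_nonneg (mul_nonneg (sub_nonneg.2 h6) (sub_nonneg.2 h6)) (mul_nonneg (sub_nonneg.2 h6) (sub_nonneg.2 h6))]
      exact (sq_le_sq₀ (by positivity) hwre).1 h1
    have hwle2 : w.re ≤ ‖w‖ := Complex.re_le_norm w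
    have hDb : ‖DD (zz k) b‖ ≤ Real.exp (-(w.re * b)) * (1 + 2 * Real.exp (2 * R ^ 2)) := by
      rw [← hw2]
      refine (norm_DD_le hwre (by rw [hw2]; exact hwE) hb.le).trans ?_
      rw [mul_add, mul_one]
      refine add_le_add le_rfl ?_
      have e1 : ‖h‖ * Real.exp (w.re * b) ≤ 2 * Real.exp (-(zz k).re) * Real.exp (w.re * b) := by gcongr
      refine e1.trans ?_
      rw [mul_assoc, ← Real.exp_add, mul_left_comm, ← Real.exp_add]
      refine mul_le_mul_of_nonneg_left (Real.exp_le_exp.2 ?_) (by norm_num)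
      have h5 : w.re * b ≤ ‖w‖ * R := mul_le_mul hwle2 hbR hb.le (norm_nonneg _)
      nlinarith [sq_nonneg (‖w‖ - 2 * R)]
    have hSa : ‖k ^ 2‖ * ‖SS (zz k) a‖ ≤ 2 * min 1 (XX k ^ 2 * a) * Real.exp (w.re * a) := by
      have s1 : ‖SS (zz k) a‖ ≤ a * Real.exp (w.re * a) := by rw [← hw2]; exact norm_SS_le hwre ha.le
      have s2 : ‖w‖ * ‖SS (zz k) a‖ ≤ Real.exp (w.re * a) := by rw [← hw2]; exact norm_SS_le2 hwre ha.le
      have hkX : ‖k ^ 2‖ ≤ XX k ^ 2 := by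
        refine hk2.trans ?_
        rw [hx2, hXx]; nlinarith
      have hwX : XX k ^ 2 / 2 ≤ ‖w‖ := hWX.trans hwle2
      rcases min_cases 1 (XX k ^ 2 * a) with ⟨hm, _⟩ | ⟨hm, _⟩
      · rw [hm]
        nlinarith [norm_nonneg (SS (zz k) a), mul_le_mul_of_nonneg_right (hkX.trans (by linarith : XX k ^ 2 ≤ 2 * ‖w‖)) (norm_nonneg (SS (zz k) a))]
      · rw [hm]
        have := mul_le_mul hkX s1 (norm_nonneg _) (by positivity)
        nlinarith [mul_nonneg (mul_nonneg (sq_nonneg (XX k)) ha.le) (Real.exp_pos (w.re * a)).le]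
    rw [norm_mul, norm_mul]
    refine (mul_le_mul hSa hDb (norm_nonneg _) (by positivity)).trans ?_
    rw [show 2 * min 1 (XX k ^ 2 * a) * Real.exp (w.re * a) * (Real.exp (-(w.re * b)) * (1 + 2 * Real.exp (2 * R ^ 2)))
      = B1 * (min 1 (XX k ^ 2 * a) * (Real.exp (w.re * a) * Real.exp (-(w.re * b)))) by rw [hB1]; ring,
      ← Real.exp_add]
    refine mul_le_mul_of_nonneg_left (mul_le_mul_of_nonneg_left (Real.exp_le_exp.2 ?_) hmin0) hB1p.le
    nlinarith [mul_le_mul_of_nonneg_right hWX (sub_nonneg.2 hab)]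
  · -- small frequency
    suffices h : ‖k ^ 2 * SS (zz k) a * DD (zz k) b‖ ≤ B2 * T by nlinarith
    obtain ⟨w, hw2, hwre⟩ : ∃ w : ℂ, w ^ 2 = zz k ∧ 0 ≤ w.re := by
      obtain ⟨w, hw⟩ := exists_root (zz k)
      rcases le_total 0 w.re with h | h
      · exact ⟨w, hw, h⟩
      · exact ⟨-w, by rw [← hw]; ring, by simpa using h⟩
    have hx2 : k.re ^ 2 ≤ 36 := by
      rw [← sq_abs]; nlinarith [abs_nonneg k.re]
    have hz1406 : ‖zz k‖ ≤ 1406 := by
      refine hnz.trans ?_; nlinarith [sq_nonneg k.re]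
    have hnw2 : ‖w‖ ^ 2 = ‖zz k‖ := by rw [← hw2, norm_pow]
    have hw38 : w.re ≤ 38 := by
      refine (Complex.re_le_norm w).trans ?_
      nlinarith [norm_nonneg w]
    have hexp : ∀ s : ℝ, 0 ≤ s → s ≤ R → Real.exp (w.re * s) ≤ Real.exp (38 * R) := by
      intro s hs0 hsR
      exact Real.exp_le_exp.2 (mul_le_mul hw38 hsR hs0 (by norm_num))
    have hS : ∀ s : ℝ, 0 ≤ s → s ≤ R → ‖SS (zz k) s‖ ≤ s * Real.exp (38 * R) := by
      intro s hs0 hsR
      rw [← hw2]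
      exact (norm_SS_le hwre hs0).trans (mul_le_mul_of_nonneg_left (hexp s hs0 hsR) hs0)
    have hD : ‖DD (zz k) b‖ ≤ Real.exp (38 * R) + 1406 * (2 * Real.exp 1406) * (R * Real.exp (38 * R)) := by
      unfold DD
      refine (norm_sub_le _ _).trans (add_le_add ?_ ?_)
      · rw [← hw2]; exact (norm_CC_le hwre hb.le).trans (hexp b hb.le hbR)
      · rw [norm_mul, norm_mul]
        have hE : ‖EE (zz k)‖ ≤ 2 * Real.exp 1406 := (norm_EE_le _).trans (by gcongr)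
        have hSb : ‖SS (zz k) b‖ ≤ R * Real.exp (38 * R) :=
          (hS b hb.le hbR).trans (mul_le_mul_of_nonneg_right hbR (Real.exp_pos _).le)
        gcongr
    have hkk : ‖k ^ 2‖ ≤ 37 := hk2.trans (by linarith)
    have haT : a ≤ (1 + R) * min 1 (XX k ^ 2 * a) := by
      rcases min_cases 1 (XX k ^ 2 * a) with ⟨hm, _⟩ | ⟨hm, _⟩
      · rw [hm]; linarith
      · rw [hm]
        have : a ≤ XX k ^ 2 * a := by nlinarith
        nlinarith
    have hX7 : XX k ^ 2 ≤ 49 := by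
      have : XX k ≤ 7 := by unfold XX; linarith
      nlinarith
    have hexpT : 1 ≤ Real.exp (49 * R / 2) * Real.exp (-(XX k ^ 2 / 2) * (b - a)) := by
      rw [← Real.exp_add]
      apply Real.one_le_exp
      nlinarith [mul_le_mul_of_nonneg_right hX7 (sub_nonneg.2 hab)]
    rw [norm_mul, norm_mul]
    have hSa := hS a ha.le haR
    calc ‖k ^ 2‖ * ‖SS (zz k) a‖ * ‖DD (zz k) b‖
        ≤ 37 * (a * Real.exp (38 * R)) * (Real.exp (38 * R) + 1406 * (2 * Real.exp 1406) * (R * Real.exp (38 * R))) := by gcongr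
      _ ≤ 37 * (((1 + R) * min 1 (XX k ^ 2 * a)) * Real.exp (38 * R)) * (Real.exp (38 * R) + 1406 * (2 * Real.exp 1406) * (R * Real.exp (38 * R))) := by gcongr
      _ ≤ 37 * (((1 + R) * min 1 (XX k ^ 2 * a)) * Real.exp (38 * R)) * (Real.exp (38 * R) + 1406 * (2 * Real.exp 1406) * (R * Real.exp (38 * R))) * (Real.exp (49 * R / 2) * Real.exp (-(XX k ^ 2 / 2) * (b - a))) :=
          le_mul_of_one_le_right (by positivity) hexpT
      _ = B2 * T := by rw [hB2, hT]; ring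

end Pool.Agent.R206.Bous
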