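import Pool.Agent.R206.Bous.Fix

/-! Convolution, and the fixed point. -/

namespace Pool.Agent.R206.Bous

open MeasureTheory Set Filter Topology Complex

/-- weights for which the bilinear estimate holds -/
structure WData (R : ℝ) where
  m : ℝ → ℝ
  κ : ℝ → ℝ → ℝ
  A : ℝ
  hR : 0 < R
  A_pos : 0 < A
  m_meas : Measurable m
  m_pos : ∀ X, 1 ≤ X → 0 < m X
  m_le_κ : ∀ X r, 1 ≤ X → r ∈ Ioo 0 R → m X ≤ κ X r
  m_sup : ∀ r, 0 < r → ∃ C, ∀ X, 1 ≤ X → m X * ew r X ≤ C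
  m_int : ∀ r, 0 < r → Integrable (fun l : ℝ => m (1 + |l|) * ew r (1 + |l|))
  conv_le : ∀ x r, r ∈ Ioo 0 R → ∫ l : ℝ, (m (1 + |x - l|) * ew r (1 + |x - l|)) *
    (m (1 + |l|) * ew r (1 + |l|)) ≤ κ (1 + |x|) r * ew r (1 + |x|)
  time_int : ∀ X ρ, 1 ≤ X → ρ ∈ Ioo 0 R →
    IntegrableOn (fun r => min 1 (X ^ 2 * r) * Real.exp (-(X ^ 2 / 4) * |ρ - r|) * κ X r) (Ioo 0 R)
  time_le : ∀ X ρ, 1 ≤ X → ρ ∈ Ioo 0 R →
    ∫ r in Ioo 0 R, min 1 (X ^ 2 * r) * Real.exp (-(X ^ 2 / 4) * |ρ - r|) * κ X r ≤ A * m X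
  adm : Adm R κ
  poly : ∀ ρ₀, 0 < ρ₀ → ∃ C : ℝ, ∃ a : ℕ, 0 ≤ C ∧ ∀ X ρ, 1 ≤ X → ρ ∈ Ioo 0 R → ρ₀ ≤ ρ →
    κ X ρ ≤ C * X ^ a

variable {R : ℝ} (W : WData R)

namespace WData

lemma κ_nonneg {X r : ℝ} (hX : 1 ≤ X) (hr : r ∈ Ioo 0 R) : 0 ≤ W.κ X r :=
  (W.m_pos X hX).le.trans (W.m_le_κ X r hX hr)

lemma wmeas (r : ℝ) : Measurable (fun X : ℝ => W.m X * ew r X) := by
  unfold ew
  exact W.m_meas.mul (by fun_prop)

lemma wnonneg {X : ℝ} (r : ℝ) (hX : 1 ≤ X) : 0 ≤ W.m X * ew r X :=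
  mul_nonneg (W.m_pos X hX).le (ew_pos _ _).le

lemma conv_int (x : ℝ) {r : ℝ} (hr : 0 < r) : Integrable (fun l : ℝ =>
    (W.m (1 + |x - l|) * ew r (1 + |x - l|)) * (W.m (1 + |l|) * ew r (1 + |l|))) := by
  obtain ⟨C, hC⟩ := W.m_sup r hr
  refine Integrable.mono' ((W.m_int r hr).const_mul C) ?_ (Eventually.of_forall fun l => ?_)
  · refine Measurable.aestronglyMeasurable ?_
    exact ((W.wmeas r).comp (by fun_prop : Measurable fun l : ℝ => 1 + |x - l|)).mul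
      ((W.wmeas r).comp (by fun_prop : Measurable fun l : ℝ => 1 + |l|))
  · have h1 : (1 : ℝ) ≤ 1 + |x - l| := by linarith [abs_nonneg (x - l)]
    have h2 : (1 : ℝ) ≤ 1 + |l| := by linarith [abs_nonneg l]
    rw [Real.norm_eq_abs, abs_of_nonneg (mul_nonneg (W.wnonneg r h1) (W.wnonneg r h2))]
    exact mul_le_mul_of_nonneg_right (hC _ h1) (W.wnonneg r h2)

lemma adm_mul (M : ℝ) (hM : 0 ≤ M) : Adm R (fun X r => M * W.κ X r) := by
  intro K
  obtain ⟨g, hg, h⟩ := W.adm K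
  refine ⟨fun r => M * g r, hg.const_mul M, fun X r h1 h2 h3 => ?_⟩
  have := mul_le_mul_of_nonneg_left (h X r h1 h2 h3) hM
  linarith

end WData

/-- convolution in the frequency variable -/
noncomputable def cv (v w : ℂ → ℝ → ℂ) (k : ℂ) (ρ : ℝ) : ℂ := ∫ l : ℝ, v (k - l) ρ * w l ρ

lemma XX_sub_real (k : ℂ) (l : ℝ) : XX (k - l) = 1 + |k.re - l| := by simp [XX]
lemma XX_real (l : ℝ) : XX (l : ℂ) = 1 + |l| := by simp [XX]

section conv

variable {M₁ M₂ : ℝ} {v w : ℂ → ℝ → ℂ}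

lemma conv_meas (hv : Cls R (fun X _ => M₁ * W.m X) v) (hw : Cls R (fun X _ => M₂ * W.m X) w)
    {k : ℂ} (hk : k ∈ strip) {ρ : ℝ} (hρ : ρ ∈ Ioo 0 R) :
    Continuous (fun l : ℝ => v (k - l) ρ * w l ρ) :=
  ((hv.hol ρ hρ).continuousOn.comp_continuous (by fun_prop) (fun l => strip_sub_real hk l)).mul
    ((hw.hol ρ hρ).continuousOn.comp_continuous (by fun_prop) (fun l => real_mem_strip l))

lemma conv_dom (hv : Cls R (fun X _ => M₁ * W.m X) v) (hw : Cls R (fun X _ => M₂ * W.m X) w)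
    {k : ℂ} (hk : k ∈ strip) {ρ : ℝ} (hρ : ρ ∈ Ioo 0 R) (l : ℝ) :
    ‖v (k - l) ρ * w l ρ‖ ≤ M₁ * M₂ * ((W.m (1 + |k.re - l|) * ew ρ (1 + |k.re - l|)) *
      (W.m (1 + |l|) * ew ρ (1 + |l|))) := by
  have h1 := hv.bd _ (strip_sub_real hk l) ρ hρ
  have h2 := hw.bd _ (real_mem_strip l) ρ hρ
  rw [XX_sub_real] at h1
  rw [XX_real] at h2
  rw [norm_mul]
  refine (mul_le_mul h1 h2 (norm_nonneg _) ((norm_nonneg _).trans h1)).trans (le_of_eq (by ring))

lemma Cls.conv (hM₁ : 0 ≤ M₁) (hM₂ : 0 ≤ M₂) (hv : Cls R (fun X _ => M₁ * W.m X) v)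
    (hw : Cls R (fun X _ => M₂ * W.m X) w) : Cls R (fun X r => M₁ * M₂ * W.κ X r) (cv v w) where
  cont k hk ρ₁ hρ₁ := by
    apply ContinuousAt.continuousWithinAt
    have hρ₀ : 0 < ρ₁ / 2 := by linarith [hρ₁.1]
    refine continuousAt_of_dominated (bound := fun l => M₁ * M₂ * ((W.m (1 + |k.re - l|) * ew (ρ₁ / 2) (1 + |k.re - l|)) *
      (W.m (1 + |l|) * ew (ρ₁ / 2) (1 + |l|)))) ?_ ?_ ?_ ?_
    · filter_upwards [isOpen_Ioo.mem_nhds hρ₁] with ρ hρ
      exact (conv_meas W hv hw hk hρ).aestronglyMeasurable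
    · filter_upwards [isOpen_Ioo.mem_nhds (show ρ₁ ∈ Ioo (ρ₁ / 2) R from ⟨by linarith, hρ₁.2⟩)] with ρ hρ
      refine Eventually.of_forall fun l => (conv_dom W hv hw hk ⟨hρ₀.trans hρ.1, hρ.2⟩ l).trans ?_
      have h1 : (1 : ℝ) ≤ 1 + |k.re - l| := by linarith [abs_nonneg (k.re - l)]
      have h2 : (1 : ℝ) ≤ 1 + |l| := by linarith [abs_nonneg l]
      have h3 := ew_anti hρ.1.le (by linarith : (0 : ℝ) ≤ 1 + |k.re - l|)
      have h4 := ew_anti hρ.1.le (by linarith : (0 : ℝ) ≤ 1 + |l|)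
      have h5 := (W.m_pos _ h1).le
      have h6 := (W.m_pos _ h2).le
      have h7 := (ew_pos ρ (1 + |l|)).le
      have h8 := (ew_pos ρ (1 + |k.re - l|)).le
      have h9 := (ew_pos (ρ₁ / 2) (1 + |k.re - l|)).le
      gcongr
    · exact (W.conv_int k.re hρ₀).const_mul _
    · refine Eventually.of_forall fun l => ?_
      exact (((hv.cont _ (strip_sub_real hk l)).continuousAt (isOpen_Ioo.mem_nhds hρ₁))).mul
        ((hw.cont _ (real_mem_strip l)).continuousAt (isOpen_Ioo.mem_nhds hρ₁))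
  hol ρ hρ := by
    obtain ⟨C, hC⟩ := W.m_sup ρ hρ.1
    have hshift : ∀ l : ℝ, DifferentiableOn ℂ (fun k : ℂ => v (k - l) ρ) strip := fun l =>
      (hv.hol ρ hρ).comp (by fun_prop) (fun k hk => strip_sub_real hk l)
    refine holInt (μ := volume) strip_open (g := fun l : ℝ => M₁ * M₂ * (C * (W.m (1 + |l|) * ew ρ (1 + |l|)))) ?_ ?_ ?_ ?_
    · exact ((W.m_int ρ hρ.1).const_mul C).const_mul _
    · intro k hk
      exact (conv_meas W hv hw hk hρ).aestronglyMeasurable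
    · refine Eventually.of_forall fun l k hk => (conv_dom W hv hw hk hρ l).trans ?_
      have h1 : (1 : ℝ) ≤ 1 + |k.re - l| := by linarith [abs_nonneg (k.re - l)]
      have h2 : (1 : ℝ) ≤ 1 + |l| := by linarith [abs_nonneg l]
      exact mul_le_mul_of_nonneg_left (mul_le_mul_of_nonneg_right (hC _ h1) (W.wnonneg ρ h2)) (by positivity)
    · exact Eventually.of_forall fun l => (hshift l).mul (differentiableOn_const _)
  bd k hk ρ hρ := by
    have h1 : ‖cv v w k ρ‖ ≤ ∫ l : ℝ, M₁ * M₂ * ((W.m (1 + |k.re - l|) * ew ρ (1 + |k.re - l|)) *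
      (W.m (1 + |l|) * ew ρ (1 + |l|))) :=
      norm_integral_le_of_norm_le ((W.conv_int k.re hρ.1).const_mul _)
        (Eventually.of_forall fun l => conv_dom W hv hw hk hρ l)
    rw [integral_const_mul] at h1
    refine h1.trans ?_
    rw [mul_assoc (M₁ * M₂)]
    exact mul_le_mul_of_nonneg_left (W.conv_le k.re ρ hρ) (by positivity)
  sym k hk ρ hρ := by
    unfold cv
    rw [← integral_conj, ← integral_neg_eq_self (fun l : ℝ => v (-(starRingEnd ℂ k) - l) ρ * w l ρ)]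
    congr 1; funext l
    rw [map_mul, ← hv.sym _ (strip_sub_real hk l) ρ hρ, ← hw.sym _ (real_mem_strip l) ρ hρ]
    simp only [map_sub, Complex.conj_ofReal, Complex.ofReal_neg]
    congr 2
    ring

end conv

/-- the constant of the bilinear estimate and the kernel bound -/
structure KB (W : WData R) (B : ℝ) : Prop where
  pos : 0 < B
  ker : ∀ k ∈ strip, ∀ a b : ℝ, 0 < a → a ≤ b → b ≤ R → ‖k ^ 2 * SS (zz k) a * DD (zz k) b‖ ≤
      B * (min 1 (XX k ^ 2 * a) * Real.exp (-(XX k ^ 2 / 2) * (b - a)))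

lemma exists_KB : ∃ B, KB W B := by
  obtain ⟨B, h1, h2⟩ := kernel_bound R W.hR
  exact ⟨B, h1, h2⟩

variable {W}

lemma Cls.green {B : ℝ} (hB : KB W B) {M : ℝ} (hM : 0 ≤ M) {N : ℂ → ℝ → ℂ}
    (hN : Cls R (fun X r => M * W.κ X r) N) :
    Cls R (fun X _ => (B * Real.exp 1 * W.A * M) * W.m X) (GG R N) where
  cont k hk := GG_cont hN (W.adm_mul M hM) hk
  hol ρ hρ := GG_hol hN (W.adm_mul M hM) hρ
  bd k hk ρ hρ := by
    have hX := one_le_XX k
    have h := GG_bound hB.pos hB.ker N hk hρ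
      (q := fun r => (B * Real.exp 1 * M * ew ρ (XX k)) *
        (min 1 (XX k ^ 2 * r) * Real.exp (-(XX k ^ 2 / 4) * |ρ - r|) * W.κ (XX k) r))
      ((W.time_int _ ρ hX hρ).const_mul _) (fun r hr => by
        have h1 := hN.bd k hk r hr
        have h2 := exponent_ineq hX hρ.1 hr.1
        have hB0 := hB.pos
        have hk0 := W.κ_nonneg hX hr
        have hr0 := hr.1.le
        calc B * (min 1 (XX k ^ 2 * r) * Real.exp (-(XX k ^ 2 / 2) * |ρ - r|)) * ‖N k r‖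
            ≤ B * (min 1 (XX k ^ 2 * r) * Real.exp (-(XX k ^ 2 / 2) * |ρ - r|)) *
              (M * W.κ (XX k) r * ew r (XX k)) := mul_le_mul_of_nonneg_left h1 (by positivity)
          _ = (B * M * W.κ (XX k) r * min 1 (XX k ^ 2 * r)) *
              (Real.exp (-(XX k ^ 2 / 2) * |ρ - r|) * ew r (XX k)) := by ring
          _ ≤ (B * M * W.κ (XX k) r * min 1 (XX k ^ 2 * r)) *
              (Real.exp 1 * (Real.exp (-(XX k ^ 2 / 4) * |ρ - r|) * ew ρ (XX k))) :=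
              mul_le_mul_of_nonneg_left h2 (by positivity)
          _ = _ := by ring)
    rw [integral_const_mul] at h
    refine h.trans ?_
    have h3 := W.time_le _ ρ hX hρ
    have hB0 := hB.pos
    have h4 := mul_le_mul_of_nonneg_left h3 (show 0 ≤ B * Real.exp 1 * M * ew ρ (XX k) by
      have := (ew_pos ρ (XX k)).le
      positivity)
    refine h4.trans (le_of_eq (by ring))
  sym k hk ρ hρ := GG_sym hN hk hρ

variable (R) in
/-- Picard iterates -/
noncomputable def pic (F : ℂ → ℝ → ℂ) : ℕ → ℂ → ℝ → ℂ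
  | 0 => F
  | n + 1 => fun k ρ => F k ρ + GG R (cv (pic F n) (pic F n)) k ρ

variable (R) in
/-- the limit -/
noncomputable def picL (F : ℂ → ℝ → ℂ) (k : ℂ) (ρ : ℝ) : ℂ :=
  F k ρ + ∑' n : ℕ, (pic R F (n + 1) k ρ - pic R F n k ρ)

section picard

variable {B M : ℝ} {F : ℂ → ℝ → ℂ}

lemma pic_cls (hB : KB W B) (hM : 0 ≤ M) (hsmall : 8 * (B * Real.exp 1 * W.A) * M ≤ 1)
    (hF : Cls R (fun X _ => M * W.m X) F) (n : ℕ) : Cls R (fun X _ => (2 * M) * W.m X) (pic R F n) := by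
  have hB0 := hB.pos
  have hA0 := W.A_pos
  induction n with
  | zero =>
    refine hF.mono fun X ρ hX _ => ?_
    have := W.m_pos X hX
    nlinarith
  | succ n ih =>
    have h1 := Cls.green hB (by positivity) (Cls.conv W (by positivity) (by positivity) ih ih)
    refine (hF.add h1).mono fun X ρ hX _ => ?_
    have hm := W.m_pos X hX
    have e : M * W.m X + B * Real.exp 1 * W.A * (2 * M * (2 * M)) * W.m X =
      (M + (B * Real.exp 1 * W.A * M) * (4 * M)) * W.m X := by ring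
    rw [e]
    refine mul_le_mul_of_nonneg_right ?_ hm.le
    nlinarith

lemma cv_sub_left {M₁ M₂ : ℝ} {v w : ℂ → ℝ → ℂ}
    (hv : Cls R (fun X _ => M₁ * W.m X) v) (hw : Cls R (fun X _ => M₂ * W.m X) w)
    {k : ℂ} (hk : k ∈ strip) {ρ : ℝ} (hρ : ρ ∈ Ioo 0 R) :
    cv v v k ρ - cv w w k ρ = cv (fun k ρ => v k ρ - w k ρ) v k ρ + cv w (fun k ρ => v k ρ - w k ρ) k ρ := by
  have hint : ∀ {M₁ M₂ : ℝ} {v w : ℂ → ℝ → ℂ} (_ : Cls R (fun X _ => M₁ * W.m X) v)
      (_ : Cls R (fun X _ => M₂ * W.m X) w), Integrable (fun l : ℝ => v (k - l) ρ * w l ρ) := by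
    intro M₁ M₂ v w hv hw
    exact Integrable.mono' ((W.conv_int k.re hρ.1).const_mul (M₁ * M₂))
      (conv_meas W hv hw hk hρ).aestronglyMeasurable
      (Eventually.of_forall fun l => conv_dom W hv hw hk hρ l)
  have hd : Cls R (fun X _ => (M₁ + M₂) * W.m X) (fun k ρ => v k ρ - w k ρ) := by
    have := hv.sub hw
    simpa only [add_mul] using this
  unfold cv
  rw [← integral_sub (hint hv hv) (hint hw hw), ← integral_add (hint hd hv) (hint hw hd)]
  congr 1; funext l; ring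

/-- the difference estimate for the Green operator applied to squares -/
lemma green_diff (hB : KB W B) {M₁ M₂ δ : ℝ} (hM₁ : 0 ≤ M₁) (hM₂ : 0 ≤ M₂) (hδ : 0 ≤ δ) {v w : ℂ → ℝ → ℂ}
    (hv : Cls R (fun X _ => M₁ * W.m X) v) (hw : Cls R (fun X _ => M₂ * W.m X) w)
    (hd : Cls R (fun X _ => δ * W.m X) (fun k ρ => v k ρ - w k ρ)) :
    Cls R (fun X _ => (B * Real.exp 1 * W.A * (δ * (M₁ + M₂))) * W.m X)
      (fun k ρ => GG R (cv v v) k ρ - GG R (cv w w) k ρ) := by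
  have hvv := Cls.conv W hM₁ hM₁ hv hv
  have hww := Cls.conv W hM₂ hM₂ hw hw
  have h1 := Cls.conv W hδ hM₁ hd hv
  have h2 := Cls.conv W hM₂ hδ hw hd
  have hN : Cls R (fun X r => (δ * (M₁ + M₂)) * W.κ X r) (fun k ρ => cv v v k ρ - cv w w k ρ) := by
    have h3 := h1.add h2
    have hs := hvv.sub hww
    refine ⟨hs.cont, hs.hol, fun k hk ρ hρ => ?_, hs.sym⟩
    rw [cv_sub_left hv hw hk hρ]
    refine (h3.bd k hk ρ hρ).trans (le_of_eq (by ring))
  have hG := Cls.green hB (by positivity) hN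
  have hGs := (Cls.green hB (by positivity) hvv).sub (Cls.green hB (by positivity) hww)
  refine ⟨hGs.cont, hGs.hol, fun k hk ρ hρ => ?_, hGs.sym⟩
  have h4 := hG.bd k hk ρ hρ
  rw [GG_sub hvv (W.adm_mul _ (by positivity)) hww (W.adm_mul _ (by positivity)) hk hρ] at h4
  exact h4

lemma pic_diff (hB : KB W B) (hM : 0 ≤ M) (hsmall : 8 * (B * Real.exp 1 * W.A) * M ≤ 1)
    (hF : Cls R (fun X _ => M * W.m X) F) (n : ℕ) :
    Cls R (fun X _ => (M * (1 / 2) ^ n) * W.m X) (fun k ρ => pic R F (n + 1) k ρ - pic R F n k ρ) := by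
  have hB0 := hB.pos
  have hA0 := W.A_pos
  set c := B * Real.exp 1 * W.A with hc
  have hc0 : 0 < c := by positivity
  induction n with
  | zero =>
    have h1 := Cls.green hB (by positivity) (Cls.conv W hM hM hF hF)
    have e : (fun k ρ => pic R F (0 + 1) k ρ - pic R F 0 k ρ) = GG R (cv F F) := by
      funext k ρ
      simp only [pic]; ring
    rw [e]
    refine h1.mono fun X ρ hX _ => ?_
    have hm := W.m_pos X hX
    refine mul_le_mul_of_nonneg_right ?_ hm.le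
    rw [pow_zero, mul_one]
    nlinarith [mul_nonneg hc0.le hM]
  | succ n ih =>
    have h1 := pic_cls hB hM hsmall hF (n + 1)
    have h0 := pic_cls hB hM hsmall hF n
    have h2 := green_diff hB (by positivity) (by positivity) (by positivity) h1 h0 ih
    have e : (fun k ρ => pic R F (n + 1 + 1) k ρ - pic R F (n + 1) k ρ) =
        (fun k ρ => GG R (cv (pic R F (n + 1)) (pic R F (n + 1))) k ρ - GG R (cv (pic R F n) (pic R F n)) k ρ) := by
      funext k ρ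
      rw [pic, pic]; ring
    rw [e]
    refine h2.mono fun X ρ hX _ => ?_
    have hm := W.m_pos X hX
    refine mul_le_mul_of_nonneg_right ?_ hm.le
    rw [pow_succ]
    have h3 : 0 ≤ M * (1 / 2) ^ n := by positivity
    have : B * Real.exp 1 * W.A * (M * (1 / 2) ^ n * (2 * M + 2 * M)) = (8 * c * M) * (M * (1 / 2) ^ n) / 2 := by
      rw [hc]; ring
    rw [this]
    nlinarith

lemma geo_summable (M c : ℝ) : Summable (fun n : ℕ => M * (1 / 2 : ℝ) ^ n * c) :=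
  ((summable_geometric_two).mul_left M).mul_right c

lemma m_bdd_of (W : WData R) {ρ : ℝ} (hρ : 0 < ρ) : ∃ C, 0 ≤ C ∧ ∀ X, 1 ≤ X → W.m X * ew ρ X ≤ C := by
  obtain ⟨C, hC⟩ := W.m_sup ρ hρ
  exact ⟨|C|, abs_nonneg _, fun X hX => (hC X hX).trans (le_abs_self _)⟩

lemma ew_le_one {ρ X : ℝ} (hX : 1 ≤ X) : ew ρ X ≤ 1 := by
  unfold ew
  rw [Real.exp_le_one_iff]
  have := mul_nonneg (Real.sqrt_nonneg ρ) (by linarith : (0 : ℝ) ≤ X)
  linarith

lemma picL_cls (hB : KB W B) (hM : 0 ≤ M) (hsmall : 8 * (B * Real.exp 1 * W.A) * M ≤ 1)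
    (hF : Cls R (fun X _ => M * W.m X) F) : Cls R (fun X _ => (3 * M) * W.m X) (picL R F) := by
  have hd := pic_diff hB hM hsmall hF
  have hsum : ∀ k ∈ strip, ∀ ρ ∈ Ioo 0 R, Summable (fun n : ℕ => M * (1 / 2 : ℝ) ^ n * (W.m (XX k) * ew ρ (XX k))) :=
    fun k _ ρ _ => geo_summable _ _
  refine ⟨?_, ?_, ?_, ?_⟩
  · intro k hk
    refine (hF.cont k hk).add ?_
    refine continuousOn_tsum (u := fun n : ℕ => M * (1 / 2 : ℝ) ^ n * W.m (XX k)) (fun n => (hd n).cont k hk)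
      (geo_summable _ _) ?_
    intro n ρ hρ
    refine ((hd n).bd k hk ρ hρ).trans ?_
    have hX := one_le_XX k
    have := W.m_pos _ hX
    exact mul_le_of_le_one_right (by positivity) (ew_le_one hX)
  · intro ρ hρ
    obtain ⟨C, hC0, hC⟩ := m_bdd_of W hρ.1
    refine (hF.hol ρ hρ).add ?_
    refine differentiableOn_tsum_of_summable_norm (u := fun n : ℕ => M * (1 / 2 : ℝ) ^ n * C)
      (geo_summable _ _) (fun n => (hd n).hol ρ hρ) strip_open ?_
    intro n k hk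
    refine ((hd n).bd k hk ρ hρ).trans ?_
    have hX := one_le_XX k
    rw [mul_assoc]
    exact mul_le_mul_of_nonneg_left (hC _ hX) (by positivity)
  · intro k hk ρ hρ
    unfold picL
    have h1 : ‖∑' n : ℕ, (pic R F (n + 1) k ρ - pic R F n k ρ)‖ ≤
        ∑' n : ℕ, M * (1 / 2 : ℝ) ^ n * (W.m (XX k) * ew ρ (XX k)) :=
      tsum_of_norm_bounded (hsum k hk ρ hρ).hasSum (fun n => by
        refine ((hd n).bd k hk ρ hρ).trans (le_of_eq (by ring)))
    rw [tsum_mul_right, tsum_mul_left, tsum_geometric_two] at h1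
    refine (norm_add_le _ _).trans ((add_le_add (hF.bd k hk ρ hρ) h1).trans (le_of_eq (by ring)))
  · intro k hk ρ hρ
    unfold picL
    rw [map_add, ← hF.sym k hk ρ hρ, Complex.conj_tsum]
    congr 1
    congr 1; funext n
    exact (hd n).sym k hk ρ hρ

lemma picL_sub (hB : KB W B) (hM : 0 ≤ M) (hsmall : 8 * (B * Real.exp 1 * W.A) * M ≤ 1)
    (hF : Cls R (fun X _ => M * W.m X) F) (n : ℕ) :
    Cls R (fun X _ => (2 * M * (1 / 2) ^ n) * W.m X) (fun k ρ => picL R F k ρ - pic R F n k ρ) := by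
  have hd := pic_diff hB hM hsmall hF
  have hs := (picL_cls hB hM hsmall hF).sub (pic_cls hB hM hsmall hF n)
  refine ⟨hs.cont, hs.hol, fun k hk ρ hρ => ?_, hs.sym⟩
  have hsum : Summable (fun n : ℕ => (pic R F (n + 1) k ρ - pic R F n k ρ)) := by
    refine Summable.of_norm_bounded (geo_summable M (W.m (XX k) * ew ρ (XX k))) (fun n => ?_)
    refine ((hd n).bd k hk ρ hρ).trans (le_of_eq (by ring))
  have h2 : F k ρ + ∑ i ∈ Finset.range n, (pic R F (i + 1) k ρ - pic R F i k ρ) = pic R F n k ρ := by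
    rw [Finset.sum_range_sub (fun i => pic R F i k ρ)]
    simp only [pic]; ring
  have h3 := hsum.sum_add_tsum_nat_add n
  have h4 : picL R F k ρ - pic R F n k ρ = ∑' i : ℕ, (pic R F (i + n + 1) k ρ - pic R F (i + n) k ρ) := by
    unfold picL
    rw [← h3, ← h2]; ring
  rw [h4]
  have h5 : ‖∑' i : ℕ, (pic R F (i + n + 1) k ρ - pic R F (i + n) k ρ)‖ ≤
      ∑' i : ℕ, M * (1 / 2 : ℝ) ^ i * ((1 / 2 : ℝ) ^ n * (W.m (XX k) * ew ρ (XX k))) :=
    tsum_of_norm_bounded (geo_summable _ _).hasSum (fun i => by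
      refine ((hd (i + n)).bd k hk ρ hρ).trans (le_of_eq (by rw [pow_add]; ring)))
  rw [tsum_mul_right, tsum_mul_left, tsum_geometric_two] at h5
  refine h5.trans (le_of_eq (by ring))

/-- the fixed point equation -/
lemma picL_fix (hB : KB W B) (hM : 0 ≤ M) (hsmall : 8 * (B * Real.exp 1 * W.A) * M ≤ 1)
    (hF : Cls R (fun X _ => M * W.m X) F) {k : ℂ} (hk : k ∈ strip) {ρ : ℝ} (hρ : ρ ∈ Ioo 0 R) :
    picL R F k ρ = F k ρ + GG R (cv (picL R F) (picL R F)) k ρ := by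
  have hB0 := hB.pos
  have hA0 := W.A_pos
  have hL := picL_cls hB hM hsmall hF
  set w₀ := W.m (XX k) * ew ρ (XX k) with hw₀
  set c := B * Real.exp 1 * W.A with hc
  have key : ∀ n : ℕ, ‖picL R F k ρ - (F k ρ + GG R (cv (picL R F) (picL R F)) k ρ)‖ ≤
      (2 * M + c * (2 * M * (3 * M + 2 * M))) * w₀ * (1 / 2 : ℝ) ^ n := by
    intro n
    have h1 := (picL_sub hB hM hsmall hF (n + 1)).bd k hk ρ hρ
    have h2 := (green_diff hB (by positivity) (by positivity) (by positivity) hL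
      (pic_cls hB hM hsmall hF n) (picL_sub hB hM hsmall hF n)).bd k hk ρ hρ
    have e : picL R F k ρ - (F k ρ + GG R (cv (picL R F) (picL R F)) k ρ) =
      (picL R F k ρ - pic R F (n + 1) k ρ) -
        (GG R (cv (picL R F) (picL R F)) k ρ - GG R (cv (pic R F n) (pic R F n)) k ρ) := by
      rw [pic]; ring
    rw [e]
    refine (norm_sub_le _ _).trans ((add_le_add h1 h2).trans ?_)
    have hw0 : 0 ≤ w₀ := W.wnonneg ρ (one_le_XX k)
    have hp : (0 : ℝ) ≤ (1 / 2 : ℝ) ^ n := by positivity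
    have e2 : 2 * M * (1 / 2) ^ (n + 1) * W.m (XX k) * ew ρ (XX k) +
        B * Real.exp 1 * W.A * (2 * M * (1 / 2) ^ n * (3 * M + 2 * M)) * W.m (XX k) * ew ρ (XX k)
        = (M + c * (2 * M * (3 * M + 2 * M))) * w₀ * (1 / 2 : ℝ) ^ n := by
      rw [hw₀, hc, pow_succ]; ring
    rw [e2]
    have : (M + c * (2 * M * (3 * M + 2 * M))) ≤ (2 * M + c * (2 * M * (3 * M + 2 * M))) := by linarith
    gcongr
  have hlim : Tendsto (fun n : ℕ => (2 * M + c * (2 * M * (3 * M + 2 * M))) * w₀ * (1 / 2 : ℝ) ^ n) atTop (𝓝 0) := by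
    have := (tendsto_pow_atTop_nhds_zero_of_lt_one (by norm_num : (0 : ℝ) ≤ 1 / 2) (by norm_num)).const_mul
      ((2 * M + c * (2 * M * (3 * M + 2 * M))) * w₀)
    simpa using this
  have h0 : ‖picL R F k ρ - (F k ρ + GG R (cv (picL R F) (picL R F)) k ρ)‖ ≤ 0 :=
    ge_of_tendsto hlim (Eventually.of_forall key)
  exact sub_eq_zero.1 (norm_le_zero_iff.1 h0)

end picard

end Pool.Agent.R206.Bous
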