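import Pool.Agent.R206.Bous.Wone

/-! Regularity of functions given by oscillatory integrals. -/

namespace Pool.Agent.R206.Bous

open MeasureTheory Set Filter Topology
open scoped ContDiff

/-- frequency functions with exponential decay, locally uniformly in time -/
structure Good (T : ℝ) (f : ℝ → ℝ → ℂ) : Prop where
  meas : ∀ t ∈ Ioo (-1) T, AEStronglyMeasurable (fun k => f k t) volume
  bd : ∀ t₀ t₁ : ℝ, -1 < t₀ → t₁ < T → ∃ C c : ℝ, 0 ≤ C ∧ 0 < c ∧ ∀ k, ∀ t ∈ Icc t₀ t₁,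
    ‖f k t‖ ≤ C * Real.exp (-(c * |k|))

/-- the physical space function -/
noncomputable def U (f : ℝ → ℝ → ℂ) (p : ℝ × ℝ) : ℂ :=
  ∫ k : ℝ, f k p.2 * Complex.exp (Complex.I * k * p.1)

/-- the linear map with given components -/
noncomputable def Lam : (ℂ × ℂ) →L[ℝ] (ℝ × ℝ →L[ℝ] ℂ) :=
  (ContinuousLinearMap.smulRightL ℝ (ℝ × ℝ) ℂ (ContinuousLinearMap.fst ℝ ℝ ℝ)).comp
    (ContinuousLinearMap.fst ℝ ℂ ℂ) +
  (ContinuousLinearMap.smulRightL ℝ (ℝ × ℝ) ℂ (ContinuousLinearMap.snd ℝ ℝ ℝ)).comp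
    (ContinuousLinearMap.snd ℝ ℂ ℂ)

lemma Lam_apply (q : ℂ × ℂ) (h : ℝ × ℝ) : Lam q h = h.1 • q.1 + h.2 • q.2 := rfl

lemma norm_exp_I (k x : ℝ) : ‖Complex.exp (Complex.I * k * x)‖ = 1 := by
  rw [mul_assoc, mul_comm, ← Complex.ofReal_mul, Complex.norm_exp_ofReal_mul_I]

variable {T : ℝ} {f g : ℝ → ℝ → ℂ}

lemma Good.mulk (hf : Good T f) : Good T (fun k t => Complex.I * k * f k t) where
  meas t ht := ((by fun_prop : Continuous fun k : ℝ => Complex.I * (k : ℂ)).aestronglyMeasurable).mul (hf.meas t ht)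
  bd t₀ t₁ h0 h1 := by
    obtain ⟨C, c, hC, hc, h⟩ := hf.bd t₀ t₁ h0 h1
    refine ⟨C * (1 / (c / 2)), c / 2, by positivity, by positivity, fun k t ht => ?_⟩
    rw [norm_mul, norm_mul, Complex.norm_I, one_mul, Complex.norm_real, Real.norm_eq_abs]
    refine (mul_le_mul_of_nonneg_left (h k t ht) (abs_nonneg k)).trans ?_
    rw [half_exp]
    have h3 := X_sup (s := c / 2) (by positivity) (abs_nonneg k)
    have h4 := Real.exp_pos (-(c / 2 * |k|))
    calc |k| * (C * (Real.exp (-(c / 2 * |k|)) * Real.exp (-(c / 2 * |k|))))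
        = C * (|k| * Real.exp (-(c / 2 * |k|))) * Real.exp (-(c / 2 * |k|)) := by ring
      _ ≤ C * (1 / (c / 2)) * Real.exp (-(c / 2 * |k|)) := by gcongr

lemma Good.add (hf : Good T f) (hg : Good T g) : Good T (fun k t => f k t + g k t) where
  meas t ht := (hf.meas t ht).add (hg.meas t ht)
  bd t₀ t₁ h0 h1 := by
    obtain ⟨C, c, hC, hc, h⟩ := hf.bd t₀ t₁ h0 h1
    obtain ⟨C', c', hC', hc', h'⟩ := hg.bd t₀ t₁ h0 h1
    refine ⟨C + C', min c c', by positivity, lt_min hc hc', fun k t ht => ?_⟩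
    refine (norm_add_le _ _).trans ?_
    rw [add_mul]
    refine add_le_add ((h k t ht).trans ?_) ((h' k t ht).trans ?_)
    · refine mul_le_mul_of_nonneg_left (Real.exp_le_exp.2 ?_) hC
      have := mul_le_mul_of_nonneg_right (min_le_left c c') (abs_nonneg k)
      linarith
    · refine mul_le_mul_of_nonneg_left (Real.exp_le_exp.2 ?_) hC'
      have := mul_le_mul_of_nonneg_right (min_le_right c c') (abs_nonneg k)
      linarith

lemma Good.mulI (hf : Good T f) (i : ℕ) : Good T (fun k t => (Complex.I * k) ^ i * f k t) := by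
  induction i with
  | zero => simpa using hf
  | succ i ih =>
    have := ih.mulk
    refine ⟨fun t ht => ?_, fun t₀ t₁ h0 h1 => ?_⟩
    · refine (this.meas t ht).congr (Eventually.of_forall fun k => ?_)
      simp only [pow_succ]; ring
    · obtain ⟨C, c, hC, hc, h⟩ := this.bd t₀ t₁ h0 h1
      refine ⟨C, c, hC, hc, fun k t ht => ?_⟩
      have := h k t ht
      rwa [show Complex.I * (k : ℂ) * ((Complex.I * k) ^ i * f k t) = (Complex.I * k) ^ (i + 1) * f k t by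
        rw [pow_succ]; ring] at this

lemma Good.integrable (hf : Good T f) {t : ℝ} (ht : t ∈ Ioo (-1) T) : Integrable (fun k => f k t) := by
  obtain ⟨C, c, hC, hc, h⟩ := hf.bd t t ht.1 ht.2
  exact Integrable.mono' ((exp_abs_int hc).const_mul C) (hf.meas t ht)
    (Eventually.of_forall fun k => h k t ⟨le_rfl, le_rfl⟩)

lemma Good.integrable_exp (hf : Good T f) {p : ℝ × ℝ} (hp : p.2 ∈ Ioo (-1) T) :
    Integrable (fun k : ℝ => f k p.2 * Complex.exp (Complex.I * k * p.1)) := by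
  refine (hf.integrable hp).mono ?_ (Eventually.of_forall fun k => ?_)
  · exact (hf.meas _ hp).mul (by fun_prop : Continuous fun k : ℝ => Complex.exp (Complex.I * k * p.1)).aestronglyMeasurable
  · rw [norm_mul, norm_exp_I, mul_one]

lemma U_hasFDerivAt {ft : ℝ → ℝ → ℂ} (hf : Good T f) (hft : Good T ft)
    (hd : ∀ k : ℝ, ∀ t ∈ Ioo (-1) T, HasDerivAt (f k) (ft k t) t) {p : ℝ × ℝ} (hp : p.2 ∈ Ioo (-1) T) :
    HasFDerivAt (U f) (Lam (U (fun k t => Complex.I * k * f k t) p, U ft p)) p := by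
  have hk := hf.mulk
  set t₀ := (-1 + p.2) / 2 with ht₀
  set t₁ := (p.2 + T) / 2 with ht₁
  have h0 : -1 < t₀ := by rw [ht₀]; linarith [hp.1]
  have h1 : t₁ < T := by rw [ht₁]; linarith [hp.2]
  have h0' : t₀ < p.2 := by rw [ht₀]; linarith [hp.1]
  have h1' : p.2 < t₁ := by rw [ht₁]; linarith [hp.2]
  obtain ⟨C, c, hC, hc, hb⟩ := hk.bd t₀ t₁ h0 h1
  obtain ⟨C', c', hC', hc', hb'⟩ := hft.bd t₀ t₁ h0 h1
  have hs : (univ ×ˢ Ioo t₀ t₁ : Set (ℝ × ℝ)) ∈ 𝓝 p :=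
    (isOpen_univ.prod isOpen_Ioo).mem_nhds ⟨mem_univ _, h0', h1'⟩
  have hsub : ∀ q ∈ (univ ×ˢ Ioo t₀ t₁ : Set (ℝ × ℝ)), q.2 ∈ Ioo (-1) T := fun q hq =>
    ⟨h0.trans hq.2.1, hq.2.2.trans h1⟩
  have key := hasFDerivAt_integral_of_dominated_of_fderiv_le (𝕜 := ℝ) (μ := (volume : Measure ℝ)) hs
    (F := fun (q : ℝ × ℝ) (k : ℝ) => f k q.2 * Complex.exp (Complex.I * k * q.1))
    (F' := fun (q : ℝ × ℝ) (k : ℝ) => Lam (Complex.I * k * f k q.2 * Complex.exp (Complex.I * k * q.1),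
      ft k q.2 * Complex.exp (Complex.I * k * q.1)))
    (bound := fun k => ‖Lam‖ * (C * Real.exp (-(c * |k|)) + C' * Real.exp (-(c' * |k|))))
    (by
      filter_upwards [hs] with q hq
      exact (hf.integrable_exp (hsub q hq)).aestronglyMeasurable)
    (hf.integrable_exp hp)
    (by
      exact Lam.continuous.comp_aestronglyMeasurable
        ((hk.integrable_exp hp).aestronglyMeasurable.prodMk (hft.integrable_exp hp).aestronglyMeasurable))
    (by
      refine Eventually.of_forall fun k q hq => ?_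
      refine (Lam.le_opNorm _).trans (mul_le_mul_of_nonneg_left ?_ (norm_nonneg _))
      have e1 := hb k q.2 ⟨hq.2.1.le, hq.2.2.le⟩
      have e2 := hb' k q.2 ⟨hq.2.1.le, hq.2.2.le⟩
      rw [Prod.norm_def]
      simp only [norm_mul _ (Complex.exp _), norm_exp_I, mul_one]
      refine max_le ?_ ?_
      · exact e1.trans (le_add_of_nonneg_right (by positivity))
      · exact e2.trans (le_add_of_nonneg_left (by positivity)))
    ((((exp_abs_int hc).const_mul C).add ((exp_abs_int hc').const_mul C')).const_mul _)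
    (by
      refine Eventually.of_forall fun k q hq => ?_
      have d1 : HasFDerivAt (fun q : ℝ × ℝ => f k q.2)
          ((ContinuousLinearMap.toSpanSingleton ℝ (ft k q.2)).comp (ContinuousLinearMap.snd ℝ ℝ ℝ)) q :=
        (hd k q.2 (hsub q hq)).hasFDerivAt.comp q hasFDerivAt_snd
      have d2 : HasDerivAt (fun x : ℝ => Complex.exp (Complex.I * k * x))
          (Complex.I * k * Complex.exp (Complex.I * k * q.1)) q.1 := by
        have e1 : HasDerivAt (fun x : ℝ => Complex.I * k * (x : ℂ)) (Complex.I * k * 1) q.1 :=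
          (hasDerivAt_id q.1).ofReal_comp.const_mul _
        exact e1.cexp.congr_deriv (by ring)
      have d3 : HasFDerivAt (fun q : ℝ × ℝ => Complex.exp (Complex.I * k * q.1))
          ((ContinuousLinearMap.toSpanSingleton ℝ (Complex.I * k * Complex.exp (Complex.I * k * q.1))).comp
            (ContinuousLinearMap.fst ℝ ℝ ℝ)) q :=
        d2.hasFDerivAt.comp q hasFDerivAt_fst
      refine (d1.mul d3).congr_fderiv ?_
      ext
      · simp [Lam_apply]; ring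
      · simp [Lam_apply]; ring)
  refine key.congr_fderiv ?_
  rw [ContinuousLinearMap.integral_comp_comm Lam (φ := fun k : ℝ =>
    (Complex.I * k * f k p.2 * Complex.exp (Complex.I * k * p.1), ft k p.2 * Complex.exp (Complex.I * k * p.1)))
    ((hk.integrable_exp hp).prodMk (hft.integrable_exp hp)),
    integral_pair (hk.integrable_exp hp) (hft.integrable_exp hp)]
  rfl

lemma U_hasDerivAt_x (hf : Good T f) {x t : ℝ} (ht : t ∈ Ioo (-1) T) :
    HasDerivAt (fun y => U f (y, t)) (U (fun k t => Complex.I * k * f k t) (x, t)) x := by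
  have hk := hf.mulk
  obtain ⟨C, c, hC, hc, hb⟩ := hk.bd t t ht.1 ht.2
  have key := hasDerivAt_integral_of_dominated_loc_of_deriv_le (𝕜 := ℝ) (μ := (volume : Measure ℝ))
    (s := univ) (x₀ := x) univ_mem
    (F := fun (y : ℝ) (k : ℝ) => f k t * Complex.exp (Complex.I * k * y))
    (F' := fun (y : ℝ) (k : ℝ) => Complex.I * k * f k t * Complex.exp (Complex.I * k * y))
    (bound := fun k => C * Real.exp (-(c * |k|)))
    (Eventually.of_forall fun y => (hf.integrable_exp (p := (y, t)) ht).aestronglyMeasurable)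
    (hf.integrable_exp (p := (x, t)) ht)
    (hk.integrable_exp (p := (x, t)) ht).aestronglyMeasurable
    (by
      refine Eventually.of_forall fun k y _ => ?_
      rw [norm_mul, norm_exp_I, mul_one]
      exact hb k t ⟨le_rfl, le_rfl⟩)
    ((exp_abs_int hc).const_mul C)
    (by
      refine Eventually.of_forall fun k y _ => ?_
      have e1 : HasDerivAt (fun x : ℝ => Complex.I * k * (x : ℂ)) (Complex.I * k * 1) y :=
        (hasDerivAt_id y).ofReal_comp.const_mul _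
      exact (e1.cexp.const_mul (f k t)).congr_deriv (by ring))
  exact key.2

/-! ### The differential algebra generated by the coefficients -/

/-- polynomial expressions, with a weight -/
inductive Fam (a b : ℕ → ℝ × ℝ → ℂ) : ℕ → (ℝ × ℝ → ℂ) → Prop
  | ga {i w : ℕ} (h : i ≤ w) : Fam a b w (a i)
  | gb {i w : ℕ} (h : i + 2 ≤ w) : Fam a b w (b i)
  | add {w : ℕ} {f g : ℝ × ℝ → ℂ} : Fam a b w f → Fam a b w g → Fam a b w (fun p => f p + g p)
  | mul {w₁ w₂ w : ℕ} {f g : ℝ × ℝ → ℂ} (h : w₁ + w₂ ≤ w) : Fam a b w₁ f → Fam a b w₂ g →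
      Fam a b w (fun p => f p * g p)

lemma Fam.mono {a b : ℕ → ℝ × ℝ → ℂ} {w : ℕ} {f : ℝ × ℝ → ℂ} (h : Fam a b w f) :
    ∀ {w' : ℕ}, w ≤ w' → Fam a b w' f := by
  induction h with
  | ga h => intro w' hw; exact Fam.ga (h.trans hw)
  | gb h => intro w' hw; exact Fam.gb (h.trans hw)
  | add _ _ ih1 ih2 => intro w' hw; exact Fam.add (ih1 hw) (ih2 hw)
  | mul h h1 h2 _ _ => intro w' hw; exact Fam.mul (h.trans hw) h1 h2

section algebra

variable {a b c : ℕ → ℝ × ℝ → ℂ} {Ω : Set ℝ}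

lemma fam_dx (ha : ∀ i (x : ℝ), ∀ t ∈ Ω, HasDerivAt (fun y => a i (y, t)) (a (i + 1) (x, t)) x)
    (hb : ∀ i (x : ℝ), ∀ t ∈ Ω, HasDerivAt (fun y => b i (y, t)) (b (i + 1) (x, t)) x)
    {w : ℕ} {f : ℝ × ℝ → ℂ} (h : Fam a b w f) :
    ∃ fx, Fam a b (w + 1) fx ∧ ∀ x : ℝ, ∀ t ∈ Ω, HasDerivAt (fun y => f (y, t)) (fx (x, t)) x := by
  induction h with
  | @ga i w h => exact ⟨a (i + 1), Fam.ga (by omega), ha i⟩
  | @gb i w h => exact ⟨b (i + 1), Fam.gb (by omega), hb i⟩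
  | add _ _ ih1 ih2 =>
    obtain ⟨fx, h1, h2⟩ := ih1
    obtain ⟨gx, h3, h4⟩ := ih2
    exact ⟨_, Fam.add h1 h3, fun x t ht => (h2 x t ht).add (h4 x t ht)⟩
  | @mul w₁ w₂ w f g h hf hg ih1 ih2 =>
    obtain ⟨fx, h1, h2⟩ := ih1
    obtain ⟨gx, h3, h4⟩ := ih2
    refine ⟨_, Fam.add (Fam.mul (w := w + 1) (by omega) h1 hg) (Fam.mul (w := w + 1) (by omega) hf h3),
      fun x t ht => ?_⟩
    exact (h2 x t ht).mul (h4 x t ht)

lemma fam_c (ha : ∀ i (x : ℝ), ∀ t ∈ Ω, HasDerivAt (fun y => a i (y, t)) (a (i + 1) (x, t)) x)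
    (hb : ∀ i (x : ℝ), ∀ t ∈ Ω, HasDerivAt (fun y => b i (y, t)) (b (i + 1) (x, t)) x)
    (hc : ∀ i (x : ℝ), ∀ t ∈ Ω, HasDerivAt (fun y => c i (y, t)) (c (i + 1) (x, t)) x)
    (hc0 : ∀ (x : ℝ), ∀ t ∈ Ω, c 0 (x, t) = a 0 (x, t) * a 0 (x, t)) (j : ℕ) :
    ∃ g, Fam a b j g ∧ ∀ (x : ℝ), ∀ t ∈ Ω, c j (x, t) = g (x, t) := by
  induction j with
  | zero => exact ⟨_, Fam.mul (w₁ := 0) (w₂ := 0) (le_refl 0) (Fam.ga (i := 0) le_rfl) (Fam.ga (i := 0) le_rfl), hc0⟩
  | succ j ih =>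
    obtain ⟨g, h1, h2⟩ := ih
    obtain ⟨gx, h3, h4⟩ := fam_dx ha hb h1
    refine ⟨gx, h3, fun x t ht => ?_⟩
    have e : (fun y => c j (y, t)) = fun y => g (y, t) := by funext y; exact h2 y t ht
    have h5 := hc j x t ht
    rw [e] at h5
    exact h5.unique (h4 x t ht)

/-- full derivatives -/
lemma fam_d (ha : ∀ i (x : ℝ), ∀ t ∈ Ω, HasFDerivAt (a i) (Lam (a (i + 1) (x, t), b i (x, t))) (x, t))
    (hb : ∀ i (x : ℝ), ∀ t ∈ Ω, HasFDerivAt (b i)
      (Lam (b (i + 1) (x, t), a (i + 4) (x, t) + a (i + 2) (x, t) + c (i + 2) (x, t))) (x, t))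
    (hcf : ∀ j, ∃ g, Fam a b j g ∧ ∀ (x : ℝ), ∀ t ∈ Ω, c j (x, t) = g (x, t))
    {w : ℕ} {f : ℝ × ℝ → ℂ} (h : Fam a b w f) :
    ∃ fx ft, Fam a b (w + 1) fx ∧ Fam a b (w + 2) ft ∧
      ∀ x : ℝ, ∀ t ∈ Ω, HasFDerivAt f (Lam (fx (x, t), ft (x, t))) (x, t) := by
  induction h with
  | @ga i w h => exact ⟨a (i + 1), b i, Fam.ga (by omega), Fam.gb (by omega), ha i⟩
  | @gb i w h =>
    obtain ⟨g, hg1, hg2⟩ := hcf (i + 2)
    refine ⟨b (i + 1), _, Fam.gb (by omega), Fam.add (Fam.add (Fam.ga (i := i + 4) (by omega))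
      (Fam.ga (i := i + 2) (by omega))) (hg1.mono (by omega)), fun x t ht => ?_⟩
    have := hb i x t ht
    rw [hg2 x t ht] at this
    exact this
  | add _ _ ih1 ih2 =>
    obtain ⟨fx, ft, h1, h1', h2⟩ := ih1
    obtain ⟨gx, gt, h3, h3', h4⟩ := ih2
    refine ⟨_, _, Fam.add h1 h3, Fam.add h1' h3', fun x t ht => ?_⟩
    refine ((h2 x t ht).add (h4 x t ht)).congr_fderiv ?_
    rw [← map_add]; rfl
  | @mul w₁ w₂ w f g h hf hg ih1 ih2 =>
    obtain ⟨fx, ft, h1, h1', h2⟩ := ih1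
    obtain ⟨gx, gt, h3, h3', h4⟩ := ih2
    refine ⟨_, _, Fam.add (Fam.mul (w := w + 1) (by omega) h1 hg) (Fam.mul (w := w + 1) (by omega) hf h3),
      Fam.add (Fam.mul (w := w + 2) (by omega) h1' hg) (Fam.mul (w := w + 2) (by omega) hf h3'),
      fun x t ht => ?_⟩
    refine ((h2 x t ht).mul (h4 x t ht)).congr_fderiv ?_
    ext
    · simp [Lam_apply]; ring
    · simp [Lam_apply]; ring

lemma fam_contDiff (hΩ : IsOpen Ω)
    (hd : ∀ {w : ℕ} {f : ℝ × ℝ → ℂ}, Fam a b w f → ∃ fx ft, Fam a b (w + 1) fx ∧ Fam a b (w + 2) ft ∧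
      ∀ x : ℝ, ∀ t ∈ Ω, HasFDerivAt f (Lam (fx (x, t), ft (x, t))) (x, t))
    (n : ℕ) : ∀ {w : ℕ} {f : ℝ × ℝ → ℂ}, Fam a b w f → ContDiffOn ℝ n f (univ ×ˢ Ω) := by
  induction n with
  | zero =>
    intro w f h
    obtain ⟨fx, ft, _, _, h3⟩ := hd h
    rw [Nat.cast_zero, contDiffOn_zero]
    rintro ⟨x, t⟩ ⟨_, ht⟩
    exact (h3 x t ht).continuousAt.continuousWithinAt
  | succ n ih =>
    intro w f h
    obtain ⟨fx, ft, h1, h2, h3⟩ := hd h
    rw [Nat.cast_succ, contDiffOn_succ_iff_fderiv_of_isOpen (isOpen_univ.prod hΩ)]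
    refine ⟨?_, by simp, ?_⟩
    · rintro ⟨x, t⟩ ⟨_, ht⟩
      exact (h3 x t ht).differentiableAt.differentiableWithinAt
    · have e : ContDiffOn ℝ n (fun p => Lam (fx p, ft p)) (univ ×ˢ Ω) :=
        Lam.contDiff.comp_contDiffOn ((ih h1).prodMk (ih h2))
      refine e.congr ?_
      rintro ⟨x, t⟩ ⟨_, ht⟩
      exact (h3 x t ht).fderiv

end algebra

end Pool.Agent.R206.Bous
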