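import Pool.Agent.R206.Bous.Sol

/-! Schwartz class solutions from frequency space solutions. -/

namespace Pool.Agent.R206.Bous

open MeasureTheory Set Filter Topology
open scoped ContDiff

section fsol

variable {T : ℝ} {W : WData (T + 1)} {M : ℝ} {v v' : ℂ → ℝ → ℂ}

/-- exponential decay of all space derivatives -/
lemma FSol.decay (h : FSol W M v v') (i : ℕ) {τ : ℝ} (hτ : τ < T) (hτ1 : -1 < τ) :
    ∃ C : ℝ, 0 ≤ C ∧ ∀ x : ℝ, ∀ t ∈ Ioc (-1) τ, ‖fa T v i (x, t)‖ ≤ C * Real.exp (-(1 / 2 * |x|)) := by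
  obtain ⟨C, hC, hb⟩ := kap_bd W (ρ₀ := T - τ) (by linarith) i
  have hs : 0 < Real.sqrt (T - τ) := Real.sqrt_pos.2 (by linarith)
  set c := Real.sqrt (T - τ) / 2 with hc
  have hc0 : 0 < c := by positivity
  have hM := h.hM
  refine ⟨M * C * (2 / c), by positivity, fun x t ht => ?_⟩
  have htm : t ∈ Ioo (-1) T := ⟨ht.1, lt_of_le_of_lt ht.2 hτ⟩
  have hρ := time_mem htm
  set G : ℂ → ℂ := fun ζ => (Complex.I * ζ) ^ i * v ζ (T - t) * Complex.exp (Complex.I * ζ * x) with hG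
  have hGd : DifferentiableOn ℂ G strip := by
    have h1 := h.cls.hol _ hρ
    have h2 : Differentiable ℂ (fun ζ : ℂ => (Complex.I * ζ) ^ i) := by fun_prop
    have h3 : Differentiable ℂ (fun ζ : ℂ => Complex.exp (Complex.I * ζ * x)) := by fun_prop
    exact (h2.differentiableOn.mul h1).mul h3.differentiableOn
  have hGb : ∀ ζ ∈ strip, ‖G ζ‖ ≤ M * C * Real.exp (-(c * XX ζ)) * Real.exp (-(ζ.im * x)) := by
    intro ζ hζ
    have hX := one_le_XX ζ
    have e1 : ‖ζ‖ ≤ XX ζ := by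
      refine (Complex.norm_le_abs_re_add_abs_im ζ).trans ?_
      have : |ζ.im| < 1 := hζ
      unfold XX; linarith
    have e2 := h.v_bd hζ hρ
    have e3 := hb (XX ζ) (T - t) hX hρ (by linarith [ht.2])
    rw [hG]
    simp only [norm_mul, norm_pow, Complex.norm_I, one_mul, Complex.norm_exp]
    have e4 : (Complex.I * ζ * x).re = -(ζ.im * x) := by simp
    rw [e4]
    refine mul_le_mul_of_nonneg_right ?_ (Real.exp_pos _).le
    calc ‖ζ‖ ^ i * ‖v ζ (T - t)‖ ≤ XX ζ ^ i * (M * (W.κ (XX ζ) (T - t) * ew (T - t) (XX ζ))) :=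
          mul_le_mul (pow_le_pow_left₀ (norm_nonneg _) e1 i) e2 (norm_nonneg _) (by positivity)
      _ = M * (XX ζ ^ i * W.κ (XX ζ) (T - t) * ew (T - t) (XX ζ)) := by ring
      _ ≤ M * (C * Real.exp (-(c * XX ζ))) := mul_le_mul_of_nonneg_left e3 hM
      _ = _ := by ring
  have hGb2 : ∀ ζ ∈ strip, ‖G ζ‖ ≤ (M * C * Real.exp |x|) * Real.exp (-(c * XX ζ)) := by
    intro ζ hζ
    refine (hGb ζ hζ).trans ?_
    have : Real.exp (-(ζ.im * x)) ≤ Real.exp |x| := by
      apply Real.exp_le_exp.2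
      have h1 : |ζ.im| < 1 := hζ
      have h2 : |-(ζ.im * x)| ≤ 1 * |x| := by
        rw [abs_neg, abs_mul]; exact mul_le_mul_of_nonneg_right h1.le (abs_nonneg x)
      have := le_abs_self (-(ζ.im * x))
      linarith
    calc M * C * Real.exp (-(c * XX ζ)) * Real.exp (-(ζ.im * x))
        ≤ M * C * Real.exp (-(c * XX ζ)) * Real.exp |x| := mul_le_mul_of_nonneg_left this (by positivity)
      _ = _ := by ring
  obtain ⟨η, hη, hηx⟩ : ∃ η : ℝ, |η| < 1 ∧ η * x = 1 / 2 * |x| := by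
    rcases le_total 0 x with hx | hx
    · exact ⟨1 / 2, by norm_num [abs_of_pos], by rw [abs_of_nonneg hx]⟩
    · exact ⟨-(1 / 2), by norm_num [abs_of_pos], by rw [abs_of_nonpos hx]; ring⟩
  have hsh := shift hGd (by positivity) hc0 hGb2 hη
  have e0 : fa T v i (x, t) = ∫ k : ℝ, G (k : ℂ) := by
    unfold fa U
    rw [hG]
  rw [e0, hsh]
  have hmem : ∀ k : ℝ, (k : ℂ) + η * Complex.I ∈ strip := by
    intro k; simpa [strip] using hη
  have hfin : ‖∫ k : ℝ, G (k + η * Complex.I)‖ ≤ ∫ k : ℝ, (M * C * Real.exp (-(1 / 2 * |x|))) * Real.exp (-(c * |k|)) := by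
    refine norm_integral_le_of_norm_le ((exp_abs_int hc0).const_mul _) (Eventually.of_forall fun k => ?_)
    refine (hGb _ (hmem k)).trans ?_
    have i1 : ((k : ℂ) + η * Complex.I).im = η := by simp
    rw [i1, hηx]
    have i2 : Real.exp (-(c * XX ((k : ℂ) + η * Complex.I))) ≤ Real.exp (-(c * |k|)) := by
      apply Real.exp_le_exp.2
      have : XX ((k : ℂ) + η * Complex.I) = 1 + |k| := by simp [XX]
      rw [this]; nlinarith [abs_nonneg k]
    calc M * C * Real.exp (-(c * XX ((k : ℂ) + η * Complex.I))) * Real.exp (-(1 / 2 * |x|))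
        ≤ M * C * Real.exp (-(c * |k|)) * Real.exp (-(1 / 2 * |x|)) := by gcongr
      _ = _ := by ring
  rw [integral_const_mul, exp_abs_val hc0] at hfin
  refine hfin.trans (le_of_eq (by ring))

lemma iter_family {c : ℕ → ℝ × ℝ → ℂ} {t : ℝ}
    (hc : ∀ i (x : ℝ), HasDerivAt (fun y => c i (y, t)) (c (i + 1) (x, t)) x) (i : ℕ) :
    iteratedDeriv i (fun y => (c 0 (y, t)).re) = fun x => (c i (x, t)).re := by
  induction i with
  | zero => simp
  | succ i ih =>
    rw [iteratedDeriv_succ, ih]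
    funext x
    have h1 := Complex.reCLM.hasFDerivAt.comp_hasDerivAt x (hc i x)
    exact h1.deriv

lemma hasDerivAt_t {f : ℝ × ℝ → ℂ} {x t : ℝ} {α β : ℂ} (h : HasFDerivAt f (Lam (α, β)) (x, t)) :
    HasDerivAt (fun s => (f (x, s)).re) β.re t := by
  have h1 : HasDerivAt (fun s : ℝ => (x, s)) ((0 : ℝ), (1 : ℝ)) t :=
    (hasDerivAt_const t x).prodMk (hasDerivAt_id t)
  have h2 := h.comp_hasDerivAt t h1
  have h3 := Complex.reCLM.hasFDerivAt.comp_hasDerivAt t h2
  refine h3.congr_deriv ?_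
  simp [Lam_apply]

/-- the physical space solution -/
noncomputable def usol (T : ℝ) (v : ℂ → ℝ → ℂ) (x t : ℝ) : ℝ := (fa T v 0 (x, t)).re

lemma FSol.usol_eq (h : FSol W M v v') (x : ℝ) {t : ℝ} (ht : t ∈ Ioo (-1) T) :
    fa T v 0 (x, t) = (usol T v x t : ℂ) := by
  unfold usol
  exact (Complex.conj_eq_iff_real.1 (h.conj_a 0 x ht)).elim fun r hr => by rw [hr]; simp

lemma FSol.usol_sq (h : FSol W M v v') (x : ℝ) {t : ℝ} (ht : t ∈ Ioo (-1) T) :
    (usol T v x t) ^ 2 = (fc T v 0 (x, t)).re := by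
  rw [h.c0 x ht, h.usol_eq x ht, ← Complex.ofReal_mul, Complex.ofReal_re]; ring

lemma poly_exp_bd (N : ℕ) (x : ℝ) : (1 + |x|) ^ N * Real.exp (-(1 / 2 * |x|)) ≤
    N.factorial / (1 / 2) ^ N * Real.exp (1 / 2) := by
  have h := pow_exp_le (c := 1 / 2) (by norm_num) (show (0 : ℝ) ≤ 1 + |x| by positivity) N
  have e : Real.exp (-(1 / 2 * |x|)) = Real.exp (-(1 / 2 * (1 + |x|))) * Real.exp (1 / 2) := by
    rw [← Real.exp_add]; congr 1; ring
  rw [e, ← mul_assoc]
  exact mul_le_mul_of_nonneg_right h (Real.exp_pos _).le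

theorem FSol.schwartz (h : FSol W M v v') (hT : 0 < T) : IsSchwartzSolution T (usol T v) where
  smooth := by
    rw [contDiffOn_infty]
    intro n
    have hcf := fam_c (Ω := Ioo (-1) T) (a := fa T v) (b := fb T v') (c := fc T v)
      (fun i x t ht => h.dax i x ht) (fun i x t ht => h.dbx i x ht) (fun i x t ht => h.dcx i x ht)
      (fun x t ht => h.c0 x ht)
    have h1 := fam_contDiff (Ω := Ioo (-1) T) (a := fa T v) (b := fb T v') isOpen_Ioo
      (fun hf => fam_d (fun i x t ht => h.da i x ht) (fun i x t ht => h.db i x ht) hcf hf) n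
      (Fam.ga (i := 0) (w := 0) le_rfl)
    have h2 : ContDiffOn ℝ n (fun p : ℝ × ℝ => (fa T v 0 p).re) (univ ×ˢ Ioo (-1) T) :=
      Complex.reCLM.contDiff.comp_contDiffOn h1
    exact h2.mono (prod_mono subset_rfl fun t ht => ⟨by linarith [ht.1], ht.2⟩)
  eqn x t ht := by
    have hsub : ∀ s ∈ Ico 0 T, s ∈ Ioo (-1) T := fun s hs => ⟨by linarith [hs.1], hs.2⟩
    have htm := hsub t ht
    have e1 : iteratedDeriv 2 (fun y => usol T v y t) x = (fa T v 2 (x, t)).re :=
      congrFun (iter_family (fun i x => h.dax i x htm) 2) x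
    have e4 : iteratedDeriv 4 (fun y => usol T v y t) x = (fa T v 4 (x, t)).re :=
      congrFun (iter_family (fun i x => h.dax i x htm) 4) x
    have e2 : iteratedDeriv 2 (fun y => (usol T v y t) ^ 2) x = (fc T v 2 (x, t)).re := by
      have : (fun y => (usol T v y t) ^ 2) = fun y => (fc T v 0 (y, t)).re := by
        funext y; exact h.usol_sq y htm
      rw [this]
      exact congrFun (iter_family (fun i x => h.dcx i x htm) 2) x
    have hud : UniqueDiffOn ℝ (Ico 0 T) := uniqueDiffOn_Ico 0 T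
    have d1 : ∀ s ∈ Ico 0 T, derivWithin (fun s => usol T v x s) (Ico 0 T) s = (fb T v' 0 (x, s)).re := by
      intro s hs
      exact ((hasDerivAt_t (h.da 0 x (hsub s hs))).hasDerivWithinAt).derivWithin (hud s hs)
    have d2 : iteratedDerivWithin 2 (fun s => usol T v x s) (Ico 0 T) t =
        (fa T v 4 (x, t) + fa T v 2 (x, t) + fc T v 2 (x, t)).re := by
      rw [show (2 : ℕ) = 1 + 1 from rfl, iteratedDerivWithin_succ]
      have : derivWithin (iteratedDerivWithin 1 (fun s => usol T v x s) (Ico 0 T)) (Ico 0 T) t =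
          derivWithin (fun s => (fb T v' 0 (x, s)).re) (Ico 0 T) t := by
        refine derivWithin_congr (fun s hs => ?_) ?_
        · rw [iteratedDerivWithin_one, d1 s hs]
        · rw [iteratedDerivWithin_one, d1 t ht]
      rw [this]
      exact ((hasDerivAt_t (h.db 0 x htm)).hasDerivWithinAt).derivWithin (hud t ht)
    rw [d2, e1, e2, e4]
    simp only [Complex.add_re]
    ring
  decay N τ hτ := by
    have hb : ∀ i : ℕ, ∃ C : ℝ, 0 ≤ C ∧ ∀ x : ℝ, ∀ t ∈ Ioc (-1) τ,
        ‖fa T v i (x, t)‖ ≤ C * Real.exp (-(1 / 2 * |x|)) := fun i =>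
      h.decay i hτ.2 (by linarith [hτ.1])
    choose C hC0 hC using hb
    refine ⟨∑ i ∈ Finset.range (N + 1), C i * (N.factorial / (1 / 2) ^ N * Real.exp (1 / 2)), fun x t ht => ?_⟩
    refine Finset.sum_le_sum fun i _ => ?_
    have htm : t ∈ Ioo (-1) T := ⟨by linarith [ht.1], lt_of_le_of_lt ht.2 hτ.2⟩
    have e1 : iteratedDeriv i (fun y => usol T v y t) x = (fa T v i (x, t)).re :=
      congrFun (iter_family (fun i x => h.dax i x htm) i) x
    rw [e1]
    have h1 := hC i x t ⟨by linarith [ht.1], ht.2⟩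
    have h2 := (Complex.abs_re_le_norm (fa T v i (x, t))).trans h1
    calc (1 + |x|) ^ N * |(fa T v i (x, t)).re| ≤ (1 + |x|) ^ N * (C i * Real.exp (-(1 / 2 * |x|))) :=
          mul_le_mul_of_nonneg_left h2 (by positivity)
      _ = C i * ((1 + |x|) ^ N * Real.exp (-(1 / 2 * |x|))) := by ring
      _ ≤ _ := mul_le_mul_of_nonneg_left (poly_exp_bd N x) (hC0 i)

end fsol

end Pool.Agent.R206.Bous
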