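import Pool.Agent.R206.Bous.Reg

/-! From frequency space solutions to Schwartz class solutions. -/

namespace Pool.Agent.R206.Bous

open MeasureTheory Set Filter Topology
open scoped ContDiff

/-- A Schwartz class solution of the bad Boussinesq equation
`u_tt = u_xx + (u^2)_xx + u_xxxx` on `ℝ × [0,T)`: smooth on `ℝ × [0,T)`, satisfies the equation
there (the time derivative at `t = 0` being one-sided), and all space derivatives decay rapidly,
uniformly for `t ∈ [0,τ]`, `τ < T`. -/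
structure IsSchwartzSolution (T : ℝ) (u : ℝ → ℝ → ℝ) : Prop where
  smooth : ContDiffOn ℝ ∞ (fun p : ℝ × ℝ => u p.1 p.2) (univ ×ˢ Ico 0 T)
  eqn : ∀ x : ℝ, ∀ t ∈ Ico 0 T,
    iteratedDerivWithin 2 (fun s => u x s) (Ico 0 T) t =
      iteratedDeriv 2 (fun y => u y t) x + iteratedDeriv 2 (fun y => (u y t) ^ 2) x
        + iteratedDeriv 4 (fun y => u y t) x
  decay : ∀ N : ℕ, ∀ τ ∈ Ico 0 T, ∃ C : ℝ, ∀ x : ℝ, ∀ t ∈ Icc 0 τ,
    ∑ i ∈ Finset.range (N + 1), (1 + |x|) ^ N * |iteratedDeriv i (fun y => u y t) x| ≤ C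

section bounds

variable {R : ℝ}

lemma pow_exp_le {c X : ℝ} (hc : 0 < c) (hX : 0 ≤ X) (n : ℕ) :
    X ^ n * Real.exp (-(c * X)) ≤ n.factorial / c ^ n := by
  have h := Real.pow_div_factorial_le_exp (c * X) (by positivity) n
  have hf : (0 : ℝ) < n.factorial := by exact_mod_cast n.factorial_pos
  rw [div_le_iff₀ hf, mul_pow] at h
  rw [le_div_iff₀ (by positivity)]
  have h2 : Real.exp (c * X) * Real.exp (-(c * X)) = 1 := by rw [← Real.exp_add]; simp
  have h3 := mul_le_mul_of_nonneg_right h (Real.exp_pos (-(c * X))).le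
  calc X ^ n * Real.exp (-(c * X)) * c ^ n = c ^ n * X ^ n * Real.exp (-(c * X)) := by ring
    _ ≤ Real.exp (c * X) * (n.factorial : ℝ) * Real.exp (-(c * X)) := h3
    _ = (n.factorial : ℝ) * (Real.exp (c * X) * Real.exp (-(c * X))) := by ring
    _ = _ := by rw [h2, mul_one]

lemma kap_bd (W : WData R) {ρ₀ : ℝ} (h0 : 0 < ρ₀) (j : ℕ) : ∃ C : ℝ, 0 ≤ C ∧ ∀ X ρ, 1 ≤ X →
    ρ ∈ Ioo 0 R → ρ₀ ≤ ρ → X ^ j * W.κ X ρ * ew ρ X ≤ C * Real.exp (-(Real.sqrt ρ₀ / 2 * X)) := by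
  obtain ⟨C, a, hC, h⟩ := W.poly ρ₀ h0
  have hs : 0 < Real.sqrt ρ₀ := Real.sqrt_pos.2 h0
  refine ⟨C * ((j + a).factorial / (Real.sqrt ρ₀ / 2) ^ (j + a)), by positivity, fun X ρ hX hρ hle => ?_⟩
  have h1 := h X ρ hX hρ hle
  have h2 : ew ρ X ≤ ew ρ₀ X := ew_anti hle (by linarith)
  have h3 : ew ρ₀ X = Real.exp (-(Real.sqrt ρ₀ / 2 * X)) * Real.exp (-(Real.sqrt ρ₀ / 2 * X)) := half_exp _ _
  have h4 := pow_exp_le (c := Real.sqrt ρ₀ / 2) (by positivity) (by linarith : 0 ≤ X) (j + a)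
  have h5 := (ew_pos ρ X).le
  have h6 : 0 ≤ W.κ X ρ := W.κ_nonneg hX hρ
  calc X ^ j * W.κ X ρ * ew ρ X ≤ X ^ j * (C * X ^ a) * ew ρ₀ X := by gcongr
    _ = C * (X ^ (j + a) * Real.exp (-(Real.sqrt ρ₀ / 2 * X))) * Real.exp (-(Real.sqrt ρ₀ / 2 * X)) := by
        rw [h3, pow_add]; ring
    _ ≤ C * ((j + a).factorial / (Real.sqrt ρ₀ / 2) ^ (j + a)) * Real.exp (-(Real.sqrt ρ₀ / 2 * X)) := by
        gcongr

/-- interpolation -/
lemma interp {f f' f'' : ℝ → ℂ} {ρ h M₀ M₂ : ℝ} (hh : 0 < h)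
    (h1 : ∀ s ∈ Icc ρ (ρ + h), HasDerivAt f (f' s) s) (h2 : ∀ s ∈ Icc ρ (ρ + h), HasDerivAt f' (f'' s) s)
    (b0 : ∀ s ∈ Icc ρ (ρ + h), ‖f s‖ ≤ M₀) (b2 : ∀ s ∈ Icc ρ (ρ + h), ‖f'' s‖ ≤ M₂) :
    ‖f' ρ‖ ≤ 2 * M₀ / h + h * M₂ := by
  have hρ : ρ ∈ Icc ρ (ρ + h) := ⟨le_rfl, by linarith⟩
  have hρh : ρ + h ∈ Icc ρ (ρ + h) := ⟨by linarith, le_rfl⟩
  have hM2 : 0 ≤ M₂ := (norm_nonneg _).trans (b2 ρ hρ)
  have e1 : ∀ s ∈ Icc ρ (ρ + h), ‖f' s - f' ρ‖ ≤ M₂ * (s - ρ) :=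
    norm_image_sub_le_of_norm_deriv_le_segment' (fun x hx => (h2 x hx).hasDerivWithinAt)
      (fun x hx => b2 x ⟨hx.1, hx.2.le⟩)
  have e2 := norm_image_sub_le_of_norm_deriv_le_segment' (f := fun s => f s - (s : ℂ) * f' ρ)
    (f' := fun s => f' s - 1 * f' ρ) (a := ρ) (b := ρ + h) (C := M₂ * h)
    (fun x hx => ((h1 x hx).sub ((hasDerivAt_id x).ofReal_comp.mul_const (f' ρ))).hasDerivWithinAt)
    (fun x hx => by
      rw [one_mul]
      refine (e1 x ⟨hx.1, hx.2.le⟩).trans (mul_le_mul_of_nonneg_left (by linarith [hx.2]) hM2))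
    (ρ + h) hρh
  have e3 : (f (ρ + h) - ((ρ + h : ℝ) : ℂ) * f' ρ) - (f ρ - (ρ : ℂ) * f' ρ) = f (ρ + h) - f ρ - (h : ℂ) * f' ρ := by
    push_cast; ring
  rw [e3] at e2
  have e4 : ‖(h : ℂ) * f' ρ‖ ≤ M₀ + M₀ + M₂ * h * h := by
    have : (h : ℂ) * f' ρ = f (ρ + h) - f ρ - (f (ρ + h) - f ρ - (h : ℂ) * f' ρ) := by ring
    rw [this]
    refine (norm_sub_le _ _).trans (add_le_add ((norm_sub_le _ _).trans (add_le_add (b0 _ hρh) (b0 _ hρ))) ?_)
    have : ρ + h - ρ = h := by ring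
    rw [this] at e2
    exact e2
  rw [norm_mul, Complex.norm_real, Real.norm_eq_abs, abs_of_pos hh] at e4
  have : ‖f' ρ‖ ≤ (M₀ + M₀ + M₂ * h * h) / h := by
    rw [le_div_iff₀ hh]; linarith
  refine this.trans (le_of_eq ?_)
  field_simp
  ring

end bounds

/-- contour shift -/
lemma shift {G : ℂ → ℂ} (hG : DifferentiableOn ℂ G strip) {C c : ℝ} (hC : 0 ≤ C) (hc : 0 < c)
    (hb : ∀ ζ ∈ strip, ‖G ζ‖ ≤ C * Real.exp (-(c * XX ζ))) {η : ℝ} (hη : |η| < 1) :
    ∫ k : ℝ, G (k : ℂ) = ∫ k : ℝ, G (k + η * Complex.I) := by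
  set V : Set ℂ := {ζ : ℂ | |ζ.im| < 1} ∩ {ζ : ℂ | |ζ.re| < 1} with hV
  have hVo : IsOpen V := (isOpen_lt (continuous_abs.comp Complex.continuous_im) continuous_const).inter
    (isOpen_lt (continuous_abs.comp Complex.continuous_re) continuous_const)
  have hVc : Convex ℝ V := by
    have h1 : Convex ℝ {ζ : ℂ | |ζ.im| < 1} := by
      have : {ζ : ℂ | |ζ.im| < 1} = Complex.imCLM ⁻¹' (Ioo (-1) 1) := by
        ext ζ; simp [abs_lt]
      rw [this]
      exact (convex_Ioo (-1 : ℝ) 1).is_linear_preimage Complex.imCLM.isBoundedLinearMap.toIsLinearMap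
    have h2 : Convex ℝ {ζ : ℂ | |ζ.re| < 1} := by
      have : {ζ : ℂ | |ζ.re| < 1} = Complex.reCLM ⁻¹' (Ioo (-1) 1) := by
        ext ζ; simp [abs_lt]
      rw [this]
      exact (convex_Ioo (-1 : ℝ) 1).is_linear_preimage Complex.reCLM.isBoundedLinearMap.toIsLinearMap
    exact h1.inter h2
  have hadd : ∀ ζ ∈ V, ∀ k : ℝ, (k : ℂ) + ζ ∈ strip := by
    intro ζ hζ k
    have : |ζ.im| < 1 := hζ.1
    simpa [strip] using this
  have hcont : ∀ ζ ∈ V, Continuous (fun k : ℝ => G (k + ζ)) := fun ζ hζ =>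
    hG.continuousOn.comp_continuous (by fun_prop) (fun k => hadd ζ hζ k)
  set Φ : ℂ → ℂ := fun ζ => ∫ k : ℝ, G (k + ζ) with hΦ
  have hΦd : DifferentiableOn ℂ Φ V := by
    refine holInt (μ := volume) hVo (g := fun k : ℝ => C * Real.exp (-(c * |k|))) ((exp_abs_int hc).const_mul C)
      (fun ζ hζ => (hcont ζ hζ).aestronglyMeasurable) ?_ ?_
    · refine Eventually.of_forall fun k ζ hζ => (hb _ (hadd ζ hζ k)).trans ?_
      refine mul_le_mul_of_nonneg_left (Real.exp_le_exp.2 ?_) hC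
      have h1 : |ζ.re| < 1 := hζ.2
      have h2 : |k| ≤ XX ((k : ℂ) + ζ) := by
        unfold XX
        simp only [Complex.add_re, Complex.ofReal_re]
        have := abs_add_le (k + ζ.re) (-ζ.re)
        rw [add_neg_cancel_right, abs_neg] at this
        linarith
      have := mul_le_mul_of_nonneg_left h2 hc.le
      linarith
    · refine Eventually.of_forall fun k => ?_
      exact hG.comp (by fun_prop) (fun ζ hζ => hadd ζ hζ k)
  have htrans : ∀ ζ : ℂ, ∀ t : ℝ, Φ (ζ + t) = Φ ζ := by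
    intro ζ t
    simp only [hΦ]
    rw [← integral_add_right_eq_self (fun k : ℝ => G (k + ζ)) t]
    congr 1; funext k
    congr 1; push_cast; ring
  have hderiv : ∀ ζ ∈ V, deriv Φ ζ = 0 := by
    intro ζ hζ
    have h1 : HasDerivAt Φ (deriv Φ ζ) ζ := (hΦd.differentiableAt (hVo.mem_nhds hζ)).hasDerivAt
    have h2 : HasDerivAt (fun t : ℝ => ζ + (t : ℂ)) 1 0 := (hasDerivAt_id (0 : ℝ)).ofReal_comp.const_add ζ
    have h3 : HasDerivAt (fun t : ℝ => Φ (ζ + t)) (deriv Φ ζ * 1) 0 := by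
      have h1' : HasDerivAt Φ (deriv Φ ζ) (ζ + ((0 : ℝ) : ℂ)) := by simpa using h1
      exact h1'.comp (0 : ℝ) h2
    have h4 : (fun t : ℝ => Φ (ζ + t)) = fun _ => Φ ζ := by funext t; exact htrans ζ t
    rw [h4] at h3
    have := h3.unique (hasDerivAt_const (0 : ℝ) (Φ ζ))
    simpa using this
  have h0 : (0 : ℂ) ∈ V := by simp [hV]
  have hη' : (η * Complex.I : ℂ) ∈ V := by
    rw [hV]
    constructor
    · simpa using hη
    · simp
  have hconst := hVo.is_const_of_deriv_eq_zero hVc.isPreconnected hΦd hderiv h0 hη'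
  simp only [hΦ] at hconst
  simpa using hconst

/-! ### Frequency space solutions -/

/-- A solution in frequency space; `ρ` is the time to blow-up. -/
structure FSol {T : ℝ} (W : WData (T + 1)) (M : ℝ) (v v' : ℂ → ℝ → ℂ) : Prop where
  hM : 0 ≤ M
  cls : Cls (T + 1) (fun X _ => M * W.m X) v
  d1 : ∀ k ∈ strip, ∀ ρ ∈ Ioo 0 (T + 1), HasDerivAt (v k) (v' k ρ) ρ
  d2 : ∀ k ∈ strip, ∀ ρ ∈ Ioo 0 (T + 1), HasDerivAt (v' k) (zz k * v k ρ - k ^ 2 * cv v v k ρ) ρ

section fsol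

variable {T : ℝ} {W : WData (T + 1)} {M : ℝ} {v v' : ℂ → ℝ → ℂ}

lemma time_mem {t : ℝ} (ht : t ∈ Ioo (-1) T) : T - t ∈ Ioo 0 (T + 1) :=
  ⟨by linarith [ht.2], by linarith [ht.1]⟩

lemma FSol.v_bd (h : FSol W M v v') {k : ℂ} (hk : k ∈ strip) {ρ : ℝ} (hρ : ρ ∈ Ioo 0 (T + 1)) :
    ‖v k ρ‖ ≤ M * (W.κ (XX k) ρ * ew ρ (XX k)) := by
  refine (h.cls.bd k hk ρ hρ).trans ?_
  have h1 := W.m_le_κ (XX k) ρ (one_le_XX k) hρ
  have h2 := (ew_pos ρ (XX k)).le
  have h3 := h.hM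
  rw [mul_assoc]
  gcongr

lemma FSol.cv_cls (h : FSol W M v v') : Cls (T + 1) (fun X r => M * M * W.κ X r) (cv v v) :=
  Cls.conv W h.hM h.hM h.cls h.cls

lemma FSol.cv_bd (h : FSol W M v v') {k : ℂ} (hk : k ∈ strip) {ρ : ℝ} (hρ : ρ ∈ Ioo 0 (T + 1)) :
    ‖cv v v k ρ‖ ≤ M * M * (W.κ (XX k) ρ * ew ρ (XX k)) := by
  refine (h.cv_cls.bd k hk ρ hρ).trans (le_of_eq (by ring))

lemma norm_real_le (k : ℝ) : ‖(k : ℂ)‖ ≤ XX (k : ℂ) := by
  rw [Complex.norm_real, Real.norm_eq_abs, XX_real]; linarith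

lemma FSol.v2_bd (h : FSol W M v v') (k : ℝ) {ρ : ℝ} (hρ : ρ ∈ Ioo 0 (T + 1)) :
    ‖zz k * v k ρ - (k : ℂ) ^ 2 * cv v v k ρ‖ ≤
      (2 * M + M * M) * (XX (k : ℂ) ^ 4 * W.κ (XX k) ρ * ew ρ (XX k)) := by
  have hk := real_mem_strip k
  have hX := one_le_XX (k : ℂ)
  have hn := norm_real_le k
  have h1 := h.v_bd hk hρ
  have h2 := h.cv_bd hk hρ
  have h3 := W.κ_nonneg hX hρ
  have h4 := (ew_pos ρ (XX (k : ℂ))).le
  have hM := h.hM
  have hX2 : XX (k : ℂ) ^ 2 ≤ XX (k : ℂ) ^ 4 := pow_le_pow_right₀ hX (by norm_num)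
  have hz : ‖zz k‖ ≤ 2 * XX (k : ℂ) ^ 4 := by
    unfold zz
    refine (norm_sub_le _ _).trans ?_
    rw [norm_pow, norm_pow]
    have a1 := pow_le_pow_left₀ (norm_nonneg _) hn 4
    have a2 := pow_le_pow_left₀ (norm_nonneg _) hn 2
    linarith
  have hk2 : ‖(k : ℂ) ^ 2‖ ≤ XX (k : ℂ) ^ 4 := by
    rw [norm_pow]
    exact (pow_le_pow_left₀ (norm_nonneg _) hn 2).trans hX2
  refine (norm_sub_le _ _).trans ?_
  rw [norm_mul, norm_mul]
  calc ‖zz k‖ * ‖v k ρ‖ + ‖(k : ℂ) ^ 2‖ * ‖cv v v k ρ‖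
      ≤ 2 * XX (k : ℂ) ^ 4 * (M * (W.κ (XX k) ρ * ew ρ (XX k))) +
        XX (k : ℂ) ^ 4 * (M * M * (W.κ (XX k) ρ * ew ρ (XX k))) := by gcongr
    _ = _ := by ring

lemma exp_X_le {c : ℝ} (hc : 0 < c) (k : ℝ) : Real.exp (-(c * XX (k : ℂ))) ≤ Real.exp (-(c * |k|)) := by
  apply Real.exp_le_exp.2
  rw [XX_real]
  nlinarith [abs_nonneg k]

lemma FSol.good_v (h : FSol W M v v') : Good T (fun k t => v k (T - t)) where
  meas t ht := ((h.cls.hol _ (time_mem ht)).continuousOn.comp_continuous (by fun_prop)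
    (fun k => real_mem_strip k)).aestronglyMeasurable
  bd t₀ t₁ h0 h1 := by
    obtain ⟨C, hC, hb⟩ := kap_bd W (ρ₀ := T - t₁) (by linarith) 0
    have hs : 0 < Real.sqrt (T - t₁) := Real.sqrt_pos.2 (by linarith)
    refine ⟨M * C, Real.sqrt (T - t₁) / 2, mul_nonneg h.hM hC, by positivity, fun k t ht => ?_⟩
    have hρ : T - t ∈ Ioo 0 (T + 1) := ⟨by linarith [ht.2], by linarith [ht.1]⟩
    refine (h.v_bd (real_mem_strip k) hρ).trans ?_
    rw [mul_assoc]
    refine mul_le_mul_of_nonneg_left ?_ h.hM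
    have := hb (XX k) (T - t) (one_le_XX _) hρ (by linarith [ht.2])
    rw [pow_zero, one_mul] at this
    exact this.trans (mul_le_mul_of_nonneg_left (exp_X_le (by positivity) k) hC)

lemma FSol.good_cv (h : FSol W M v v') : Good T (fun k t => cv v v k (T - t)) where
  meas t ht := ((h.cv_cls.hol _ (time_mem ht)).continuousOn.comp_continuous (by fun_prop)
    (fun k => real_mem_strip k)).aestronglyMeasurable
  bd t₀ t₁ h0 h1 := by
    obtain ⟨C, hC, hb⟩ := kap_bd W (ρ₀ := T - t₁) (by linarith) 0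
    have hs : 0 < Real.sqrt (T - t₁) := Real.sqrt_pos.2 (by linarith)
    have hM := h.hM
    refine ⟨M * M * C, Real.sqrt (T - t₁) / 2, by positivity, by positivity, fun k t ht => ?_⟩
    have hρ : T - t ∈ Ioo 0 (T + 1) := ⟨by linarith [ht.2], by linarith [ht.1]⟩
    refine (h.cv_bd (real_mem_strip k) hρ).trans ?_
    rw [mul_assoc (M * M)]
    refine mul_le_mul_of_nonneg_left ?_ (by positivity)
    have := hb (XX k) (T - t) (one_le_XX _) hρ (by linarith [ht.2])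
    rw [pow_zero, one_mul] at this
    exact this.trans (mul_le_mul_of_nonneg_left (exp_X_le (by positivity) k) hC)

lemma FSol.good_v' (h : FSol W M v v') : Good T (fun k t => -v' k (T - t)) where
  meas t ht := by
    have hρ := time_mem ht
    set ρ := T - t with hρdef
    set δ := (T + 1 - ρ) / 2 with hδ
    have hδ0 : 0 < δ := by rw [hδ]; linarith [hρ.2]
    have hmem : ∀ n : ℕ, ρ + δ / ((n : ℝ) + 1) ∈ Ioo 0 (T + 1) := by
      intro n
      have h1 : 0 < δ / ((n : ℝ) + 1) := by positivity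
      have h2 : δ / ((n : ℝ) + 1) ≤ δ := div_le_self hδ0.le (by linarith [Nat.cast_nonneg (α := ℝ) n])
      exact ⟨by linarith [hρ.1], by rw [hδ] at h2; linarith [hρ.2]⟩
    have hseq : Tendsto (fun n : ℕ => ρ + δ / ((n : ℝ) + 1)) atTop (𝓝[≠] ρ) := by
      rw [tendsto_nhdsWithin_iff]
      constructor
      · have := (tendsto_one_div_add_atTop_nhds_zero_nat (𝕜 := ℝ)).const_mul δ
        have h2 := this.const_add ρ
        simpa [div_eq_mul_inv] using h2
      · refine Eventually.of_forall fun n => ?_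
        simp only [mem_compl_iff, mem_singleton_iff, add_eq_left]
        have : 0 < δ / ((n : ℝ) + 1) := by positivity
        exact this.ne'
    have hm : ∀ ρ' ∈ Ioo 0 (T + 1), AEStronglyMeasurable (fun k : ℝ => v k ρ') volume := fun ρ' hρ' =>
      ((h.cls.hol _ hρ').continuousOn.comp_continuous (by fun_prop)
        (fun k => real_mem_strip k)).aestronglyMeasurable
    refine AEStronglyMeasurable.neg ?_
    refine aestronglyMeasurable_of_tendsto_ae atTop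
      (f := fun (n : ℕ) (k : ℝ) => slope (v k) ρ (ρ + δ / ((n : ℝ) + 1))) ?_ ?_
    · intro n
      simp only [slope_def_module]
      exact ((hm _ (hmem n)).sub (hm ρ hρ)).const_smul _
    · exact Eventually.of_forall fun k =>
        (hasDerivAt_iff_tendsto_slope.1 (h.d1 k (real_mem_strip k) ρ hρ)).comp hseq
  bd t₀ t₁ h0 h1 := by
    obtain ⟨C, hC, hb⟩ := kap_bd W (ρ₀ := T - t₁) (by linarith) 4
    have hs : 0 < Real.sqrt (T - t₁) := Real.sqrt_pos.2 (by linarith)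
    have hM := h.hM
    set δ := (t₀ + 1) / 2 with hδ
    have hδ0 : 0 < δ := by rw [hδ]; linarith
    refine ⟨(2 * (M * C) / δ + δ * ((2 * M + M * M) * C)), Real.sqrt (T - t₁) / 2, by positivity, by positivity,
      fun k t ht => ?_⟩
    rw [norm_neg]
    have hX := one_le_XX (k : ℂ)
    have hmem : ∀ s ∈ Icc (T - t) (T - t + δ), s ∈ Ioo 0 (T + 1) := by
      intro s hs
      exact ⟨by linarith [hs.1, ht.2], by rw [hδ] at hs; linarith [hs.2, ht.1]⟩
    have hbd : ∀ s ∈ Icc (T - t) (T - t + δ), XX (k : ℂ) ^ 4 * W.κ (XX k) s * ew s (XX k) ≤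
        C * Real.exp (-(Real.sqrt (T - t₁) / 2 * XX (k : ℂ))) := fun s hs =>
      hb _ s hX (hmem s hs) (by linarith [hs.1, ht.2])
    have key := interp (f := v k) (f' := v' k) (f'' := fun s => zz k * v k s - (k : ℂ) ^ 2 * cv v v k s)
      (ρ := T - t) (h := δ) (M₀ := M * (C * Real.exp (-(Real.sqrt (T - t₁) / 2 * XX (k : ℂ)))))
      (M₂ := (2 * M + M * M) * (C * Real.exp (-(Real.sqrt (T - t₁) / 2 * XX (k : ℂ))))) hδ0
      (fun s hs => h.d1 k (real_mem_strip k) s (hmem s hs))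
      (fun s hs => h.d2 k (real_mem_strip k) s (hmem s hs))
      (fun s hs => by
        refine (h.v_bd (real_mem_strip k) (hmem s hs)).trans (mul_le_mul_of_nonneg_left ?_ hM)
        refine le_trans ?_ (hbd s hs)
        have h3 := W.κ_nonneg hX (hmem s hs)
        have h4 := (ew_pos s (XX (k : ℂ))).le
        have h5 : (1 : ℝ) ≤ XX (k : ℂ) ^ 4 := one_le_pow₀ hX
        rw [mul_assoc]
        exact le_mul_of_one_le_left (by positivity) h5)
      (fun s hs => (h.v2_bd k (hmem s hs)).trans (mul_le_mul_of_nonneg_left (hbd s hs) (by positivity)))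
    refine key.trans ?_
    have e := exp_X_le (c := Real.sqrt (T - t₁) / 2) (by positivity) k
    calc 2 * (M * (C * Real.exp (-(Real.sqrt (T - t₁) / 2 * XX (k : ℂ))))) / δ +
          δ * ((2 * M + M * M) * (C * Real.exp (-(Real.sqrt (T - t₁) / 2 * XX (k : ℂ)))))
        = (2 * (M * C) / δ + δ * ((2 * M + M * M) * C)) * Real.exp (-(Real.sqrt (T - t₁) / 2 * XX (k : ℂ))) := by ring
      _ ≤ _ := mul_le_mul_of_nonneg_left e (by positivity)

/-- coefficient families -/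
noncomputable def fa (T : ℝ) (v : ℂ → ℝ → ℂ) (i : ℕ) : ℝ × ℝ → ℂ :=
  U (fun k t => (Complex.I * k) ^ i * v k (T - t))
noncomputable def fb (T : ℝ) (v' : ℂ → ℝ → ℂ) (i : ℕ) : ℝ × ℝ → ℂ :=
  U (fun k t => (Complex.I * k) ^ i * -v' k (T - t))
noncomputable def fc (T : ℝ) (v : ℂ → ℝ → ℂ) (i : ℕ) : ℝ × ℝ → ℂ :=
  U (fun k t => (Complex.I * k) ^ i * cv v v k (T - t))

lemma U_congr {f g : ℝ → ℝ → ℂ} {p : ℝ × ℝ} (h : ∀ k, f k p.2 = g k p.2) : U f p = U g p := by
  unfold U; congr 1; funext k; rw [h k]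

lemma U_add {f g : ℝ → ℝ → ℂ} (hf : Good T f) (hg : Good T g) {p : ℝ × ℝ} (hp : p.2 ∈ Ioo (-1) T) :
    U (fun k t => f k t + g k t) p = U f p + U g p := by
  unfold U
  rw [← integral_add (hf.integrable_exp hp) (hg.integrable_exp hp)]
  congr 1; funext k; ring

lemma hasDerivAt_time {f f' : ℝ → ℂ} {t : ℝ} (h : HasDerivAt f (f' (T - t)) (T - t)) :
    HasDerivAt (fun t => f (T - t)) (-f' (T - t)) t := by
  have h1 : HasDerivAt (fun t : ℝ => T - t) (-1) t := by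
    simpa using (hasDerivAt_id t).const_sub T
  have h2 := h.scomp t h1
  exact h2.congr_deriv (by simp)

lemma FSol.da (h : FSol W M v v') (i : ℕ) (x : ℝ) {t : ℝ} (ht : t ∈ Ioo (-1) T) :
    HasFDerivAt (fa T v i) (Lam (fa T v (i + 1) (x, t), fb T v' i (x, t))) (x, t) := by
  have h1 := U_hasFDerivAt (T := T) (f := fun k t => (Complex.I * k) ^ i * v k (T - t))
    (ft := fun k t => (Complex.I * k) ^ i * -v' k (T - t)) (h.good_v.mulI i) (h.good_v'.mulI i)
    (fun k t ht => (hasDerivAt_time (h.d1 k (real_mem_strip k) _ (time_mem ht))).const_mul _)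
    (p := (x, t)) ht
  refine h1.congr_fderiv ?_
  congr 2
  unfold fa
  exact U_congr fun k => by rw [pow_succ]; ring

lemma FSol.db (h : FSol W M v v') (i : ℕ) (x : ℝ) {t : ℝ} (ht : t ∈ Ioo (-1) T) :
    HasFDerivAt (fb T v' i) (Lam (fb T v' (i + 1) (x, t),
      fa T v (i + 4) (x, t) + fa T v (i + 2) (x, t) + fc T v (i + 2) (x, t))) (x, t) := by
  have g1 := h.good_v.mulI (i + 4)
  have g2 := h.good_v.mulI (i + 2)
  have g3 := h.good_cv.mulI (i + 2)
  have h1 := U_hasFDerivAt (T := T) (f := fun k t => (Complex.I * k) ^ i * -v' k (T - t))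
    (ft := fun k t => (Complex.I * k) ^ (i + 4) * v k (T - t) + (Complex.I * k) ^ (i + 2) * v k (T - t)
      + (Complex.I * k) ^ (i + 2) * cv v v k (T - t)) (h.good_v'.mulI i) ((g1.add g2).add g3)
    (fun k t ht => by
      have e1 := hasDerivAt_time (f' := fun s => zz k * v k s - (k : ℂ) ^ 2 * cv v v k s)
        (h.d2 k (real_mem_strip k) _ (time_mem ht))
      refine (e1.neg.const_mul ((Complex.I * (k : ℂ)) ^ i)).congr_deriv ?_
      have e4 : (Complex.I * (k : ℂ)) ^ (i + 4) = (Complex.I * (k : ℂ)) ^ i * (k : ℂ) ^ 4 := by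
        rw [pow_add, mul_pow Complex.I _ 4, Complex.I_pow_four]; ring
      have e2 : (Complex.I * (k : ℂ)) ^ (i + 2) = -((Complex.I * (k : ℂ)) ^ i * (k : ℂ) ^ 2) := by
        rw [pow_add, mul_pow Complex.I _ 2, Complex.I_sq]; ring
      rw [e4, e2]
      unfold zz
      ring)
    (p := (x, t)) ht
  refine h1.congr_fderiv ?_
  congr 2
  · unfold fb
    exact U_congr fun k => by rw [pow_succ]; ring
  · unfold fa fc
    rw [U_add (g1.add g2) g3 (p := (x, t)) ht, U_add g1 g2 (p := (x, t)) ht]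

lemma FSol.dax (h : FSol W M v v') (i : ℕ) (x : ℝ) {t : ℝ} (ht : t ∈ Ioo (-1) T) :
    HasDerivAt (fun y => fa T v i (y, t)) (fa T v (i + 1) (x, t)) x := by
  have h1 := U_hasDerivAt_x (h.good_v.mulI i) (x := x) ht
  refine h1.congr_deriv ?_
  unfold fa
  exact U_congr fun k => by rw [pow_succ]; ring

lemma FSol.dbx (h : FSol W M v v') (i : ℕ) (x : ℝ) {t : ℝ} (ht : t ∈ Ioo (-1) T) :
    HasDerivAt (fun y => fb T v' i (y, t)) (fb T v' (i + 1) (x, t)) x := by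
  have h1 := U_hasDerivAt_x (h.good_v'.mulI i) (x := x) ht
  refine h1.congr_deriv ?_
  unfold fb
  exact U_congr fun k => by rw [pow_succ]; ring

lemma FSol.dcx (h : FSol W M v v') (i : ℕ) (x : ℝ) {t : ℝ} (ht : t ∈ Ioo (-1) T) :
    HasDerivAt (fun y => fc T v i (y, t)) (fc T v (i + 1) (x, t)) x := by
  have h1 := U_hasDerivAt_x (h.good_cv.mulI i) (x := x) ht
  refine h1.congr_deriv ?_
  unfold fc
  exact U_congr fun k => by rw [pow_succ]; ring

/-- the convolution theorem -/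
lemma FSol.c0 (h : FSol W M v v') (x : ℝ) {t : ℝ} (ht : t ∈ Ioo (-1) T) :
    fc T v 0 (x, t) = fa T v 0 (x, t) * fa T v 0 (x, t) := by
  have hi := h.good_v.integrable_exp (p := (x, t)) ht
  have key := integral_convolution (μ := (volume : Measure ℝ)) (ν := (volume : Measure ℝ))
    (ContinuousLinearMap.mul ℝ ℂ) hi hi
  have e1 : fa T v 0 (x, t) = ∫ k : ℝ, v k (T - t) * Complex.exp (Complex.I * k * x) := by
    unfold fa U; congr 1; funext k; simp
  have e2 : fc T v 0 (x, t) = ∫ k : ℝ, cv v v k (T - t) * Complex.exp (Complex.I * k * x) := by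
    unfold fc U; congr 1; funext k; simp
  rw [e1, e2]
  simp only [ContinuousLinearMap.mul_apply'] at key
  rw [← key]
  congr 1; funext k
  unfold cv
  rw [← integral_mul_const]
  simp only [convolution, ContinuousLinearMap.mul_apply']
  congr 1; funext l
  have e3 : Complex.exp (Complex.I * k * x) = Complex.exp (Complex.I * l * x) * Complex.exp (Complex.I * (((k - l : ℝ)) : ℂ) * x) := by
    rw [← Complex.exp_add]; congr 1; push_cast; ring
  rw [e3]
  push_cast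
  ring

/-- reality -/
lemma FSol.conj_a (h : FSol W M v v') (i : ℕ) (x : ℝ) {t : ℝ} (ht : t ∈ Ioo (-1) T) :
    starRingEnd ℂ (fa T v i (x, t)) = fa T v i (x, t) := by
  unfold fa U
  rw [← integral_conj, ← integral_neg_eq_self (fun k : ℝ => starRingEnd ℂ ((Complex.I * k) ^ i * v k (T - (x, t).2) *
    Complex.exp (Complex.I * k * ((x, t) : ℝ × ℝ).1)))]
  congr 1; funext k
  have hs := h.cls.sym k (real_mem_strip k) _ (time_mem ht)
  rw [Complex.conj_ofReal] at hs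
  rw [map_mul, map_mul, map_pow, map_mul, Complex.conj_I, Complex.conj_ofReal, ← Complex.exp_conj, map_mul, map_mul,
    Complex.conj_I, Complex.conj_ofReal, Complex.conj_ofReal, Complex.ofReal_neg, hs, Complex.conj_conj]
  congr 2
  · congr 1; ring
  · ring

end fsol

end Pool.Agent.R206.Bous
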