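import Pool.Agent.R206.Bous.Wsub

/-! The subcritical case: derivatives of weighted order `n = q + 1` unbounded at two points. -/

namespace Pool.Agent.R206.Bous

open MeasureTheory Set Filter Topology
open scoped ContDiff

variable {x₁ x₂ : ℝ}

/-- data -/
noncomputable def gq (n : ℕ) (x₁ x₂ : ℝ) (k : ℂ) : ℂ :=
  gg x₁ x₂ k * ((-(Complex.I * k)) ^ n / (4 + k ^ 2) ^ (n + 1))

lemma base_ne {k : ℂ} (hk : k ∈ strip) : (4 + k ^ 2 : ℂ) ≠ 0 := by
  intro h
  have := base_re hk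
  rw [h, Complex.zero_re] at this
  nlinarith [sq_nonneg k.re]

lemma gq_hol (n : ℕ) : DifferentiableOn ℂ (gq n x₁ x₂) strip := by
  unfold gq
  refine gg_hol.mul (DifferentiableOn.div (by fun_prop) (by fun_prop) (fun k hk => pow_ne_zero _ (base_ne hk)))

lemma gq_sym (n : ℕ) {k : ℂ} (hk : k ∈ strip) : gq n x₁ x₂ (-(starRingEnd ℂ k)) = starRingEnd ℂ (gq n x₁ x₂ k) := by
  unfold gq
  rw [map_mul, gg_sym hk, map_div₀, map_pow, map_pow, map_neg, map_mul, map_add, map_pow, map_ofNat, Complex.conj_I]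
  congr 2
  · congr 1; ring
  · congr 1; ring

lemma norm_le_XX {k : ℂ} (hk : k ∈ strip) : ‖k‖ ≤ XX k := by
  refine (Complex.norm_le_abs_re_add_abs_im k).trans ?_
  have : |k.im| < 1 := hk
  unfold XX; linarith

lemma gq_bd (n : ℕ) {k : ℂ} (hk : k ∈ strip) : ‖gq n x₁ x₂ k‖ ≤
    (3 * (Real.exp |x₁| + Real.exp |x₂|) * 2 ^ (n + 1)) * mp (n + 1) (XX k) := by
  unfold gq
  rw [norm_mul, norm_div, norm_pow, norm_pow, norm_neg, norm_mul, Complex.norm_I, one_mul]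
  have hX := one_le_XX k
  have h1 := gg_bd (x₁ := x₁) (x₂ := x₂) hk
  have h2 := norm_le_XX hk
  have h3 := norm_base_ge hk
  have h4 : (XX k ^ 2 / 2) ^ (n + 1) ≤ ‖(4 + k ^ 2 : ℂ)‖ ^ (n + 1) := pow_le_pow_left₀ (by positivity) h3 _
  have h5 : ‖k‖ ^ n / ‖(4 + k ^ 2 : ℂ)‖ ^ (n + 1) ≤ XX k ^ n / (XX k ^ 2 / 2) ^ (n + 1) :=
    div_le_div₀ (by positivity) (pow_le_pow_left₀ (norm_nonneg _) h2 n) (by positivity) h4
  refine (mul_le_mul h1 h5 (by positivity) (by positivity)).trans (le_of_eq ?_)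
  unfold mp
  rw [div_pow, ← pow_mul, show 2 * (n + 1) = n + (n + 1) + 1 by ring]
  rw [pow_succ (XX k) (n + (n + 1)), pow_add (XX k) n (n + 1)]
  field_simp

/-- real part of the main term of the `n`-th derivative at a blow-up point -/
lemma main_re2 (n : ℕ) {ε ρ k x : ℝ} (hx : x = x₁ ∨ x = x₂) :
    ((Complex.I * k) ^ n * F0 ε (gq n x₁ x₂) k ρ * Complex.exp (Complex.I * k * x)).re =
      (k ^ 2) ^ n / (4 + k ^ 2) ^ (n + 1) *
      (ε * Real.sqrt (4 + k ^ 2) * (1 + Real.cos (k * (x₁ - x₂))) * Real.exp (-(k ^ 2 * ρ))) := by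
  rw [← main_re hx, ← Complex.re_ofReal_mul]
  congr 1
  unfold F0 gq
  have e : (Complex.I * (k : ℂ)) ^ n * (-(Complex.I * (k : ℂ))) ^ n = ((k : ℂ) ^ 2) ^ n := by
    rw [← mul_pow]; congr 1; ring_nf; rw [Complex.I_sq]; ring
  push_cast
  rw [← e]
  ring

lemma log_int {D K : ℝ} (hD : 0 < D) (hK : 1 ≤ K) :
    Real.log K - 2 / D ≤ ∫ k in Ioc 1 K, (1 + Real.cos (k * D)) / k := by
  have hder : ∀ k ∈ uIcc 1 K, HasDerivAt (fun k => Real.log k + (Real.sin (k * D) + 1) / (k * D))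
      (1 / k + (D * Real.cos (k * D) * (k * D) - (Real.sin (k * D) + 1) * D) / (k * D) ^ 2) k := by
    intro k hk
    rw [uIcc_of_le hK] at hk
    have hk0 : 0 < k := by linarith [hk.1]
    have h1 : HasDerivAt (fun k : ℝ => k * D) D k := by simpa using (hasDerivAt_id k).mul_const D
    have h2 := (h1.sin.add_const 1).div h1 (by positivity)
    have h3 := (Real.hasDerivAt_log hk0.ne').add h2
    refine h3.congr_deriv ?_
    rw [one_div]; ring
  have hcont : ContinuousOn (fun k => 1 / k + (D * Real.cos (k * D) * (k * D) - (Real.sin (k * D) + 1) * D) / (k * D) ^ 2) (uIcc 1 K) := by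
    rw [uIcc_of_le hK]
    refine ContinuousOn.add ?_ ?_
    · exact continuousOn_const.div continuousOn_id (fun k hk => (show (0 : ℝ) < k by linarith [hk.1]).ne')
    · refine ContinuousOn.div (by fun_prop) (by fun_prop) (fun k hk => ?_)
      have : 0 < k := by linarith [hk.1]
      positivity
  have hint := intervalIntegral.integral_eq_sub_of_hasDerivAt hder hcont.intervalIntegrable
  rw [intervalIntegral.integral_of_le hK] at hint
  have hmono : ∫ k in Ioc 1 K, (1 / k + (D * Real.cos (k * D) * (k * D) - (Real.sin (k * D) + 1) * D) / (k * D) ^ 2) ≤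
      ∫ k in Ioc 1 K, (1 + Real.cos (k * D)) / k := by
    refine setIntegral_mono_on ?_ ?_ measurableSet_Ioc fun k hk => ?_
    · rw [uIcc_of_le hK] at hcont
      exact hcont.integrableOn_Icc.mono_set Ioc_subset_Icc_self
    · have : ContinuousOn (fun k => (1 + Real.cos (k * D)) / k) (Icc 1 K) :=
        ContinuousOn.div (by fun_prop) continuousOn_id (fun k hk => (show (0 : ℝ) < k by
          have h1k : (1 : ℝ) ≤ k := hk.1
          linarith).ne')
      exact this.integrableOn_Icc.mono_set Ioc_subset_Icc_self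
    · have hk0 : 0 < k := by linarith [hk.1]
      have e : (1 + Real.cos (k * D)) / k - (1 / k + (D * Real.cos (k * D) * (k * D) - (Real.sin (k * D) + 1) * D) / (k * D) ^ 2)
        = (Real.sin (k * D) + 1) / (k ^ 2 * D) := by
        field_simp
        ring
      have h1 : 0 ≤ (Real.sin (k * D) + 1) / (k ^ 2 * D) := by
        have := Real.neg_one_le_sin (k * D)
        exact div_nonneg (by linarith) (by positivity)
      linarith
  refine le_trans ?_ hmono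
  rw [hint]
  have h1 : 0 ≤ (Real.sin (K * D) + 1) / (K * D) := by
    have := Real.neg_one_le_sin (K * D)
    have : 0 < K := by linarith
    exact div_nonneg (by linarith) (by positivity)
  have h2 : (Real.sin (1 * D) + 1) / (1 * D) ≤ 2 / D := by
    rw [one_mul, div_le_div_iff_of_pos_right hD]
    have := Real.sin_le_one D
    linarith
  rw [Real.log_one]
  linarith

/-- lower bound for the main term of the `n`-th derivative -/
lemma main_lower2 (n : ℕ) {ε ρ x : ℝ} (hε : 0 < ε) (hρ : 0 < ρ) (hρ1 : ρ ≤ 1) (hx : x = x₁ ∨ x = x₂) (hne : x₁ ≠ x₂)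
    (hint : Integrable (fun k : ℝ => (Complex.I * k) ^ n * F0 ε (gq n x₁ x₂) k ρ * Complex.exp (Complex.I * k * x))) :
    ε * Real.exp (-1) / 5 ^ (n + 1) * (Real.log (1 / Real.sqrt ρ) - 2 / |x₁ - x₂|) ≤
      (∫ k : ℝ, (Complex.I * k) ^ n * F0 ε (gq n x₁ x₂) k ρ * Complex.exp (Complex.I * k * x)).re := by
  have hre' : (∫ k : ℝ, (Complex.I * k) ^ n * F0 ε (gq n x₁ x₂) k ρ * Complex.exp (Complex.I * k * x)).re =
      ∫ k : ℝ, ((Complex.I * k) ^ n * F0 ε (gq n x₁ x₂) k ρ * Complex.exp (Complex.I * k * x)).re := (integral_re hint).symm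
  have hint2 : Integrable (fun k : ℝ => ((Complex.I * k) ^ n * F0 ε (gq n x₁ x₂) k ρ * Complex.exp (Complex.I * k * x)).re) := hint.re
  rw [hre']
  simp only [main_re2 n hx] at hint2 ⊢
  set D := |x₁ - x₂| with hD
  have hD0 : 0 < D := abs_pos.2 (sub_ne_zero.2 hne)
  have hcos : ∀ k : ℝ, Real.cos (k * (x₁ - x₂)) = Real.cos (k * D) := by
    intro k
    rw [hD]
    rcases abs_choice (x₁ - x₂) with h | h
    · rw [h]
    · rw [h, ← Real.cos_neg]; congr 1; ring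
  simp only [hcos] at hint2 ⊢
  set K := 1 / Real.sqrt ρ with hK
  have hs : 0 < Real.sqrt ρ := Real.sqrt_pos.2 hρ
  have hK2 : K ^ 2 = 1 / ρ := by rw [hK, div_pow, one_pow, Real.sq_sqrt hρ.le]
  have hK1 : 1 ≤ K := by
    rw [hK, le_div_iff₀ hs, one_mul]
    exact Real.sqrt_le_one.2 hρ1
  have hnn : ∀ k : ℝ, 0 ≤ (k ^ 2) ^ n / (4 + k ^ 2) ^ (n + 1) *
      (ε * Real.sqrt (4 + k ^ 2) * (1 + Real.cos (k * D)) * Real.exp (-(k ^ 2 * ρ))) := by
    intro k
    have := Real.neg_one_le_cos (k * D)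
    have h1 : 0 ≤ 1 + Real.cos (k * D) := by linarith
    positivity
  have hstep : ∫ k in Ioc 1 K, ε * Real.exp (-1) / 5 ^ (n + 1) * ((1 + Real.cos (k * D)) / k) ≤
      ∫ k in Ioc 1 K, (k ^ 2) ^ n / (4 + k ^ 2) ^ (n + 1) *
      (ε * Real.sqrt (4 + k ^ 2) * (1 + Real.cos (k * D)) * Real.exp (-(k ^ 2 * ρ))) := by
    refine setIntegral_mono_on ?_ hint2.integrableOn measurableSet_Ioc fun k hk => ?_
    · have : ContinuousOn (fun k => ε * Real.exp (-1) / 5 ^ (n + 1) * ((1 + Real.cos (k * D)) / k)) (Icc 1 K) :=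
        continuousOn_const.mul (ContinuousOn.div (by fun_prop) continuousOn_id (fun k hk => (show (0 : ℝ) < k by
          have h1k : (1 : ℝ) ≤ k := hk.1
          linarith).ne'))
      exact this.integrableOn_Icc.mono_set Ioc_subset_Icc_self
    · have hk1 : 1 < k := hk.1
      have hk0 : 0 < k := by linarith
      have h1 : 0 ≤ 1 + Real.cos (k * D) := by linarith [Real.neg_one_le_cos (k * D)]
      have h2 : k ≤ Real.sqrt (4 + k ^ 2) := by
        apply Real.le_sqrt_of_sq_le; linarith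
      have h3 : Real.exp (-1) ≤ Real.exp (-(k ^ 2 * ρ)) := by
        apply Real.exp_le_exp.2
        have : k ^ 2 ≤ K ^ 2 := pow_le_pow_left₀ hk0.le hk.2 2
        rw [hK2] at this
        have h4 : k ^ 2 * ρ ≤ 1 / ρ * ρ := mul_le_mul_of_nonneg_right this hρ.le
        rw [one_div, inv_mul_cancel₀ hρ.ne'] at h4
        linarith
      have h5 : (4 + k ^ 2) ^ (n + 1) ≤ (5 * k ^ 2) ^ (n + 1) := by
        apply pow_le_pow_left₀ (by positivity)
        nlinarith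
      have h6 : 1 / (5 ^ (n + 1) * k ^ 2) ≤ (k ^ 2) ^ n / (4 + k ^ 2) ^ (n + 1) := by
        rw [div_le_div_iff₀ (by positivity) (by positivity), one_mul]
        refine h5.trans (le_of_eq ?_)
        rw [mul_pow, pow_succ (k ^ 2) n]; ring
      have h7 : 0 ≤ (k ^ 2) ^ n / (4 + k ^ 2) ^ (n + 1) := by positivity
      calc ε * Real.exp (-1) / 5 ^ (n + 1) * ((1 + Real.cos (k * D)) / k)
          = 1 / (5 ^ (n + 1) * k ^ 2) * (ε * k * (1 + Real.cos (k * D)) * Real.exp (-1)) := by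
            field_simp
        _ ≤ (k ^ 2) ^ n / (4 + k ^ 2) ^ (n + 1) * (ε * Real.sqrt (4 + k ^ 2) * (1 + Real.cos (k * D)) * Real.exp (-(k ^ 2 * ρ))) := by
            gcongr
  rw [integral_const_mul] at hstep
  have h5 := log_int hD0 hK1
  have h6 := mul_le_mul_of_nonneg_left h5 (by positivity : 0 ≤ ε * Real.exp (-1) / 5 ^ (n + 1))
  have h7 := setIntegral_le_integral hint2 (s := Ioc 1 K) (Eventually.of_forall hnn)
  exact h6.trans (hstep.trans h7)

section mixed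

variable {T : ℝ} {W : WData (T + 1)} {M : ℝ} {v v' : ℂ → ℝ → ℂ}

lemma FSol.fam (h : FSol W M v v') {w : ℕ} {f : ℝ × ℝ → ℂ} (hf : Fam (fa T v) (fb T v') w f) :
    ∃ fx ft, Fam (fa T v) (fb T v') (w + 1) fx ∧ Fam (fa T v) (fb T v') (w + 2) ft ∧
      ∀ x : ℝ, ∀ t ∈ Ioo (-1) T, HasFDerivAt f (Lam (fx (x, t), ft (x, t))) (x, t) := by
  have hcf := fam_c (Ω := Ioo (-1) T) (a := fa T v) (b := fb T v') (c := fc T v)
    (fun i x t ht => h.dax i x ht) (fun i x t ht => h.dbx i x ht) (fun i x t ht => h.dcx i x ht)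
    (fun x t ht => h.c0 x ht)
  exact fam_d (fun i x t ht => h.da i x ht) (fun i x t ht => h.db i x ht) hcf hf

lemma FSol.mixed_t (h : FSol W M v v') (q₂ : ℕ) :
    ∃ f, Fam (fa T v) (fb T v') (2 * q₂) f ∧ ∀ x : ℝ, ∀ t ∈ Ico 0 T,
      iteratedDerivWithin q₂ (fun s => usol T v x s) (Ico 0 T) t = (f (x, t)).re := by
  induction q₂ with
  | zero => exact ⟨fa T v 0, Fam.ga (by omega), fun x t _ => by simp [usol]⟩
  | succ j ih =>
    obtain ⟨f, hf, hfe⟩ := ih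
    obtain ⟨fx, ft, _, h2, h3⟩ := h.fam hf
    refine ⟨ft, h2, fun x t ht => ?_⟩
    have hud : UniqueDiffOn ℝ (Ico 0 T) := uniqueDiffOn_Ico 0 T
    rw [iteratedDerivWithin_succ]
    have e : derivWithin (iteratedDerivWithin j (fun s => usol T v x s) (Ico 0 T)) (Ico 0 T) t =
        derivWithin (fun s => (f (x, s)).re) (Ico 0 T) t :=
      derivWithin_congr (fun s hs => hfe x s hs) (hfe x t ht)
    rw [e]
    exact ((hasDerivAt_t (h3 x t ⟨by linarith [ht.1], ht.2⟩)).hasDerivWithinAt).derivWithin (hud t ht)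

lemma FSol.mixed_x (h : FSol W M v v') {w : ℕ} {f : ℝ × ℝ → ℂ} (hf : Fam (fa T v) (fb T v') w f) (q₁ : ℕ) :
    ∃ g, Fam (fa T v) (fb T v') (w + q₁) g ∧ ∀ t ∈ Ico 0 T,
      iteratedDeriv q₁ (fun y => (f (y, t)).re) = fun x => (g (x, t)).re := by
  induction q₁ with
  | zero => exact ⟨f, hf, fun t _ => by simp⟩
  | succ j ih =>
    obtain ⟨g, hg, hge⟩ := ih
    obtain ⟨gx, h1, h2⟩ := fam_dx (Ω := Ioo (-1) T) (fun i x t ht => h.dax i x ht) (fun i x t ht => h.dbx i x ht) hg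
    refine ⟨gx, h1, fun t ht => ?_⟩
    rw [iteratedDeriv_succ, hge t ht]
    funext x
    exact (Complex.reCLM.hasFDerivAt.comp_hasDerivAt x (h2 x t ⟨by linarith [ht.1], ht.2⟩)).deriv

lemma fam_bdd {a b : ℕ → ℝ × ℝ → ℂ} {Ω : Set (ℝ × ℝ)} {q : ℕ} (ha : ∀ i, i ≤ q → ∃ C : ℝ, ∀ p ∈ Ω, ‖a i p‖ ≤ C)
    (hb : ∀ i, i + 2 ≤ q → ∃ C : ℝ, ∀ p ∈ Ω, ‖b i p‖ ≤ C) {w : ℕ} {f : ℝ × ℝ → ℂ} (hf : Fam a b w f) :
    w ≤ q → ∃ C : ℝ, ∀ p ∈ Ω, ‖f p‖ ≤ C := by
  induction hf with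
  | ga h => intro hw; exact ha _ (by omega)
  | gb h => intro hw; exact hb _ (by omega)
  | add _ _ ih1 ih2 =>
    intro hw
    obtain ⟨C1, h1⟩ := ih1 hw
    obtain ⟨C2, h2⟩ := ih2 hw
    exact ⟨C1 + C2, fun p hp => (norm_add_le _ _).trans (add_le_add (h1 p hp) (h2 p hp))⟩
  | mul h _ _ ih1 ih2 =>
    intro hw
    obtain ⟨C1, h1⟩ := ih1 (by omega)
    obtain ⟨C2, h2⟩ := ih2 (by omega)
    refine ⟨C1 * C2, fun p hp => ?_⟩
    rw [norm_mul]
    exact mul_le_mul (h1 p hp) (h2 p hp) (norm_nonneg _) ((norm_nonneg _).trans (h1 p hp))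

end mixed

lemma pow_mp {i p j : ℕ} (h : i + j ≤ p) {X : ℝ} (hX : 1 ≤ X) : X ^ i * mp p X ≤ mp j X := by
  unfold mp
  have hX0 : 0 < X := by linarith
  rw [← div_eq_mul_inv, div_le_iff₀ (by positivity), inv_mul_eq_div, le_div_iff₀ (by positivity), ← pow_add]
  exact pow_le_pow_right₀ hX h

theorem subcritical {T : ℝ} (hT : 0 < T) (q : ℕ) (hne : x₁ ≠ x₂) : ∃ u : ℝ → ℝ → ℝ, IsSchwartzSolution T u ∧
    (∀ q₁ q₂ : ℕ, q₁ + 2 * q₂ ≤ q → ∃ C : ℝ, ∀ x : ℝ, ∀ t ∈ Ico 0 T,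
      |iteratedDeriv q₁ (fun y => iteratedDerivWithin q₂ (fun s => u y s) (Ico 0 T) t) x| ≤ C) ∧
    (∀ x, (x = x₁ ∨ x = x₂) → ∀ L : ℝ, ∃ τ : ℝ, 0 < τ ∧ τ < T ∧ ∀ t ∈ Ico τ T,
      L < iteratedDeriv (q + 1) (fun y => u y t) x) := by
  have hT1 : 0 < T + 1 := by linarith
  set W := W2 (T + 1) hT1 (q + 2) (by omega) with hW
  have hWm : W.m = mp (q + 2) := rfl
  have hWκ : W.κ = fun X _ => Cp (q + 2) * mp (q + 2) X := rfl
  obtain ⟨B, C₀, ε, hε, hex⟩ := exists_dsol W (g := gq (q + 1) x₁ x₂)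
    (Cg := 3 * (Real.exp |x₁| + Real.exp |x₂|) * 2 ^ (q + 1 + 1))
    (by positivity) (gq_hol _) (fun k hk => gq_bd _ hk) (fun k hk => gq_sym _ hk)
  obtain ⟨v, v', hd⟩ := hex ε hε le_rfl
  set M := 3 * (ε * (C₀ * (1 + B * Real.exp 1 * W.A))) with hMdef
  have hS : FSol W M v v' := hd.fsol
  have hM0 : 0 ≤ M := hS.hM
  have hB0 := hd.kb.pos
  have hC₀0 := hd.C₀_nonneg
  have hCp := Cp_ge (q + 2)
  have hvc := hS.cls
  have hcv := hS.cv_cls
  have hmem : ∀ t ∈ Ico 0 T, T - t ∈ Ioo 0 (T + 1) := fun t ht => ⟨by linarith [ht.2], by linarith [ht.1]⟩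
  have hmt : ∀ t ∈ Ico 0 T, t ∈ Ioo (-1) T := fun t ht => ⟨by linarith [ht.1], ht.2⟩
  -- uniform bounds
  have hvb : ∀ k : ℝ, ∀ ρ ∈ Ioo 0 (T + 1), ‖v k ρ‖ ≤ M * mp (q + 2) (XX (k : ℂ)) := by
    intro k ρ hρ
    refine (hvc.bd k (real_mem_strip k) ρ hρ).trans ?_
    have := mp_pos (q + 2) (one_le_XX (k : ℂ))
    rw [hWm]
    exact mul_le_of_le_one_right (by positivity) (ew_le_one (one_le_XX _))
  have hcvb : ∀ k : ℝ, ∀ ρ ∈ Ioo 0 (T + 1), ‖cv v v k ρ‖ ≤ M * M * (Cp (q + 2) * mp (q + 2) (XX (k : ℂ))) := by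
    intro k ρ hρ
    refine (hcv.bd k (real_mem_strip k) ρ hρ).trans ?_
    have := mp_pos (q + 2) (one_le_XX (k : ℂ))
    rw [hWκ]
    exact mul_le_of_le_one_right (by positivity) (ew_le_one (one_le_XX _))
  set M₂ := 2 * M + M * M * Cp (q + 2) with hM₂
  have hM₂0 : 0 ≤ M₂ := by positivity
  have hv2b : ∀ k : ℝ, ∀ ρ ∈ Ioo 0 (T + 1), ‖zz k * v k ρ - (k : ℂ) ^ 2 * cv v v k ρ‖ ≤
      M₂ * (XX (k : ℂ) ^ 4 * mp (q + 2) (XX (k : ℂ))) := by
    intro k ρ hρ
    have hX := one_le_XX (k : ℂ)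
    have hn := norm_real_le k
    have hmp := mp_pos (q + 2) hX
    have hX2 : XX (k : ℂ) ^ 2 ≤ XX (k : ℂ) ^ 4 := pow_le_pow_right₀ hX (by norm_num)
    have hz : ‖zz k‖ ≤ 2 * XX (k : ℂ) ^ 4 := by
      unfold zz
      refine (norm_sub_le _ _).trans ?_
      rw [norm_pow, norm_pow]
      have a1 := pow_le_pow_left₀ (norm_nonneg _) hn 4
      have a2 := pow_le_pow_left₀ (norm_nonneg _) hn 2
      linarith
    have hk2 : ‖(k : ℂ) ^ 2‖ ≤ XX (k : ℂ) ^ 4 := by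
      rw [norm_pow]
      exact (pow_le_pow_left₀ (norm_nonneg _) hn 2).trans hX2
    have h1 := hvb k ρ hρ
    have h2 := hcvb k ρ hρ
    refine (norm_sub_le _ _).trans ?_
    rw [norm_mul, norm_mul]
    calc ‖zz k‖ * ‖v k ρ‖ + ‖(k : ℂ) ^ 2‖ * ‖cv v v k ρ‖
        ≤ 2 * XX (k : ℂ) ^ 4 * (M * mp (q + 2) (XX (k : ℂ))) +
          XX (k : ℂ) ^ 4 * (M * M * (Cp (q + 2) * mp (q + 2) (XX (k : ℂ)))) := by gcongr
      _ = _ := by rw [hM₂]; ring
  set M₁ := 4 * M + M₂ / 2 with hM₁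
  have hM₁0 : 0 ≤ M₁ := by positivity
  have hv'b : ∀ k : ℝ, ∀ t ∈ Ico 0 T, ‖v' k (T - t)‖ ≤ M₁ * (XX (k : ℂ) ^ 2 * mp (q + 2) (XX (k : ℂ))) := by
    intro k t ht
    have hX := one_le_XX (k : ℂ)
    have hmp := mp_pos (q + 2) hX
    set h := 1 / (2 * XX (k : ℂ) ^ 2) with hh
    have hh0 : 0 < h := by positivity
    have hh1 : h ≤ 1 / 2 := by
      rw [hh]
      apply one_div_le_one_div_of_le (by norm_num)
      nlinarith
    have hmem2 : ∀ s ∈ Icc (T - t) (T - t + h), s ∈ Ioo 0 (T + 1) := by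
      intro s hs
      exact ⟨by linarith [hs.1, ht.2], by linarith [hs.2, ht.1]⟩
    have key := interp (f := v k) (f' := v' k) (f'' := fun s => zz k * v k s - (k : ℂ) ^ 2 * cv v v k s)
      (ρ := T - t) (h := h) (M₀ := M * mp (q + 2) (XX (k : ℂ)))
      (M₂ := M₂ * (XX (k : ℂ) ^ 4 * mp (q + 2) (XX (k : ℂ)))) hh0
      (fun s hs => hS.d1 k (real_mem_strip k) s (hmem2 s hs))
      (fun s hs => hS.d2 k (real_mem_strip k) s (hmem2 s hs))
      (fun s hs => hvb k s (hmem2 s hs))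
      (fun s hs => hv2b k s (hmem2 s hs))
    refine key.trans (le_of_eq ?_)
    have hX0 : XX (k : ℂ) ≠ 0 := by positivity
    rw [hh, hM₁]
    field_simp
    ring
  have hi2 : Integrable (fun k : ℝ => mp 2 (1 + |k|)) := mp_integrable le_rfl
  have ha_bd : ∀ i, i ≤ q → ∃ C : ℝ, ∀ p ∈ (univ ×ˢ Ico 0 T : Set (ℝ × ℝ)), ‖fa T v i p‖ ≤ C := by
    intro i hi
    refine ⟨∫ k : ℝ, M * mp 2 (1 + |k|), ?_⟩
    rintro ⟨x, t⟩ ⟨_, ht⟩
    refine norm_integral_le_of_norm_le (hi2.const_mul M) (Eventually.of_forall fun k => ?_)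
    rw [norm_mul, norm_exp_I, mul_one, norm_mul, norm_pow, norm_mul, Complex.norm_I, one_mul]
    have hX := one_le_XX (k : ℂ)
    have h1 := hvb k (T - t) (hmem t ht)
    have h2 := pow_le_pow_left₀ (norm_nonneg _) (norm_real_le k) i
    have h3 := pow_mp (i := i) (p := q + 2) (j := 2) (by omega) hX
    calc ‖(k : ℂ)‖ ^ i * ‖v k (T - (x, t).2)‖ ≤ XX (k : ℂ) ^ i * (M * mp (q + 2) (XX (k : ℂ))) :=
          mul_le_mul h2 h1 (norm_nonneg _) (by positivity)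
      _ = M * (XX (k : ℂ) ^ i * mp (q + 2) (XX (k : ℂ))) := by ring
      _ ≤ M * mp 2 (1 + |k|) := by rw [XX_real] at h3 ⊢; gcongr
  have hb_bd : ∀ i, i + 2 ≤ q → ∃ C : ℝ, ∀ p ∈ (univ ×ˢ Ico 0 T : Set (ℝ × ℝ)), ‖fb T v' i p‖ ≤ C := by
    intro i hi
    refine ⟨∫ k : ℝ, M₁ * mp 2 (1 + |k|), ?_⟩
    rintro ⟨x, t⟩ ⟨_, ht⟩
    refine norm_integral_le_of_norm_le (hi2.const_mul M₁) (Eventually.of_forall fun k => ?_)
    rw [norm_mul, norm_exp_I, mul_one, norm_mul, norm_pow, norm_mul, Complex.norm_I, one_mul, norm_neg]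
    have hX := one_le_XX (k : ℂ)
    have h1 := hv'b k t ht
    have h2 := pow_le_pow_left₀ (norm_nonneg _) (norm_real_le k) i
    have h3 := pow_mp (i := i + 2) (p := q + 2) (j := 2) (by omega) hX
    calc ‖(k : ℂ)‖ ^ i * ‖v' k (T - (x, t).2)‖ ≤ XX (k : ℂ) ^ i * (M₁ * (XX (k : ℂ) ^ 2 * mp (q + 2) (XX (k : ℂ)))) :=
          mul_le_mul h2 h1 (norm_nonneg _) (by positivity)
      _ = M₁ * (XX (k : ℂ) ^ (i + 2) * mp (q + 2) (XX (k : ℂ))) := by rw [pow_add]; ring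
      _ ≤ M₁ * mp 2 (1 + |k|) := by rw [XX_real] at h3 ⊢; gcongr
  refine ⟨usol T v, hS.schwartz hT, ?_, ?_⟩
  · intro q₁ q₂ hq
    obtain ⟨f, hf, hfe⟩ := hS.mixed_t q₂
    obtain ⟨g, hg, hge⟩ := hS.mixed_x hf q₁
    obtain ⟨C, hC⟩ := fam_bdd (Ω := (univ ×ˢ Ico 0 T : Set (ℝ × ℝ))) ha_bd hb_bd hg (by omega)
    refine ⟨C, fun x t ht => ?_⟩
    have e : (fun y => iteratedDerivWithin q₂ (fun s => usol T v y s) (Ico 0 T) t) = fun y => (f (y, t)).re := by
      funext y; exact hfe y t ht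
    rw [e, hge t ht]
    exact (Complex.abs_re_le_norm _).trans (hC (x, t) ⟨mem_univ _, ht⟩)
  · intro x hx L
    set C₄ := B * Real.exp 1 * (ε * C₀) * 8 + B * Real.exp 1 * (M * M * Cp (q + 2)) * 8 with hC₄
    have hC₄0 : 0 ≤ C₄ := by positivity
    -- error bound
    have herr : ∀ k : ℝ, ∀ ρ ∈ Ioo 0 (T + 1), ‖(Complex.I * k) ^ (q + 1) * (v k ρ - F0 ε (gq (q + 1) x₁ x₂) k ρ)‖ ≤
        C₄ * mp 2 (1 + |k|) := by
      intro k ρ hρ
      have hk := real_mem_strip k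
      have hX := one_le_XX (k : ℂ)
      have hmp := mp_pos (q + 2) hX
      rw [hd.fix k hk ρ hρ]
      have e1 : F0 ε (gq (q + 1) x₁ x₂) k ρ + GG (T + 1) (F0 ε (gq (q + 1) x₁ x₂)) k ρ + GG (T + 1) (cv v v) k ρ -
        F0 ε (gq (q + 1) x₁ x₂) k ρ = GG (T + 1) (F0 ε (gq (q + 1) x₁ x₂)) k ρ + GG (T + 1) (cv v v) k ρ := by ring
      rw [e1, norm_mul, norm_pow, norm_mul, Complex.norm_I, one_mul]
      have hcv2 : Cls (T + 1) (fun X _ => (M * M * Cp (q + 2)) * W.m X) (cv v v) :=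
        hcv.mono fun X ρ _ _ => le_of_eq (by rw [hWκ, hWm]; ring)
      have h1 := lin_corr hd.kb (by positivity) hd.f0 hk hρ
      have h2 := lin_corr hd.kb (by positivity) hcv2 hk hρ
      have h3 : ‖GG (T + 1) (F0 ε (gq (q + 1) x₁ x₂)) k ρ + GG (T + 1) (cv v v) k ρ‖ ≤
          C₄ * (mp (q + 2) (XX (k : ℂ)) / XX (k : ℂ) ^ 2) := by
        have hew := ew_le_one (ρ := ρ) hX
        have hew0 := (ew_pos ρ (XX (k : ℂ))).le
        refine (norm_add_le _ _).trans ((add_le_add h1 h2).trans ?_)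
        rw [hWm]
        calc B * Real.exp 1 * (ε * C₀) * 8 * (mp (q + 2) (XX (k : ℂ)) / XX (k : ℂ) ^ 2) * ew ρ (XX (k : ℂ)) +
              B * Real.exp 1 * (M * M * Cp (q + 2)) * 8 * (mp (q + 2) (XX (k : ℂ)) / XX (k : ℂ) ^ 2) * ew ρ (XX (k : ℂ))
            = C₄ * (mp (q + 2) (XX (k : ℂ)) / XX (k : ℂ) ^ 2) * ew ρ (XX (k : ℂ)) := by rw [hC₄]; ring
          _ ≤ _ := mul_le_of_le_one_right (by positivity) hew
      have h4 : mp (q + 2) (XX (k : ℂ)) / XX (k : ℂ) ^ 2 = mp (q + 4) (XX (k : ℂ)) := by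
        unfold mp
        rw [div_eq_mul_inv, ← mul_inv, ← pow_add]
      rw [h4] at h3
      have h5 := pow_le_pow_left₀ (norm_nonneg _) (norm_real_le k) (q + 1)
      have h6 := pow_mp (i := q + 1) (p := q + 4) (j := 2) (by omega) hX
      calc ‖(k : ℂ)‖ ^ (q + 1) * ‖GG (T + 1) (F0 ε (gq (q + 1) x₁ x₂)) k ρ + GG (T + 1) (cv v v) k ρ‖
          ≤ XX (k : ℂ) ^ (q + 1) * (C₄ * mp (q + 4) (XX (k : ℂ))) :=
            mul_le_mul h5 h3 (norm_nonneg _) (by positivity)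
        _ = C₄ * (XX (k : ℂ) ^ (q + 1) * mp (q + 4) (XX (k : ℂ))) := by ring
        _ ≤ C₄ * mp 2 (1 + |k|) := by rw [XX_real] at h6 ⊢; gcongr
    set e₀ := ε * Real.exp (-1) / 5 ^ (q + 1 + 1) with he₀
    have he₀0 : 0 < e₀ := by positivity
    set D := |x₁ - x₂| with hD
    have hD0 : 0 < D := abs_pos.2 (sub_ne_zero.2 hne)
    set Λ := (|L| + C₄ * Real.pi + 1) / e₀ + 2 / D with hΛ
    have hΛ0 : 0 < Λ := by positivity
    set σ := min (min 1 (T / 2)) (Real.exp (-(2 * Λ))) with hσ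
    have hσ0 : 0 < σ := lt_min (lt_min one_pos (by positivity)) (Real.exp_pos _)
    have hσT : σ ≤ T / 2 := (min_le_left _ _).trans (min_le_right _ _)
    refine ⟨T - σ, by linarith, by linarith, fun t ht => ?_⟩
    have ht0 : t ∈ Ico 0 T := ⟨by linarith [ht.1], ht.2⟩
    have htm := hmt t ht0
    have hρ := hmem t ht0
    set ρ := T - t with hρdef
    have hρσ : ρ ≤ σ := by rw [hρdef]; linarith [ht.1]
    have hρ0 : 0 < ρ := hρ.1
    have e1 : iteratedDeriv (q + 1) (fun y => usol T v y t) x = (fa T v (q + 1) (x, t)).re :=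
      congrFun (iter_family (fun i x => hS.dax i x htm) (q + 1)) x
    rw [e1]
    have hexpc : Continuous (fun k : ℝ => Complex.exp (Complex.I * k * x)) := by fun_prop
    have hFcont : Continuous (fun k : ℝ => F0 ε (gq (q + 1) x₁ x₂) k ρ) :=
      (hd.f0.hol ρ hρ).continuousOn.comp_continuous (by fun_prop) (fun k : ℝ => real_mem_strip k)
    have hvcont : Continuous (fun k : ℝ => v k ρ) :=
      (hvc.hol ρ hρ).continuousOn.comp_continuous (by fun_prop) (fun k : ℝ => real_mem_strip k)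
    have hvint : Integrable (fun k : ℝ => (Complex.I * k) ^ (q + 1) * v k ρ * Complex.exp (Complex.I * k * x)) :=
      (hS.good_v.mulI (q + 1)).integrable_exp (p := (x, t)) htm
    have heint : Integrable (fun k : ℝ => (Complex.I * k) ^ (q + 1) * (v k ρ - F0 ε (gq (q + 1) x₁ x₂) k ρ) *
        Complex.exp (Complex.I * k * x)) := by
      refine Integrable.mono' (hi2.const_mul C₄) ?_ (Eventually.of_forall fun k => ?_)
      · exact (((by fun_prop : Continuous fun k : ℝ => (Complex.I * (k : ℂ)) ^ (q + 1)).mul (hvcont.sub hFcont)).mul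
          hexpc).aestronglyMeasurable
      · rw [norm_mul, norm_exp_I, mul_one]
        exact herr k ρ hρ
    have hFint : Integrable (fun k : ℝ => (Complex.I * k) ^ (q + 1) * F0 ε (gq (q + 1) x₁ x₂) k ρ *
        Complex.exp (Complex.I * k * x)) := by
      refine (hvint.sub heint).congr (Eventually.of_forall fun k => ?_)
      simp only [Pi.sub_apply]; ring
    have hu : (fa T v (q + 1) (x, t)).re = (∫ k : ℝ, (Complex.I * k) ^ (q + 1) * F0 ε (gq (q + 1) x₁ x₂) k ρ *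
        Complex.exp (Complex.I * k * x)).re +
        (∫ k : ℝ, (Complex.I * k) ^ (q + 1) * (v k ρ - F0 ε (gq (q + 1) x₁ x₂) k ρ) * Complex.exp (Complex.I * k * x)).re := by
      rw [← Complex.add_re, ← integral_add hFint heint]
      unfold fa U
      congr 1
      congr 1; funext k
      ring
    have hebd : ‖∫ k : ℝ, (Complex.I * k) ^ (q + 1) * (v k ρ - F0 ε (gq (q + 1) x₁ x₂) k ρ) * Complex.exp (Complex.I * k * x)‖ ≤
        C₄ * Real.pi := by
      have h1 := norm_integral_le_of_norm_le (hi2.const_mul C₄)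
        (f := fun k : ℝ => (Complex.I * k) ^ (q + 1) * (v k ρ - F0 ε (gq (q + 1) x₁ x₂) k ρ) * Complex.exp (Complex.I * k * x))
        (Eventually.of_forall fun k => by
          rw [norm_mul, norm_exp_I, mul_one]; exact herr k ρ hρ)
      rw [integral_const_mul] at h1
      exact h1.trans (mul_le_mul_of_nonneg_left (mp_integral le_rfl) hC₄0)
    have hmain := main_lower2 (q + 1) hε hρ0 (hρσ.trans ((min_le_left _ _).trans (min_le_left _ _))) hx hne hFint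
    have h2 := (abs_le.1 ((Complex.abs_re_le_norm _).trans hebd)).1
    have hlog : Λ ≤ Real.log (1 / Real.sqrt ρ) := by
      rw [one_div, Real.log_inv, Real.log_sqrt hρ0.le]
      have h3 : Real.log ρ ≤ -(2 * Λ) := by
        rw [Real.log_le_iff_le_exp hρ0]
        exact hρσ.trans (min_le_right _ _)
      linarith
    have h4 : |L| + C₄ * Real.pi + 1 ≤ e₀ * (Real.log (1 / Real.sqrt ρ) - 2 / D) := by
      have h5 : (|L| + C₄ * Real.pi + 1) / e₀ ≤ Real.log (1 / Real.sqrt ρ) - 2 / D := by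
        rw [hΛ] at hlog; linarith
      rw [div_le_iff₀ he₀0] at h5
      linarith
    rw [hu]
    have h6 := le_abs_self L
    linarith

end Pool.Agent.R206.Bous
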