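import Pool.Agent.R206.Bous.Pic

/-! The critical weight `m(X) = X`. -/

namespace Pool.Agent.R206.Bous

open MeasureTheory Set Filter Topology

lemma intAbs {f : ℝ → ℝ} (h : IntegrableOn f (Ioi 0)) : Integrable (fun x => f |x|) := by
  have h1 : IntegrableOn (fun x => f |x|) (Ioi 0) := by
    refine h.congr_fun (fun x hx => ?_) measurableSet_Ioi
    simp only [abs_of_pos (show (0 : ℝ) < x from hx)]
  have h2 : IntegrableOn (fun x => f |x|) (Iic 0) := by
    rw [← Measure.map_neg_eq_self (volume : Measure ℝ)]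
    let m : MeasurableEmbedding fun x : ℝ => -x := (Homeomorph.neg ℝ).measurableEmbedding
    rw [m.integrableOn_map_iff]
    simp_rw [Function.comp_def, abs_neg, neg_preimage, neg_Iic, neg_zero]
    exact Iff.mpr integrableOn_Ici_iff_integrableOn_Ioi h1
  have h3 := h2.union h1
  rwa [Iic_union_Ioi, integrableOn_univ] at h3

lemma exp_abs_int {c : ℝ} (hc : 0 < c) : Integrable (fun l : ℝ => Real.exp (-(c * |l|))) := by
  have h := intAbs (f := fun x => Real.exp (-c * x)) (integrableOn_exp_mul_Ioi (by linarith) 0)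
  simpa only [neg_mul] using h

lemma exp_abs_val {c : ℝ} (hc : 0 < c) : ∫ l : ℝ, Real.exp (-(c * |l|)) = 2 / c := by
  rw [integral_comp_abs (f := fun x => Real.exp (-(c * x)))]
  have : ∫ x in Ioi (0 : ℝ), Real.exp (-(c * x)) = 1 / c := by
    have h := integral_exp_mul_Ioi (a := -c) (by linarith) 0
    simp only [neg_mul] at h
    rw [h]; simp
  rw [this]; ring

lemma sq_exp_val_Ioi {c : ℝ} (hc : 0 < c) : ∫ x in Ioi (0 : ℝ), x ^ 2 * Real.exp (-(c * x)) = 2 / c ^ 3 := by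
  have h := Real.integral_rpow_mul_exp_neg_mul_Ioi (a := 3) (r := c) (by norm_num) hc
  have e : Real.Gamma 3 = 2 := by
    rw [show (3 : ℝ) = ((2 : ℕ) : ℝ) + 1 by norm_num, Real.Gamma_nat_eq_factorial]
    norm_num
  rw [e] at h
  have e2 : ∫ x in Ioi (0 : ℝ), x ^ 2 * Real.exp (-(c * x)) = ∫ t in Ioi (0 : ℝ), t ^ ((3 : ℝ) - 1) * Real.exp (-(c * t)) := by
    refine setIntegral_congr_fun measurableSet_Ioi fun t _ => ?_
    have : t ^ ((3 : ℝ) - 1) = t ^ 2 := by
      rw [show (3 : ℝ) - 1 = ((2 : ℕ) : ℝ) by norm_num, Real.rpow_natCast]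
    simp only [this]
  rw [e2, h]
  rw [show (3 : ℝ) = ((3 : ℕ) : ℝ) by norm_num, Real.rpow_natCast]
  field_simp

lemma sq_exp_int_Ioi {c : ℝ} (hc : 0 < c) : IntegrableOn (fun x : ℝ => x ^ 2 * Real.exp (-(c * x))) (Ioi 0) := by
  by_contra h
  have h1 := integral_undef h
  rw [sq_exp_val_Ioi hc] at h1
  have : 0 < 2 / c ^ 3 := by positivity
  linarith

lemma sq_exp_int {c : ℝ} (hc : 0 < c) : Integrable (fun l : ℝ => l ^ 2 * Real.exp (-(c * |l|))) := by
  have h := intAbs (sq_exp_int_Ioi hc)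
  simpa only [sq_abs] using h

lemma sq_exp_val {c : ℝ} (hc : 0 < c) : ∫ l : ℝ, l ^ 2 * Real.exp (-(c * |l|)) = 4 / c ^ 3 := by
  have h := integral_comp_abs (f := fun x => x ^ 2 * Real.exp (-(c * x)))
  simp only [sq_abs] at h
  rw [h, sq_exp_val_Ioi hc]; ring

lemma exp_time_int {c ρ R : ℝ} (hc : 0 < c) : IntegrableOn (fun r : ℝ => Real.exp (-c * |ρ - r|)) (Ioo 0 R) := by
  have h := (exp_abs_int hc).comp_sub_left ρ
  refine h.integrableOn.congr_fun (fun x _ => ?_) measurableSet_Ioo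
  simp

lemma exp_time_le {c ρ R : ℝ} (hc : 0 < c) : ∫ r in Ioo 0 R, Real.exp (-c * |ρ - r|) ≤ 2 / c := by
  have h1 : Integrable (fun r : ℝ => Real.exp (-c * |ρ - r|)) := by
    have h := (exp_abs_int hc).comp_sub_left ρ
    simpa using h
  have h2 : ∫ r : ℝ, Real.exp (-c * |ρ - r|) = 2 / c := by
    have := integral_sub_left_eq_self (fun l : ℝ => Real.exp (-c * |l|)) volume ρ
    rw [this]
    rw [← exp_abs_val hc]
    simp
  rw [← h2]
  exact setIntegral_le_integral h1 (Eventually.of_forall fun r => (Real.exp_pos _).le)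

lemma X_sup {s X : ℝ} (hs : 0 < s) (hX : 0 ≤ X) : X * Real.exp (-(s * X)) ≤ 1 / s := by
  rw [le_div_iff₀ hs]
  have h1 := Real.add_one_le_exp (s * X)
  have h2 : Real.exp (s * X) * Real.exp (-(s * X)) = 1 := by rw [← Real.exp_add]; simp
  have h3 := Real.exp_pos (-(s * X))
  nlinarith

lemma half_exp (s X : ℝ) : Real.exp (-(s * X)) = Real.exp (-(s / 2 * X)) * Real.exp (-(s / 2 * X)) := by
  rw [← Real.exp_add]; congr 1; ring

/-- pointwise bound for the convolution -/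
lemma conv_pt {s x l : ℝ} (hs : 0 < s) :
    ((1 + |x - l|) * Real.exp (-(s * (1 + |x - l|)))) * ((1 + |l|) * Real.exp (-(s * (1 + |l|)))) ≤
    Real.exp (-(s * (1 + |x|))) * (indicator (Icc (-(2 * (1 + |x|))) (2 * (1 + |x|))) (fun _ => 9 * (1 + |x|) ^ 2) l
      + 9 / 4 * (l ^ 2 * Real.exp (-(s * |l|)))) := by
  set X := 1 + |x| with hX
  have hX1 : 1 ≤ X := by rw [hX]; linarith [abs_nonneg x]
  have hl0 := abs_nonneg l
  have ht0 := abs_nonneg (x - l)
  have htri : |x| ≤ |x - l| + |l| := by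
    have := abs_add_le (x - l) l
    simpa using this
  have htri2 : |x - l| ≤ |x| + |l| := abs_sub x l
  have htri3 : |l| ≤ |x - l| + |x| := by
    have := abs_add_le (l - x) x
    rw [abs_sub_comm l x] at this
    simpa using this
  rw [show ((1 + |x - l|) * Real.exp (-(s * (1 + |x - l|)))) * ((1 + |l|) * Real.exp (-(s * (1 + |l|)))) =
    ((1 + |x - l|) * (1 + |l|)) * (Real.exp (-(s * (1 + |x - l|))) * Real.exp (-(s * (1 + |l|)))) by ring, ← Real.exp_add]
  by_cases h : l ∈ Icc (-(2 * X)) (2 * X)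
  · rw [indicator_of_mem h]
    have hl : |l| ≤ 2 * X := abs_le.2 h
    have e1 : Real.exp (-(s * (1 + |x - l|)) + -(s * (1 + |l|))) ≤ Real.exp (-(s * X)) := by
      apply Real.exp_le_exp.2
      have : X ≤ (1 + |x - l|) + (1 + |l|) := by rw [hX]; linarith
      nlinarith
    have e2 : (1 + |x - l|) * (1 + |l|) ≤ 9 * X ^ 2 := by
      have a1 : 1 + |x - l| ≤ 3 * X := by rw [hX] at hl ⊢; linarith
      have a2 : 1 + |l| ≤ 3 * X := by linarith
      nlinarith
    have e3 : 0 ≤ 9 / 4 * (l ^ 2 * Real.exp (-(s * |l|))) := by positivity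
    calc ((1 + |x - l|) * (1 + |l|)) * Real.exp (-(s * (1 + |x - l|)) + -(s * (1 + |l|)))
        ≤ (9 * X ^ 2) * Real.exp (-(s * X)) := mul_le_mul e2 e1 (Real.exp_pos _).le (by positivity)
      _ ≤ _ := by nlinarith [Real.exp_pos (-(s * X))]
  · rw [indicator_of_notMem h, zero_add]
    have hl : 2 * X < |l| := by
      by_contra hcon
      exact h (abs_le.1 (not_lt.1 hcon))
    have e1 : Real.exp (-(s * (1 + |x - l|)) + -(s * (1 + |l|))) ≤ Real.exp (-(s * X)) * Real.exp (-(s * |l|)) := by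
      rw [← Real.exp_add]
      apply Real.exp_le_exp.2
      have : X + |l| ≤ (1 + |x - l|) + (1 + |l|) := by rw [hX] at hl ⊢; linarith
      nlinarith
    have e2 : (1 + |x - l|) * (1 + |l|) ≤ 9 / 4 * l ^ 2 := by
      have a1 : 1 + |x - l| ≤ 3 / 2 * |l| := by rw [hX] at hl; linarith
      have a2 : 1 + |l| ≤ 3 / 2 * |l| := by linarith
      rw [← sq_abs l]
      nlinarith
    calc ((1 + |x - l|) * (1 + |l|)) * Real.exp (-(s * (1 + |x - l|)) + -(s * (1 + |l|)))
        ≤ (9 / 4 * l ^ 2) * (Real.exp (-(s * X)) * Real.exp (-(s * |l|))) :=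
          mul_le_mul e2 e1 (Real.exp_pos _).le (by positivity)
      _ = _ := by ring

noncomputable def κ1 (X r : ℝ) : ℝ := 36 * X ^ 3 + 9 / Real.sqrt r ^ 3

lemma conv1 (x : ℝ) {r : ℝ} (hr : 0 < r) :
    ∫ l : ℝ, ((1 + |x - l|) * ew r (1 + |x - l|)) * ((1 + |l|) * ew r (1 + |l|)) ≤ κ1 (1 + |x|) r * ew r (1 + |x|) := by
  have hs : 0 < Real.sqrt r := Real.sqrt_pos.2 hr
  set s := Real.sqrt r with hsdef
  set X := 1 + |x| with hX
  have hX1 : 1 ≤ X := by rw [hX]; linarith [abs_nonneg x]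
  have i1 : Integrable (indicator (Icc (-(2 * X)) (2 * X)) (fun _ : ℝ => 9 * X ^ 2)) := by
    rw [integrable_indicator_iff measurableSet_Icc]
    exact continuous_const.integrableOn_Icc
  have i2 : Integrable (fun l : ℝ => 9 / 4 * (l ^ 2 * Real.exp (-(s * |l|)))) := (sq_exp_int hs).const_mul _
  have h1 : ∫ l : ℝ, ((1 + |x - l|) * ew r (1 + |x - l|)) * ((1 + |l|) * ew r (1 + |l|)) ≤
      ∫ l : ℝ, Real.exp (-(s * X)) * (indicator (Icc (-(2 * X)) (2 * X)) (fun _ => 9 * X ^ 2) l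
      + 9 / 4 * (l ^ 2 * Real.exp (-(s * |l|)))) := by
    refine integral_mono_of_nonneg (Eventually.of_forall fun l => ?_) ((i1.add i2).const_mul _)
      (Eventually.of_forall fun l => conv_pt hs)
    have := abs_nonneg (x - l)
    have := abs_nonneg l
    have := (ew_pos r (1 + |x - l|)).le
    have := (ew_pos r (1 + |l|)).le
    positivity
  refine h1.trans ?_
  rw [integral_const_mul, integral_add i1 i2, integral_const_mul, sq_exp_val hs,
    integral_indicator measurableSet_Icc]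
  have e : ∫ _ in Icc (-(2 * X)) (2 * X), (9 * X ^ 2 : ℝ) = 36 * X ^ 3 := by
    rw [setIntegral_const]
    simp only [Measure.real, Real.volume_Icc, smul_eq_mul]
    rw [ENNReal.toReal_ofReal (by linarith)]
    ring
  rw [e]
  unfold κ1 ew
  rw [← hsdef]
  refine le_of_eq ?_
  ring

lemma sqrt_cube {r : ℝ} (hr : 0 < r) : r / Real.sqrt r ^ 3 = 1 / Real.sqrt r := by
  have hs : 0 < Real.sqrt r := Real.sqrt_pos.2 hr
  have h2 : Real.sqrt r ^ 2 = r := Real.sq_sqrt hr.le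
  rw [div_eq_div_iff (by positivity) (by positivity), one_mul, pow_succ, h2]

/-- derivative of `36 X arctan (X √r)` -/
lemma deriv_arctan {X r : ℝ} (hr : 0 < r) :
    HasDerivAt (fun r => 36 * X * Real.arctan (X * Real.sqrt r)) (18 * X ^ 2 / (Real.sqrt r * (1 + X ^ 2 * r))) r := by
  have hs : 0 < Real.sqrt r := Real.sqrt_pos.2 hr
  have h2 : Real.sqrt r ^ 2 = r := Real.sq_sqrt hr.le
  have h := ((Real.hasDerivAt_sqrt hr.ne').const_mul X).arctan.const_mul (36 * X)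
  refine h.congr_deriv ?_
  have e : 1 + (X * Real.sqrt r) ^ 2 = 1 + X ^ 2 * r := by rw [mul_pow, h2]
  rw [e]
  have : 0 < 1 + X ^ 2 * r := by positivity
  field_simp
  ring

lemma arctan_int {X R : ℝ} (hR : 0 < R) (hX : 1 ≤ X) :
    IntegrableOn (fun r => 18 * X ^ 2 / (Real.sqrt r * (1 + X ^ 2 * r))) (Ioo 0 R) ∧
    ∫ r in Ioo 0 R, 18 * X ^ 2 / (Real.sqrt r * (1 + X ^ 2 * r)) ≤ 60 * X := by
  have hcont : ContinuousOn (fun r => 36 * X * Real.arctan (X * Real.sqrt r)) (Icc 0 R) := by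
    fun_prop
  have hder : ∀ r ∈ Ioo 0 R, HasDerivAt (fun r => 36 * X * Real.arctan (X * Real.sqrt r)) (18 * X ^ 2 / (Real.sqrt r * (1 + X ^ 2 * r))) r :=
    fun r hr => deriv_arctan hr.1
  have hint := intervalIntegral.integrableOn_deriv_of_nonneg hcont hder (fun r hr => by
    have := hr.1.le
    positivity)
  have hint2 : IntervalIntegrable (fun r => 18 * X ^ 2 / (Real.sqrt r * (1 + X ^ 2 * r))) volume 0 R := by
    rw [intervalIntegrable_iff_integrableOn_Ioc_of_le hR.le]; exact hint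
  refine ⟨hint.mono_set Ioo_subset_Ioc_self, ?_⟩
  have h := intervalIntegral.integral_eq_sub_of_hasDerivAt_of_le hR.le hcont hder hint2
  rw [intervalIntegral.integral_of_le hR.le, integral_Ioc_eq_integral_Ioo] at h
  rw [h]
  simp only [Real.sqrt_zero, mul_zero, Real.arctan_zero, sub_zero]
  have h1 := Real.arctan_lt_pi_div_two (X * Real.sqrt R)
  have h2 := Real.pi_lt_d2
  nlinarith

lemma time_pt {X ρ r : ℝ} (hX : 1 ≤ X) (hr : 0 < r) :
    min 1 (X ^ 2 * r) * Real.exp (-(X ^ 2 / 4) * |ρ - r|) * κ1 X r ≤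
      36 * X ^ 3 * Real.exp (-(X ^ 2 / 4) * |ρ - r|) + 18 * X ^ 2 / (Real.sqrt r * (1 + X ^ 2 * r)) := by
  unfold κ1
  rw [mul_add]
  have hs : 0 < Real.sqrt r := Real.sqrt_pos.2 hr
  have hm0 : 0 ≤ min 1 (X ^ 2 * r) := by positivity
  have he1 : Real.exp (-(X ^ 2 / 4) * |ρ - r|) ≤ 1 := by
    rw [Real.exp_le_one_iff]
    have := mul_nonneg (sq_nonneg X) (abs_nonneg (ρ - r))
    nlinarith
  have he0 := Real.exp_pos (-(X ^ 2 / 4) * |ρ - r|)
  refine add_le_add ?_ ?_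
  · have : min 1 (X ^ 2 * r) * Real.exp (-(X ^ 2 / 4) * |ρ - r|) ≤ Real.exp (-(X ^ 2 / 4) * |ρ - r|) :=
      mul_le_of_le_one_left he0.le (min_le_left _ _)
    rw [mul_comm]
    exact mul_le_mul_of_nonneg_left this (by positivity)
  · have h1 : min 1 (X ^ 2 * r) ≤ 2 * (X ^ 2 * r) / (1 + X ^ 2 * r) := by
      have : 0 < X ^ 2 * r := by positivity
      rw [le_div_iff₀ (by positivity)]
      rcases min_cases 1 (X ^ 2 * r) with ⟨h, _⟩ | ⟨h, _⟩ <;> rw [h] <;> nlinarith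
    have h2 : min 1 (X ^ 2 * r) * Real.exp (-(X ^ 2 / 4) * |ρ - r|) ≤ min 1 (X ^ 2 * r) :=
      mul_le_of_le_one_right hm0 he1
    have h3 : (0 : ℝ) ≤ 9 / Real.sqrt r ^ 3 := by positivity
    refine (mul_le_mul_of_nonneg_right (h2.trans h1) h3).trans (le_of_eq ?_)
    have h4 := sqrt_cube hr
    have : 2 * (X ^ 2 * r) / (1 + X ^ 2 * r) * (9 / Real.sqrt r ^ 3) = 18 * X ^ 2 / (1 + X ^ 2 * r) * (r / Real.sqrt r ^ 3) := by ring
    rw [this, h4]
    field_simp

lemma time1 {R X ρ : ℝ} (hR : 0 < R) (hX : 1 ≤ X) :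
    IntegrableOn (fun r => min 1 (X ^ 2 * r) * Real.exp (-(X ^ 2 / 4) * |ρ - r|) * κ1 X r) (Ioo 0 R) ∧
    ∫ r in Ioo 0 R, min 1 (X ^ 2 * r) * Real.exp (-(X ^ 2 / 4) * |ρ - r|) * κ1 X r ≤ 348 * X := by
  have hc : 0 < X ^ 2 / 4 := by positivity
  have i1 := (exp_time_int (ρ := ρ) (R := R) hc).const_mul (36 * X ^ 3)
  have i2 := (arctan_int hR hX).1
  have hpt : ∀ r ∈ Ioo 0 R, ‖min 1 (X ^ 2 * r) * Real.exp (-(X ^ 2 / 4) * |ρ - r|) * κ1 X r‖ ≤
      36 * X ^ 3 * Real.exp (-(X ^ 2 / 4) * |ρ - r|) + 18 * X ^ 2 / (Real.sqrt r * (1 + X ^ 2 * r)) := by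
    intro r hr
    have hr0 := hr.1
    have hk : 0 ≤ κ1 X r := by unfold κ1; positivity
    rw [Real.norm_eq_abs, abs_of_nonneg (by positivity)]
    exact time_pt hX hr.1
  have hint : IntegrableOn (fun r => min 1 (X ^ 2 * r) * Real.exp (-(X ^ 2 / 4) * |ρ - r|) * κ1 X r) (Ioo 0 R) := by
    refine Integrable.mono' (i1.add i2) ?_ ((ae_restrict_iff' measurableSet_Ioo).2 (Eventually.of_forall hpt))
    refine Measurable.aestronglyMeasurable ?_
    unfold κ1
    fun_prop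
  refine ⟨hint, ?_⟩
  have h1 : ∫ r in Ioo 0 R, min 1 (X ^ 2 * r) * Real.exp (-(X ^ 2 / 4) * |ρ - r|) * κ1 X r ≤
      ∫ r in Ioo 0 R, (36 * X ^ 3 * Real.exp (-(X ^ 2 / 4) * |ρ - r|) + 18 * X ^ 2 / (Real.sqrt r * (1 + X ^ 2 * r))) := by
    refine setIntegral_mono_on hint (i1.add i2) measurableSet_Ioo fun r hr => ?_
    exact (le_abs_self _).trans (hpt r hr)
  rw [integral_add i1 i2, integral_const_mul] at h1
  have h2 := exp_time_le (ρ := ρ) (R := R) hc
  have h3 := (arctan_int hR hX).2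
  have h4 : 36 * X ^ 3 * (∫ r in Ioo 0 R, Real.exp (-(X ^ 2 / 4) * |ρ - r|)) ≤ 288 * X := by
    refine (mul_le_mul_of_nonneg_left h2 (by positivity)).trans (le_of_eq ?_)
    field_simp
    ring
  linarith

lemma adm1 (R : ℝ) : Adm R κ1 := by
  intro K
  refine ⟨fun r => 36 * |K| ^ 3 * R + 9 * r ^ (-(1 / 2) : ℝ), ?_, ?_⟩
  · rcases le_or_gt R 0 with hR | hR
    · rw [Ioo_eq_empty (not_lt.2 hR)]; simp
    · have h := (intervalIntegral.intervalIntegrable_rpow' (a := 0) (b := R) (by norm_num : (-1 : ℝ) < -(1 / 2)))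
      rw [intervalIntegrable_iff_integrableOn_Ioo_of_le hR.le] at h
      refine Integrable.add ?_ (h.const_mul 9)
      have : IntegrableOn (fun _ : ℝ => 36 * |K| ^ 3 * R) (Ioo 0 R) volume :=
        continuous_const.integrableOn_Icc.mono_set Ioo_subset_Icc_self
      exact this
  · intro X r h1 h2 h3
    unfold κ1
    have hr := h3.1
    have e1 : r * (9 / Real.sqrt r ^ 3) = 9 * r ^ (-(1 / 2) : ℝ) := by
      have := sqrt_cube hr
      rw [show r * (9 / Real.sqrt r ^ 3) = 9 * (r / Real.sqrt r ^ 3) by ring, this, Real.rpow_neg hr.le,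
        Real.sqrt_eq_rpow, one_div]
    rw [mul_add, e1]
    refine add_le_add ?_ le_rfl
    have hK : X ≤ |K| := h2.trans (le_abs_self _)
    have hX0 : 0 ≤ X := by linarith
    have : X ^ 3 ≤ |K| ^ 3 := pow_le_pow_left₀ hX0 hK 3
    have hrR := h3.2.le
    calc r * (36 * X ^ 3) = 36 * X ^ 3 * r := by ring
      _ ≤ 36 * |K| ^ 3 * R := by gcongr

/-- the critical weight data -/
noncomputable def W1 (R : ℝ) (hR : 0 < R) : WData R where
  m := fun X => X
  κ := κ1
  A := 348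
  hR := hR
  A_pos := by norm_num
  m_meas := measurable_id
  m_pos X hX := by linarith
  m_le_κ X r hX hr := by
    unfold κ1
    have h1 := hr.1
    have : 0 ≤ 9 / Real.sqrt r ^ 3 := by positivity
    nlinarith [pow_le_pow_right₀ hX (show 1 ≤ 3 by norm_num)]
  m_sup r hr := ⟨1 / Real.sqrt r, fun X hX => X_sup (Real.sqrt_pos.2 hr) (by linarith)⟩
  m_int r hr := by
    have hs : 0 < Real.sqrt r := Real.sqrt_pos.2 hr
    refine Integrable.mono' (g := fun l : ℝ => (1 / (Real.sqrt r / 2)) * Real.exp (-(Real.sqrt r / 2 * |l|)))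
      ((exp_abs_int (by positivity)).const_mul _) ?_ (Eventually.of_forall fun l => ?_)
    · unfold ew
      exact (by fun_prop : Continuous fun l : ℝ => (1 + |l|) * Real.exp (-(Real.sqrt r * (1 + |l|)))).aestronglyMeasurable
    · have hl := abs_nonneg l
      rw [Real.norm_eq_abs, abs_of_nonneg (mul_nonneg (by positivity) (ew_pos _ _).le)]
      unfold ew
      rw [half_exp, ← mul_assoc]
      refine mul_le_mul (X_sup (by positivity) (by positivity)) (Real.exp_le_exp.2 ?_) (Real.exp_pos _).le (by positivity)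
      nlinarith
  conv_le x r hr := conv1 x hr.1
  time_int X ρ hX _ := (time1 hR hX).1
  time_le X ρ hX _ := (time1 hR hX).2
  adm := adm1 R
  poly ρ₀ h0 := by
    have hs : 0 < Real.sqrt ρ₀ := Real.sqrt_pos.2 h0
    refine ⟨36 + 9 / Real.sqrt ρ₀ ^ 3, 3, by positivity, fun X ρ hX _ hle => ?_⟩
    unfold κ1
    have h1 := Real.sqrt_le_sqrt hle
    have h2 : 9 / Real.sqrt ρ ^ 3 ≤ 9 / Real.sqrt ρ₀ ^ 3 := by gcongr
    have h3 : (1 : ℝ) ≤ X ^ 3 := one_le_pow₀ hX
    have h4 : 0 ≤ 9 / Real.sqrt ρ₀ ^ 3 := by positivity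
    nlinarith

end Pool.Agent.R206.Bous
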