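import Pool.Agent.R206.Bous.Crit

/-! The subcritical weights `m(X) = X^{-p}`, `p ≥ 2`. -/

namespace Pool.Agent.R206.Bous

open MeasureTheory Set Filter Topology

noncomputable def mp (p : ℕ) (X : ℝ) : ℝ := (X ^ p)⁻¹

lemma mp_pos (p : ℕ) {X : ℝ} (hX : 1 ≤ X) : 0 < mp p X := by
  unfold mp; have : 0 < X := by linarith
  positivity

lemma mp_le_one (p : ℕ) {X : ℝ} (hX : 1 ≤ X) : mp p X ≤ 1 := by
  unfold mp
  exact inv_le_one_of_one_le₀ (one_le_pow₀ hX)

lemma mp_le_quad {p : ℕ} (hp : 2 ≤ p) (l : ℝ) : mp p (1 + |l|) ≤ (1 + l ^ 2)⁻¹ := by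
  unfold mp
  have h0 := abs_nonneg l
  apply inv_anti₀ (by positivity)
  have h1 : (1 + |l|) ^ 2 ≤ (1 + |l|) ^ p := pow_le_pow_right₀ (by linarith) hp
  refine le_trans ?_ h1
  rw [← sq_abs l]; nlinarith

lemma mp_meas (p : ℕ) : Measurable (mp p) := by unfold mp; fun_prop

lemma mp_integrable {p : ℕ} (hp : 2 ≤ p) : Integrable (fun l : ℝ => mp p (1 + |l|)) := by
  refine Integrable.mono' integrable_inv_one_add_sq ?_ (Eventually.of_forall fun l => ?_)
  · exact ((mp_meas p).comp (by fun_prop)).aestronglyMeasurable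
  · rw [Real.norm_eq_abs, abs_of_pos (mp_pos p (by linarith [abs_nonneg l]))]
    exact mp_le_quad hp l

lemma mp_integral {p : ℕ} (hp : 2 ≤ p) : ∫ l : ℝ, mp p (1 + |l|) ≤ Real.pi := by
  rw [← integral_univ_inv_one_add_sq]
  exact integral_mono (mp_integrable hp) integrable_inv_one_add_sq (fun l => mp_le_quad hp l)

noncomputable def Cp (p : ℕ) : ℝ := 2 ^ (p + 1) * Real.pi

lemma Cp_ge (p : ℕ) : 1 ≤ Cp p := by
  unfold Cp
  have h1 : (1 : ℝ) ≤ 2 ^ (p + 1) := one_le_pow₀ (by norm_num)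
  have h2 := Real.pi_gt_three
  nlinarith

lemma mp_prod (p : ℕ) {a b X : ℝ} (ha : 1 ≤ a) (hb : 1 ≤ b) (hX : 1 ≤ X) (h : X ≤ a + b) :
    mp p a * mp p b ≤ 2 ^ p * mp p X * (mp p a + mp p b) := by
  have key : ∀ c : ℝ, 1 ≤ c → X / 2 ≤ c → mp p c ≤ 2 ^ p * mp p X := by
    intro c hc h2
    unfold mp
    have h3 : (X / 2) ^ p ≤ c ^ p := pow_le_pow_left₀ (by linarith) h2 p
    have h4 : 0 < (X / 2) ^ p := by positivity
    calc (c ^ p)⁻¹ ≤ ((X / 2) ^ p)⁻¹ := inv_anti₀ h4 h3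
      _ = 2 ^ p * (X ^ p)⁻¹ := by rw [div_pow, inv_div]; ring
  have pa := mp_pos p ha
  have pb := mp_pos p hb
  have pX := mp_pos p hX
  rcases le_total (X / 2) a with h1 | h1
  · have := key a ha h1
    nlinarith [mul_le_mul_of_nonneg_right this pb.le, mul_pos (mul_pos (pow_pos two_pos p) pX) pa]
  · have := key b hb (by linarith)
    nlinarith [mul_le_mul_of_nonneg_right this pa.le, mul_pos (mul_pos (pow_pos two_pos p) pX) pb]

lemma conv2 {p : ℕ} (hp : 2 ≤ p) (x r : ℝ) :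
    ∫ l : ℝ, (mp p (1 + |x - l|) * ew r (1 + |x - l|)) * (mp p (1 + |l|) * ew r (1 + |l|)) ≤
      (Cp p * mp p (1 + |x|)) * ew r (1 + |x|) := by
  have hX : (1 : ℝ) ≤ 1 + |x| := by linarith [abs_nonneg x]
  have i1 := mp_integrable hp
  have i2 : Integrable (fun l : ℝ => mp p (1 + |x - l|)) := i1.comp_sub_left x
  have e2 : ∫ l : ℝ, mp p (1 + |x - l|) = ∫ l : ℝ, mp p (1 + |l|) :=
    integral_sub_left_eq_self (fun l : ℝ => mp p (1 + |l|)) volume x
  have h1 : ∫ l : ℝ, (mp p (1 + |x - l|) * ew r (1 + |x - l|)) * (mp p (1 + |l|) * ew r (1 + |l|)) ≤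
      ∫ l : ℝ, (2 ^ p * mp p (1 + |x|) * ew r (1 + |x|)) * (mp p (1 + |x - l|) + mp p (1 + |l|)) := by
    refine integral_mono_of_nonneg (Eventually.of_forall fun l => ?_) ((i2.add i1).const_mul _)
      (Eventually.of_forall fun l => ?_)
    · have h3 := mp_pos p (show (1 : ℝ) ≤ 1 + |x - l| by linarith [abs_nonneg (x - l)])
      have h4 := mp_pos p (show (1 : ℝ) ≤ 1 + |l| by linarith [abs_nonneg l])
      have := ew_pos r (1 + |x - l|)
      have := ew_pos r (1 + |l|)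
      positivity
    · have ha : (1 : ℝ) ≤ 1 + |x - l| := by linarith [abs_nonneg (x - l)]
      have hb : (1 : ℝ) ≤ 1 + |l| := by linarith [abs_nonneg l]
      have htri : |x| ≤ |x - l| + |l| := by
        have := abs_add_le (x - l) l
        simpa using this
      have h2 := mp_prod p ha hb hX (by linarith)
      have h3 : ew r (1 + |x - l|) * ew r (1 + |l|) ≤ ew r (1 + |x|) := by
        unfold ew
        rw [← Real.exp_add]
        apply Real.exp_le_exp.2
        nlinarith [Real.sqrt_nonneg r, mul_le_mul_of_nonneg_left htri (Real.sqrt_nonneg r)]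
      have hpa := mp_pos p ha
      have hpb := mp_pos p hb
      have hpX := mp_pos p hX
      have he := ew_pos r (1 + |x|)
      calc (mp p (1 + |x - l|) * ew r (1 + |x - l|)) * (mp p (1 + |l|) * ew r (1 + |l|))
          = (mp p (1 + |x - l|) * mp p (1 + |l|)) * (ew r (1 + |x - l|) * ew r (1 + |l|)) := by ring
        _ ≤ (2 ^ p * mp p (1 + |x|) * (mp p (1 + |x - l|) + mp p (1 + |l|))) * ew r (1 + |x|) :=
            mul_le_mul h2 h3 (mul_pos (ew_pos _ _) (ew_pos _ _)).le (by positivity)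
        _ = _ := by ring
  refine h1.trans ?_
  rw [integral_const_mul, integral_add i2 i1, e2]
  have h2 := mp_integral hp
  have hpX := mp_pos p hX
  have he := ew_pos r (1 + |x|)
  calc 2 ^ p * mp p (1 + |x|) * ew r (1 + |x|) * ((∫ l : ℝ, mp p (1 + |l|)) + ∫ l : ℝ, mp p (1 + |l|))
      ≤ 2 ^ p * mp p (1 + |x|) * ew r (1 + |x|) * (Real.pi + Real.pi) := by gcongr
    _ = _ := by unfold Cp; rw [pow_succ]; ring

lemma time2 {R X ρ p' : ℝ} (hX : 1 ≤ X) (hp' : 0 ≤ p') :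
    IntegrableOn (fun r => min 1 (X ^ 2 * r) * Real.exp (-(X ^ 2 / 4) * |ρ - r|) * p') (Ioo 0 R) ∧
    ∫ r in Ioo 0 R, min 1 (X ^ 2 * r) * Real.exp (-(X ^ 2 / 4) * |ρ - r|) * p' ≤ 8 * p' := by
  have hc : 0 < X ^ 2 / 4 := by positivity
  have i1 := (exp_time_int (ρ := ρ) (R := R) hc).mul_const p'
  have hpt : ∀ r ∈ Ioo 0 R, ‖min 1 (X ^ 2 * r) * Real.exp (-(X ^ 2 / 4) * |ρ - r|) * p'‖ ≤
      Real.exp (-(X ^ 2 / 4) * |ρ - r|) * p' := by
    intro r hr
    have hr0 := hr.1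
    have he := Real.exp_pos (-(X ^ 2 / 4) * |ρ - r|)
    rw [Real.norm_eq_abs, abs_of_nonneg (by positivity)]
    exact mul_le_mul_of_nonneg_right (mul_le_of_le_one_left he.le (min_le_left _ _)) hp'
  have hint : IntegrableOn (fun r => min 1 (X ^ 2 * r) * Real.exp (-(X ^ 2 / 4) * |ρ - r|) * p') (Ioo 0 R) := by
    refine Integrable.mono' i1 ?_ ((ae_restrict_iff' measurableSet_Ioo).2 (Eventually.of_forall hpt))
    exact (by fun_prop : Continuous fun r : ℝ => min 1 (X ^ 2 * r) * Real.exp (-(X ^ 2 / 4) * |ρ - r|) * p').aestronglyMeasurable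
  refine ⟨hint, ?_⟩
  have h1 : ∫ r in Ioo 0 R, min 1 (X ^ 2 * r) * Real.exp (-(X ^ 2 / 4) * |ρ - r|) * p' ≤
      ∫ r in Ioo 0 R, Real.exp (-(X ^ 2 / 4) * |ρ - r|) * p' := by
    refine setIntegral_mono_on hint i1 measurableSet_Ioo fun r hr => ?_
    exact (le_abs_self _).trans (hpt r hr)
  have e0 : ∫ r in Ioo 0 R, Real.exp (-(X ^ 2 / 4) * |ρ - r|) * p' =
      (∫ r in Ioo 0 R, Real.exp (-(X ^ 2 / 4) * |ρ - r|)) * p' := integral_mul_const _ _
  rw [e0] at h1
  have h2 := exp_time_le (ρ := ρ) (R := R) hc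
  have h3 : 2 / (X ^ 2 / 4) ≤ 8 := by
    rw [div_le_iff₀ hc]; nlinarith
  exact h1.trans (mul_le_mul_of_nonneg_right (h2.trans h3) hp')

/-- the subcritical weight data -/
noncomputable def W2 (R : ℝ) (hR : 0 < R) (p : ℕ) (hp : 2 ≤ p) : WData R where
  m := mp p
  κ := fun X _ => Cp p * mp p X
  A := 8 * Cp p
  hR := hR
  A_pos := by have := Cp_ge p; linarith
  m_meas := mp_meas p
  m_pos X hX := mp_pos p hX
  m_le_κ X r hX hr := le_mul_of_one_le_left (mp_pos p hX).le (Cp_ge p)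
  m_sup r hr := ⟨1, fun X hX => by
    have h1 := mp_le_one p hX
    have h2 := ew_le_one (ρ := r) hX
    have h3 := (ew_pos r X).le
    have h4 := (mp_pos p hX).le
    nlinarith⟩
  m_int r hr := by
    refine Integrable.mono' (mp_integrable hp) ?_ (Eventually.of_forall fun l => ?_)
    · unfold ew
      exact (((mp_meas p).comp (by fun_prop)).mul (by fun_prop)).aestronglyMeasurable
    · have hX : (1 : ℝ) ≤ 1 + |l| := by linarith [abs_nonneg l]
      rw [Real.norm_eq_abs, abs_of_nonneg (mul_nonneg (mp_pos p hX).le (ew_pos _ _).le)]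
      exact mul_le_of_le_one_right (mp_pos p hX).le (ew_le_one hX)
  conv_le x r _ := conv2 hp x r
  time_int X ρ hX _ := (time2 hX (mul_nonneg (by linarith [Cp_ge p]) (mp_pos p hX).le)).1
  time_le X ρ hX _ := by
    refine (time2 hX (mul_nonneg (by linarith [Cp_ge p]) (mp_pos p hX).le)).2.trans (le_of_eq (by ring))
  adm K := by
    refine ⟨fun _ => Cp p * R, ?_, ?_⟩
    · exact continuous_const.integrableOn_Icc.mono_set Ioo_subset_Icc_self
    · intro X r h1 h2 h3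
      have h4 := mp_le_one p h1
      have h5 := mp_pos p h1
      have h6 := Cp_ge p
      have h7 : Cp p * mp p X ≤ Cp p := mul_le_of_le_one_right (by linarith) h4
      calc r * (Cp p * mp p X) ≤ r * Cp p := mul_le_mul_of_nonneg_left h7 h3.1.le
        _ ≤ R * Cp p := mul_le_mul_of_nonneg_right h3.2.le (by linarith)
        _ = _ := by ring
  poly ρ₀ h0 := ⟨Cp p, 0, by linarith [Cp_ge p], fun X ρ hX _ _ => by
    rw [pow_zero, mul_one]
    exact mul_le_of_le_one_right (by linarith [Cp_ge p]) (mp_le_one p hX)⟩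

end Pool.Agent.R206.Bous
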